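import Pool.Agent.Y714.KE.BasB

set_option autoImplicit false
set_option linter.unusedSectionVars false
set_option linter.unusedVariables false

/-! Etale algebras: basic lemmas D (coordinates). -/

namespace Pool.Agent.Y714.KE

open Pool.Agent.Y714.KF (FI sp ct nm pm ext br gl ubas qf bk el sg bf)
open NumberField FractionalIdeal Module Finset ComplexConjugate MeasureTheory Filter Topology
open scoped nonZeroDivisors

variable {s : Type} [Fintype s] [DecidableEq s] {K : s → Type} [∀ i, Field (K i)]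
  [∀ i, NumberField (K i)]

/-! ### D: coordinates -/

theorem exists_bs (I : FU K) : ∃ b : Bs K, IsB I b := by
  choose b hb using fun i => Pool.Agent.Y714.KF.exists_basis (I i)
  exact ⟨b, fun i x => hb i x⟩

theorem rw2_int (b : Bs K) (z : Ix K ⊕ Ix K → ℤ) : rw2 b (fun k => (z k : ℝ)) = vc (pr b z) := by
  funext e
  unfold rw2 vc pr
  exact Prod.ext (Pool.Agent.Y714.KF.sg_int (b e.1) e.2 fun j => z (Sum.inl ⟨e.1, j⟩))
    (Pool.Agent.Y714.KF.sg_int (b e.1) e.2 fun j => z (Sum.inr ⟨e.1, j⟩))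

/-- the scaled coordinates of a component -/
theorem scl_inl (y : s → ℝ) (z : Ix K ⊕ Ix K → ℤ) (i : s) :
    (fun j => scl y z (Sum.inl ⟨i, j⟩)) =
      Real.exp (-(y i)) • fun j => ((z (Sum.inl ⟨i, j⟩) : ℤ) : ℝ) := by
  funext j
  unfold scl cm
  simp only [Sum.elim_inl, Pi.smul_apply, smul_eq_mul]
  rw [Real.exp_neg]
  ring

/-- the scaled coordinates of a component -/
theorem scl_inr (y : s → ℝ) (z : Ix K ⊕ Ix K → ℤ) (i : s) :
    (fun j => scl y z (Sum.inr ⟨i, j⟩)) =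
      Real.exp (-(y i)) • fun j => ((z (Sum.inr ⟨i, j⟩) : ℤ) : ℝ) := by
  funext j
  unfold scl cm
  simp only [Sum.elim_inr, Pi.smul_apply, smul_eq_mul]
  rw [Real.exp_neg]
  ring

theorem rw2_scl (b : Bs K) (y : s → ℝ) (z : Ix K ⊕ Ix K → ℤ) : rw2 b (scl y z) =
    fun e => ((Real.exp (-(y e.1)) : ℝ) : ℂ) • vc (pr b z) e := by
  funext e
  unfold rw2
  rw [scl_inl, scl_inr, Pool.Agent.Y714.KF.sg_smul, Pool.Agent.Y714.KF.sg_smul,
    Pool.Agent.Y714.KF.sg_int, Pool.Agent.Y714.KF.sg_int]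
  rfl

theorem SYM_rw2 (b : Bs K) (u : Ix K ⊕ Ix K → ℝ) : SYM (rw2 b u) := by
  intro i σ
  unfold rw2
  exact Prod.ext (Pool.Agent.Y714.KF.sg_conj (b i) σ _) (Pool.Agent.Y714.KF.sg_conj (b i) σ _)

theorem pr_inj (b : Bs K) : Function.Injective (pr b) := by
  intro z w h
  have h1 : ∀ i, (fun j => z (Sum.inl ⟨i, j⟩)) = fun j => w (Sum.inl ⟨i, j⟩) := fun i =>
    Pool.Agent.Y714.KF.el_injective (b i) (congrFun (congrArg Prod.fst h) i)
  have h2 : ∀ i, (fun j => z (Sum.inr ⟨i, j⟩)) = fun j => w (Sum.inr ⟨i, j⟩) := fun i =>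
    Pool.Agent.Y714.KF.el_injective (b i) (congrFun (congrArg Prod.snd h) i)
  funext k
  rcases k with ⟨i, j⟩ | ⟨i, j⟩
  · exact congrFun (h1 i) j
  · exact congrFun (h2 i) j

theorem exists_pr {I : FU K} {b : Bs K} (h : IsB I b) {P : Al K × Al K}
    (hP : ∀ i, cn P i ≤ I i) : ∃ z, pr b z = P := by
  obtain ⟨h1, h2⟩ := (cn_le (P := P) (I := cf I)).1 hP
  choose z hz using fun i => (h i (P.1 i)).1 (h1 i)
  choose w hw using fun i => (h i (P.2 i)).1 (h2 i)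
  refine ⟨Sum.elim (fun k => z k.1 k.2) (fun k => w k.1 k.2), Prod.ext ?_ ?_⟩
  · funext i
    exact (hz i).symm
  · funext i
    exact (hw i).symm

theorem cn_pr_le {I : FU K} {b : Bs K} (h : IsB I b) (z : Ix K ⊕ Ix K → ℤ) (i : s) :
    cn (pr b z) i ≤ I i :=
  (cn_le (P := pr b z) (I := cf I)).2
    ⟨fun i => (h i _).2 ⟨_, rfl⟩, fun i => (h i _).2 ⟨_, rfl⟩⟩ i

theorem el_neg {F : Type} [Field F] [NumberField F] {ι : Type} [Fintype ι] [DecidableEq ι]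
    (b : Basis ι ℚ F) (z : ι → ℤ) : el b (fun j => -z j) = -el b z := by
  unfold el
  rw [← sum_neg_distrib]
  refine sum_congr rfl fun i _ => ?_
  push_cast
  ring

theorem pr_neg (b : Bs K) (z : Ix K ⊕ Ix K → ℤ) :
    pr b (fun k => -z k) = (-(pr b z).1, -(pr b z).2) := by
  refine Prod.ext ?_ ?_
  · funext i
    exact el_neg (b i) _
  · funext i
    exact el_neg (b i) _

theorem continuous_rw2 (b : Bs K) : Continuous (rw2 b) := by
  refine continuous_pi fun e => ?_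
  unfold rw2
  refine Continuous.prodMk ?_ ?_
  · exact (Pool.Agent.Y714.KF.continuous_sg (b e.1) e.2).comp (by fun_prop)
  · exact (Pool.Agent.Y714.KF.continuous_sg (b e.1) e.2).comp (by fun_prop)

theorem expD_two (t : ℝ) : Real.exp (-(2 * t)) = Real.exp (-t) * Real.exp (-t) := by
  rw [← Real.exp_add]
  congr 1
  ring

theorem QY_pr1 (b : Bs K) (y : s → ℝ) (z : Ix K ⊕ Ix K → ℤ) :
    QY y (pr b z).1 = bfA b (lf (scl y z)) (lf (scl y z)) := by
  unfold QY bfA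
  refine sum_congr rfl fun i _ => ?_
  change _ = bf (b i) (fun j => scl y z (Sum.inl ⟨i, j⟩)) (fun j => scl y z (Sum.inl ⟨i, j⟩))
  rw [scl_inl, Pool.Agent.Y714.KF.bf_smul_left, Pool.Agent.Y714.KF.bf_smul_right,
    ← Pool.Agent.Y714.KF.qf_el, expD_two, mul_assoc]
  rfl

theorem QY_pr2 (b : Bs K) (y : s → ℝ) (z : Ix K ⊕ Ix K → ℤ) :
    QY y (pr b z).2 = bfA b (rt (scl y z)) (rt (scl y z)) := by
  unfold QY bfA
  refine sum_congr rfl fun i _ => ?_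
  change _ = bf (b i) (fun j => scl y z (Sum.inr ⟨i, j⟩)) (fun j => scl y z (Sum.inr ⟨i, j⟩))
  rw [scl_inr, Pool.Agent.Y714.KF.bf_smul_left, Pool.Agent.Y714.KF.bf_smul_right,
    ← Pool.Agent.Y714.KF.qf_el, expD_two, mul_assoc]
  rfl

theorem BY_pr (b : Bs K) (y : s → ℝ) (z : Ix K ⊕ Ix K → ℤ) :
    BY y (pr b z).1 (pr b z).2 = bfA b (lf (scl y z)) (rt (scl y z)) := by
  unfold BY bfA
  refine sum_congr rfl fun i _ => ?_
  change _ = bf (b i) (fun j => scl y z (Sum.inl ⟨i, j⟩)) (fun j => scl y z (Sum.inr ⟨i, j⟩))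
  rw [scl_inl, scl_inr, Pool.Agent.Y714.KF.bf_smul_left, Pool.Agent.Y714.KF.bf_smul_right,
    ← Pool.Agent.Y714.KF.bk_el, expD_two, mul_assoc]
  rfl

theorem exists_bfA_bound (b : Bs K) : ∃ c C : ℝ, 0 < c ∧ 0 < C ∧ ∀ x : Ix K → ℝ,
    c * ‖x‖ ^ 2 ≤ bfA b x x ∧ bfA b x x ≤ C * ‖x‖ ^ 2 := by
  choose c C hc hC hb using fun i => Pool.Agent.Y714.KF.exists_bf_bound (b i)
  have hS : 0 ≤ ∑ i, (c i)⁻¹ := sum_nonneg fun i _ => (inv_pos.2 (hc i)).le
  have hS2 : 0 ≤ ∑ i, C i := sum_nonneg fun i _ => (hC i).le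
  refine ⟨(∑ i, (c i)⁻¹ + 1)⁻¹, ∑ i, C i + 1, by positivity, by positivity, fun x => ⟨?_, ?_⟩⟩
  · have hnn : ∀ i, 0 ≤ bf (b i) (fun j => x ⟨i, j⟩) (fun j => x ⟨i, j⟩) := fun i =>
      Pool.Agent.Y714.KF.bf_self_nonneg _ _
    have hB : 0 ≤ bfA b x x := sum_nonneg fun i _ => hnn i
    have hD : 0 < ∑ i, (c i)⁻¹ + 1 := by positivity
    have h1 : ‖x‖ ≤ Real.sqrt ((∑ i, (c i)⁻¹ + 1) * bfA b x x) := by
      rw [pi_norm_le_iff_of_nonneg (Real.sqrt_nonneg _)]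
      rintro ⟨i, j⟩
      apply Real.le_sqrt_of_sq_le
      have h2 : ‖x ⟨i, j⟩‖ ≤ ‖fun j => x ⟨i, j⟩‖ := norm_le_pi_norm (fun j => x ⟨i, j⟩) j
      have h3 : ‖x ⟨i, j⟩‖ ^ 2 ≤ ‖fun j => x ⟨i, j⟩‖ ^ 2 := pow_le_pow_left₀ (norm_nonneg _) h2 2
      have h4 := (hb i (fun j => x ⟨i, j⟩)).1
      have h5 : bf (b i) (fun j => x ⟨i, j⟩) (fun j => x ⟨i, j⟩) ≤ bfA b x x :=
        single_le_sum (f := fun i => bf (b i) (fun j => x ⟨i, j⟩) (fun j => x ⟨i, j⟩))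
          (fun i _ => hnn i) (mem_univ i)
      have h6 : (c i)⁻¹ ≤ ∑ i, (c i)⁻¹ + 1 := by
        have := single_le_sum (f := fun i => (c i)⁻¹) (fun i _ => (inv_pos.2 (hc i)).le)
          (mem_univ i)
        linarith
      have h7 : ‖x ⟨i, j⟩‖ ^ 2 ≤ (c i)⁻¹ * bfA b x x := by
        rw [← div_eq_inv_mul, le_div_iff₀ (hc i), mul_comm]
        exact (mul_le_mul_of_nonneg_left h3 (hc i).le).trans (h4.trans h5)
      exact h7.trans (mul_le_mul_of_nonneg_right h6 hB)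
    have h2 : ‖x‖ ^ 2 ≤ (∑ i, (c i)⁻¹ + 1) * bfA b x x := by
      calc ‖x‖ ^ 2 ≤ Real.sqrt ((∑ i, (c i)⁻¹ + 1) * bfA b x x) ^ 2 :=
            pow_le_pow_left₀ (norm_nonneg _) h1 2
        _ = _ := Real.sq_sqrt (by positivity)
    rw [inv_mul_le_iff₀ hD]
    exact h2
  · have h1 : bfA b x x ≤ ∑ i, C i * ‖x‖ ^ 2 := by
      unfold bfA
      refine sum_le_sum fun i _ => ?_
      refine ((hb i (fun j => x ⟨i, j⟩)).2).trans ?_
      apply mul_le_mul_of_nonneg_left _ (hC i).le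
      apply pow_le_pow_left₀ (norm_nonneg _)
      rw [pi_norm_le_iff_of_nonneg (norm_nonneg _)]
      intro j
      exact norm_le_pi_norm x ⟨i, j⟩
    rw [← sum_mul] at h1
    nlinarith [sq_nonneg ‖x‖]

/-- Lagrange's identity for real families -/
theorem lagrangeD_aux {J : Type} [Fintype J] (c : J ≃ J) (X Y : J → ℂ)
    (hX : ∀ e, X (c e) = conj (X e)) (hY : ∀ e, Y (c e) = conj (Y e)) :
    2 * ((∑ e, (X e * conj (X e)).re) * (∑ e, (Y e * conj (Y e)).re) -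
      (∑ e, (X e * conj (Y e)).re) ^ 2) = ∑ e, ∑ f, ‖br (X e, Y e) (X f, Y f)‖ ^ 2 := by
  have hreal : ∀ Z W : J → ℂ, (∀ e, Z (c e) = conj (Z e)) → (∀ e, W (c e) = conj (W e)) →
      ∑ e, Z e * conj (W e) = ((∑ e, (Z e * conj (W e)).re : ℝ) : ℂ) := by
    intro Z W hZ hW
    have h1 : conj (∑ e, Z e * conj (W e)) = ∑ e, Z e * conj (W e) := by
      rw [map_sum, ← Equiv.sum_comp c (fun e => Z e * conj (W e))]
      refine sum_congr rfl fun e _ => ?_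
      rw [hZ, hW, map_mul]
    have h2 := (Complex.conj_eq_iff_re.1 h1).symm
    rw [h2, Complex.re_sum]
  have key : ((∑ e, ∑ f, ‖br (X e, Y e) (X f, Y f)‖ ^ 2 : ℝ) : ℂ) =
      2 * ((∑ e, X e * conj (X e)) * (∑ e, Y e * conj (Y e)) -
        (∑ e, X e * conj (Y e)) * ∑ e, Y e * conj (X e)) := by
    push_cast
    have h1 : ∀ e f : J, ((‖br (X e, Y e) (X f, Y f)‖ : ℝ) : ℂ) ^ 2 =
        (X e * conj (X e)) * (Y f * conj (Y f)) + (Y e * conj (Y e)) * (X f * conj (X f)) -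
        (X e * conj (Y e)) * (Y f * conj (X f)) - (Y e * conj (X e)) * (X f * conj (Y f)) := by
      intro e f
      have h2 : ((‖br (X e, Y e) (X f, Y f)‖ : ℝ) : ℂ) ^ 2 =
          br (X e, Y e) (X f, Y f) * conj (br (X e, Y e) (X f, Y f)) := by
        rw [Complex.mul_conj, Complex.normSq_eq_norm_sq]
        push_cast
        rfl
      rw [h2]
      simp only [br, map_sub, map_mul]
      ring
    simp_rw [h1, sum_sub_distrib, sum_add_distrib, ← mul_sum, ← sum_mul]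
    ring
  have h3 : ∑ e, Y e * conj (X e) = ∑ e, X e * conj (Y e) := by
    have h1 := hreal Y X hY hX
    have h2 := hreal X Y hX hY
    rw [h1, h2]
    congr 1
    refine sum_congr rfl fun e _ => ?_
    rw [← Complex.conj_re, map_mul, Complex.conj_conj, mul_comm]
  rw [h3, hreal X X hX hX, hreal Y Y hY hY, hreal X Y hX hY] at key
  have h4 : ((2 * ((∑ e, (X e * conj (X e)).re) * (∑ e, (Y e * conj (Y e)).re) -
      (∑ e, (X e * conj (Y e)).re) ^ 2) : ℝ) : ℂ) =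
      ((∑ e, ∑ f, ‖br (X e, Y e) (X f, Y f)‖ ^ 2 : ℝ) : ℂ) := by
    rw [key]
    push_cast
    ring
  exact_mod_cast h4

/-- complex conjugation on the homomorphisms -/
def cjE : Em K ≃ Em K where
  toFun e := ⟨e.1, ComplexEmbedding.conjugate e.2⟩
  invFun e := ⟨e.1, ComplexEmbedding.conjugate e.2⟩
  left_inv e := by
    rcases e with ⟨i, σ⟩
    simp
  right_inv e := by
    rcases e with ⟨i, σ⟩
    simp

theorem lagrangeA (b : Bs K) (u : Ix K ⊕ Ix K → ℝ) :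
    2 * (bfA b (lf u) (lf u) * bfA b (rt u) (rt u) - bfA b (lf u) (rt u) ^ 2) =
      ∑ e : Em K, ∑ f : Em K, ‖br (rw2 b u e) (rw2 b u f)‖ ^ 2 := by
  have h := lagrangeD_aux (cjE (K := K)) (fun e => (rw2 b u e).1) (fun e => (rw2 b u e).2)
    (fun e => congrArg Prod.fst (SYM_rw2 b u e.1 e.2))
    (fun e => congrArg Prod.snd (SYM_rw2 b u e.1 e.2))
  rw [Fintype.sum_sigma, Fintype.sum_sigma, Fintype.sum_sigma] at h
  exact h

theorem prod_expE (y : s → ℝ) : ∏ e : Em K, ‖((Real.exp (-(y e.1)) : ℝ) : ℂ)‖ ^ 2 =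
    (tt (K := K) y)⁻¹ := by
  rw [Fintype.prod_sigma]
  have h1 : ∀ i, ∏ σ : K i →+* ℂ, ‖((Real.exp (-(y i)) : ℝ) : ℂ)‖ ^ 2 =
      Real.exp (-(2 * ((finrank ℚ (K i) : ℝ) * y i))) := by
    intro i
    rw [prod_const, card_univ, Pool.Agent.Y714.KF.card_emb, Complex.norm_real, Real.norm_eq_abs,
      abs_of_pos (Real.exp_pos _), ← Real.exp_nat_mul, ← Real.exp_nat_mul]
    congr 1
    push_cast
    ring
  simp only [h1]
  rw [← Real.exp_sum, tt, ← Real.exp_neg, mul_sum, sum_neg_distrib]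

theorem pm_rw2_scl (b : Bs K) (y : s → ℝ) (z : Ix K ⊕ Ix K → ℤ) (hz : 0 < pm (vc (pr b z))) :
    pm (rw2 b (scl y z)) = pm (vc (pr b z)) / tt (K := K) y := by
  rw [rw2_scl, Pool.Agent.Y714.KF.pm_smul
    (fun e : Em K => ((Real.exp (-(y e.1)) : ℝ) : ℂ)) (vc (pr b z)), prod_expE]
  rw [div_eq_inv_mul]

theorem cc_rw2_scl (hodd : Odd (dg K)) (b : Bs K) (y : s → ℝ) (z : Ix K ⊕ Ix K → ℤ)
    (hz : 0 < pm (vc (pr b z))) : cc (rw2 b (scl y z)) = cc (vc (pr b z)) := by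
  rw [rw2_scl]
  exact (sca (vc (pr b z)) hz (pm_ext_pos hodd hz) (fun i => Real.exp (-(y i)))
    (fun i => Real.exp_pos _)).1

theorem ui_rw2_scl (hodd : Odd (dg K)) (b : Bs K) (y : s → ℝ) (z : Ix K ⊕ Ix K → ℤ)
    (hz : 0 < pm (vc (pr b z))) (i : s) : ui (rw2 b (scl y z)) i = ui (vc (pr b z)) i - y i := by
  rw [rw2_scl]
  have h := (sca (vc (pr b z)) hz (pm_ext_pos hodd hz) (fun i => Real.exp (-(y i)))
    (fun i => Real.exp_pos _)).2.1 i
  rw [Real.log_exp] at h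
  rw [h]
  ring

end Pool.Agent.Y714.KE
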