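import Pool.Agent.Y714.KE.BasC
import Pool.Agent.Y714.KE.BasD

/-! Etale algebras: all basic lemmas. -/
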