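import Pool.Agent.Y714.KE.Defs

set_option autoImplicit false
set_option linter.unusedSectionVars false
set_option linter.unusedVariables false

/-! The statements of the jobs of project KE (etale algebras). -/

namespace Pool.Agent.Y714.KE

open Pool.Agent.Y714.KF (FI sp ct nm pm ext br gl ubas qf bk el sg bf)
open NumberField FractionalIdeal Module Finset ComplexConjugate MeasureTheory Filter Topology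
open scoped nonZeroDivisors

section

/-! ### Mathlib only -/

/-- BOX -/
def S_BOX : Prop := ∀ (ι : Type) [Fintype ι] (R : ℝ), 0 < R → ∃ C : ℝ, 0 < C ∧
  ∀ (p : ℕ), 1 ≤ p → ∀ Y : ι → ℝ, (∀ i, (p : ℝ) ≤ Y i) → ∀ T : Set (ι → ZMod p),
    {z : ι → ℤ | (∀ i, |(z i : ℝ)| ≤ R * Y i) ∧ (fun i => (z i : ZMod p)) ∈ T}.Finite ∧
    ({z : ι → ℤ | (∀ i, |(z i : ℝ)| ≤ R * Y i) ∧ (fun i => (z i : ZMod p)) ∈ T}.ncard : ℝ) ≤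
      C * T.ncard * ∏ i, (Y i / p)

/-- LPC -/
def S_LPC : Prop := ∀ (ι : Type) [Fintype ι] (D : Set (ι → ℝ)), Bornology.IsBounded D →
  MeasurableSet D → volume (frontier D) = 0 → ∀ q : ℕ, 0 < q → ∀ T : Set (ι → ZMod q),
  ∀ η : ℝ, 0 < η → ∃ L : ℝ, 0 < L ∧ ∀ Y : ι → ℝ, (∀ i, L ≤ Y i) →
    |({z : ι → ℤ | (fun i => (z i : ZMod q)) ∈ T ∧ (fun i => (z i : ℝ) / Y i) ∈ D}.ncard : ℝ) /
      ∏ i, Y i - volume.real D * T.ncard / (q : ℝ) ^ Fintype.card ι| ≤ η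

/-- ELM: `Ys` is the set of the admissible scales -/
def S_ELM : Prop := ∀ (ι : Type) [Fintype ι] (D : Set (ι → ℝ)) (Ψ : (ι → ℝ) → ℝ) (m M c : ℝ),
  Bornology.IsBounded D → IsOpen D → volume (frontier D) = 0 → ContinuousOn Ψ D →
  (∀ u ∈ D, 0 < Ψ u) → (∀ c : ℝ, 0 < c → volume {u ∈ D | Ψ u = c} = 0) → 0 < m → 0 < c →
  ∀ η : ℝ, 0 < η → ∃ ε : ℝ, 0 < ε ∧ ∀ (q : ℕ), 0 < q → ∀ (U : Set (ι → ZMod q))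
    (G : (ι → ℤ) → Prop) (f : (ι → ℤ) → ℝ) (Ys : Set (ι → ℝ)),
    (∀ Y ∈ Ys, ∀ z : ι → ℤ, (∀ i, 0 < Y i) → (fun i => (z i : ZMod q)) ∈ U →
      (fun i => (z i : ℝ) / Y i) ∈ D → G z) →
    (∀ z, G z → (fun i => (z i : ZMod q)) ∈ U → m ≤ f z ∧ f z ≤ M) →
    (∀ z z', G z → G z' → (fun i => (z i : ZMod q)) ∈ U →
      (∀ i, (z i : ZMod q) = (z' i : ZMod q)) → |f z - f z'| ≤ ε) →
    ∃ ℓ L : ℝ, 0 < L ∧ ∀ Y ∈ Ys, (∀ i, L ≤ Y i) →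
      |({z : ι → ℤ | (fun i => (z i : ZMod q)) ∈ U ∧ (fun i => (z i : ℝ) / Y i) ∈ D ∧
        Ψ (fun i => (z i : ℝ) / Y i) * f z ≤ c}.ncard : ℝ) / ∏ i, Y i - ℓ| ≤ η

/-- the vector of the cell with the given integral coordinates -/
noncomputable def yy {s : Type} [Fintype s] [DecidableEq s] (w : s → ℝ) (i₀ : s) (k : s → ℤ)
    (t : ℝ) : s → ℝ := fun i =>
  if i = i₀ then ((1 / 2) * Real.log t - ∑ j ∈ univ.erase i₀, w j * k j) / w i₀ else (k i : ℝ)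

/-- ABS: summation over the cells `k` with `k i₀ = 0` whose vectors `yy w i₀ k t` lie in a
polyhedron (given by the linear forms `a l`) -/
def S_ABS : Prop := ∀ (s m : Type) [Fintype s] [DecidableEq s] [Fintype m] (i₀ : s) (w : s → ℝ)
    (a : m → s → ℝ), (∀ i, 0 < w i) →
  (∃ R : ℝ, ∀ y : s → ℝ, ∑ i, w i * y i = 1 / 2 → (∀ l, 0 ≤ ∑ i, a l i * y i) → ∀ i, |y i| ≤ R) →
  (∃ y : s → ℝ, ∑ i, w i * y i = 1 / 2 ∧ ∀ l, 0 < ∑ i, a l i * y i) →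
  ∃ V : ℝ, 0 < V ∧ ∀ (F : (s → ℤ) → ℝ → ℝ) (C : ℝ),
    (∀ k t, 0 ≤ F k t) → (∀ k t, 1 ≤ t → F k t ≤ C * t) →
    (∀ k t, 1 ≤ t → F k t ≠ 0 → ∀ l, -C ≤ ∑ i, a l i * yy w i₀ k t i) →
    (∀ η : ℝ, 0 < η → ∃ ℓ : ℝ, ∀ ε : ℝ, 0 < ε → ∃ t₀ : ℝ, ∀ t, t₀ ≤ t → ∀ k, k i₀ = 0 →
      (∀ l, ε * Real.log t ≤ ∑ i, a l i * yy w i₀ k t i) → |F k t / t - ℓ| ≤ η) →
    ∃ c : ℝ, 0 ≤ c ∧
      (∀ η ℓ : ℝ, 0 < η → (∀ ε : ℝ, 0 < ε → ∃ t₀ : ℝ, ∀ t, t₀ ≤ t → ∀ k, k i₀ = 0 →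
        (∀ l, ε * Real.log t ≤ ∑ i, a l i * yy w i₀ k t i) → |F k t / t - ℓ| ≤ η) →
          |c - ℓ| ≤ η) ∧
      Tendsto (fun t : ℝ => (∑ᶠ k ∈ {k : s → ℤ | k i₀ = 0}, F k t) /
        (t * Real.log t ^ (Fintype.card s - 1))) atTop (𝓝 (c * V))

/-! ### ideals and lattices -/

variable {s : Type} [Fintype s] [DecidableEq s] (K : s → Type) [∀ i, Field (K i)]
  [∀ i, NumberField (K i)]

/-- UNI -/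
def S_UNI : Prop := ∀ P P' : Al K × Al K, IN P → IN P' → RD P → RD P' →
  (∃ a b c d : ℚ, P' = glq a b c d P) → ∃ r : ℚ, r ≠ 0 ∧ LT P' = LT (r • P)

/-- NB -/
def S_NB : Prop := ∀ (p : ℕ), p.Prime → ∀ P : Al K × Al K, IN P → ¬ RDAt p P →
  ∃ o : Option (Fin p), (p : ℚ) ^ dg K * nA (cn P) ^ 2 ≤ nA (cn (nb p o P)) ^ 2

/-- DIV -/
def S_DIV : Prop := ∀ (p : ℕ), p.Prime → ∀ I : FU K,
  {J : FA K | ∀ i, sp (p : K i) * (I i : FI (K i)) ≤ J i ∧ J i ≤ I i}.Finite ∧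
  {J : FA K | ∀ i, sp (p : K i) * (I i : FI (K i)) ≤ J i ∧ J i ≤ I i}.ncard ≤ 2 ^ dg K

/-- CNT -/
def S_CNT : Prop := ∀ (p : ℕ), p.Prime → ∀ (I : FU K) (b : Bs K), IsB I b →
  ∀ (J : FA K) (m : ℕ), (∀ i, sp (p : K i) * (I i : FI (K i)) ≤ J i) → (∀ i, J i ≤ I i) →
  nA J = (p : ℚ) ^ m * nA (cf I) →
  {t : Ix K → ZMod p | ∃ z : Ix K → ℤ, (fun j => (z j : ZMod p)) = t ∧
    ∀ i, el (b i) (fun j => z ⟨i, j⟩) ∈ J i}.ncard * p ^ m = p ^ dg K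

/-- CLS -/
def S_CLS : Prop := ∃ R : Finset (FU K),
  (∀ I : FU K, ∃ r ∈ R, ∃ x : Al K, ∀ i, x i ≠ 0 ∧
    (I i : FI (K i)) = sp (x i) * (r i : FI (K i))) ∧
  (∀ r ∈ R, ∀ r' ∈ R, ∀ x : Al K, (∀ i, x i ≠ 0 ∧
    (r i : FI (K i)) = sp (x i) * (r' i : FI (K i))) → r = r')

/-- LOC -/
def S_LOC : Prop := Odd (dg K) → ∀ (I : FU K) (P : Al K × Al K), IN P → (∀ i, P.1 i ≠ 0 ∨ P.2 i ≠ 0) →
  (∀ i, cn P i ≤ I i) → ((∀ p : ℕ, p.Prime → Loc p (cf I) (LT P)) ↔ cn P = cf I ∧ RD P)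

/-- BAS -/
def S_BAS : Prop := ∀ p : ℕ, p.Prime → ∀ (m : ℕ) (I : FU K) (P : Al K × Al K), IN P →
  (∀ i, cn P i ≤ I i) → Rf p m (cf I) (LT P) → ∃ x y : Al K, LT (x, y) = LT P ∧
    nA (fun i => sp (p : K i) * (I i : FI (K i)) + sp (x i)) = (p : ℚ) ^ m * nA (cf I)

/-- SUP -/
def S_SUP : Prop := ∀ p : ℕ, p.Prime → ∀ M₁ : Submodule ℤ (Al K),
  {M : Submodule ℤ (Al K) | ∃ x y : Al K, IN (x, y) ∧ M = LT (x, y) ∧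
    LT (x, (p : ℤ) • y) = M₁}.Finite ∧
  {M : Submodule ℤ (Al K) | ∃ x y : Al K, IN (x, y) ∧ M = LT (x, y) ∧
    LT (x, (p : ℤ) • y) = M₁}.ncard ≤ p + 1

/-- SUPI -/
def S_SUPI : Prop := ∀ p : ℕ, p.Prime → ∀ (I : FU K) (x y x' y' : Al K), IN (x, y) →
  IN (x', y') → (∀ i, cn (x, y) i ≤ I i) → (∀ i, cn (x', y') i ≤ I i) →
  LT (x, (p : ℤ) • y) = LT (x', (p : ℤ) • y') →
  (∃ i, sp (p : K i) * (I i : FI (K i)) + sp (x i) ≠ sp (p : K i) * (I i : FI (K i))) →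
  LT (x, y) = LT (x', y')

/-- IDX -/
def S_IDX : Prop := ∀ I : FU K, ∃ c : ℝ, 0 < c ∧ ∀ P : Al K × Al K, (∀ i, cn P i ≤ I i) → ND P →
  ∃ D : ℕ, D ≠ 0 ∧
    ∏ q ∈ (univ : Finset (Em K)).offDiag, ‖br (vc P q.1) (vc P q.2)‖ = (c * D) ^ 2 ∧
    ∀ x : Al K, (∀ i, x i ∈ (I i : FI (K i)) ^ (dg K - 1)) → ∃ w : Fin (dg K) → ℤ,
      (D : ℤ) • x = ∑ k, w k • (P.1 ^ (k : ℕ) * P.2 ^ (dg K - 1 - (k : ℕ)))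

/-- PDI -/
def S_PDI : Prop := ∀ p : ℕ, p.Prime → 2 ≤ dg K → ∀ (P : Al K × Al K) (J : FU K),
  (∀ i, cn P i ≤ J i) → (p : ℚ) ^ 2 * nA (cf J) ≤
    nA (fun i => sp (p : K i) * (J i : FI (K i)) + sp (P.2 i)) →
  ∀ D : ℕ, (∀ x : Al K, (∀ i, x i ∈ (J i : FI (K i)) ^ (dg K - 1)) → ∃ w : Fin (dg K) → ℤ,
      (D : ℤ) • x = ∑ k, w k • (P.1 ^ (k : ℕ) * P.2 ^ (dg K - 1 - (k : ℕ)))) → p ∣ D

/-- HB -/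
def S_HB : Prop := Odd (dg K) → 3 ≤ dg K → ∃ c : ℝ, 0 < c ∧ ∀ P : Al K × Al K, ND P →
  c * ((nA (cn P) : ℚ) : ℝ) ^ 2 ≤ pm (vc P)

/-- DESC -/
def S_DESC : Prop := Odd (dg K) → 3 ≤ dg K → ∀ P : Al K × Al K, ND P → ∃ Q : Al K × Al K,
  RD Q ∧ (∃ a b c d : ℚ, a * d - b * c ≠ 0 ∧ Q = glq a b c d P) ∧
  pm (vc Q) * ((nA (cn P) : ℚ) : ℝ) ^ 2 ≤ pm (vc P) * ((nA (cn Q) : ℚ) : ℝ) ^ 2

/-! ### archimedean invariants -/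

/-- UNT: units -/
def S_UNT : Prop := ∀ v : Em K → ℂ × ℂ, 0 < pm v → (∀ e, 0 < pm (ext v e)) →
  (∀ κ : Ux K → ℝ, ∃ u : ∀ i, (𝓞 (K i))ˣ, NZ κ (fun e => e.2 (un u e.1) • v e)) ∧
  (∀ u : ∀ i, (𝓞 (K i))ˣ, pm (fun e => e.2 (un u e.1) • v e) = pm v ∧
    ∀ i, ui (fun e => e.2 (un u e.1) • v e) i = ui v i) ∧
  (∀ (κ : Ux K → ℝ) (u : ∀ i, (𝓞 (K i))ˣ), NZ κ v → NZ κ (fun e => e.2 (un u e.1) • v e) →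
    ∀ i, u i ∈ Units.torsion (K i)) ∧
  (∀ u : ∀ i, (𝓞 (K i))ˣ, (∀ i, u i ∈ Units.torsion (K i)) →
    cc (fun e => e.2 (un u e.1) • v e) = cc v)

/-- GLA: matrices -/
def S_GLA : Prop := ∀ v : Em K → ℂ × ℂ, 0 < pm v → (∀ e, 0 < pm (ext v e)) →
  ∀ a b c d : ℂ, a * d - b * c ≠ 0 → cc (fun e => gl a b c d (v e)) = cc v ∧
    ∀ i, ui (fun e => gl a b c d (v e)) i = ui v i + (1 / 2) * Real.log ‖a * d - b * c‖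

/-- SCA: scaling of the components -/
def S_SCA : Prop := ∀ v : Em K → ℂ × ℂ, 0 < pm v → (∀ e, 0 < pm (ext v e)) →
  ∀ a : s → ℝ, (∀ i, 0 < a i) → cc (fun e => (a e.1 : ℂ) • v e) = cc v ∧
    (∀ i, ui (fun e => (a e.1 : ℂ) • v e) i = ui v i + Real.log (a i)) ∧
    pm (fun e => (a e.1 : ℂ) • v e) = (∏ i, a i ^ (2 * finrank ℚ (K i))) * pm v

/-- SUU: the sum of the sizes -/
def S_SUU : Prop := 0 < dg K → ∀ v : Em K → ℂ × ℂ,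
  ∑ i, (finrank ℚ (K i) : ℝ) * ui v i = (1 / 2) * Real.log (pm v)

/-- BRB: brackets are bounded by the sizes -/
def S_BRB : Prop := Odd (dg K) → ∀ C : ℝ, ∃ C' : ℝ, 0 < C' ∧ ∀ v : Em K → ℂ × ℂ, SYM v →
  0 < pm v → (∀ j, |cc v j| ≤ C) → ∀ e f, ‖br (v e) (v f)‖ ≤ C' * Real.exp (ui v e.1 + ui v f.1)

/-! ### crude bounds -/

/-- T1: lattices with a short vector in a cell -/
def S_T1 : Prop := Odd (dg K) → 3 ≤ dg K → ∀ (κ : Ux K → ℝ) (i₀ : s) (I : FU K),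
  ∃ C : ℝ, 0 < C ∧ ∀ y : s → ℝ,
    ((SY κ i₀ (cf I) y).Finite ∧ ((SY κ i₀ (cf I) y).ncard : ℝ) ≤ C * tt (K := K) y) ∧
    ∀ ρ : ℝ, 0 < ρ → ({M ∈ SY κ i₀ (cf I) y | ∃ x ∈ M, x ≠ 0 ∧ QY y x ≤ ρ ^ 2}.ncard : ℝ) ≤
      C * (ρ ^ 2 + ∑ j ∈ univ.filter (fun j => finrank ℚ (K j) = 1),
        min 1 (ρ * Real.exp (-(y j)))) * tt (K := K) y

/-- CEL: nonempty cells -/
def S_CEL : Prop := Odd (dg K) → 3 ≤ dg K → ∀ (κ : Ux K → ℝ) (i₀ : s) (I : FU K),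
  ∃ C : ℝ, 0 < C ∧ ∀ y : s → ℝ, (SY κ i₀ (cf I) y).Nonempty →
    ∃ j, (2 ≤ finrank ℚ (K j) → -C ≤ y j) ∧ ∀ i, i ≠ j → -C ≤ y i ∧ -C ≤ y i + y j

/-- PAR: partition into cells -/
def S_PAR : Prop := Odd (dg K) → 3 ≤ dg K → ∀ (κ : Ux K → ℝ) (i₀ : s) (I : FA K) (t : ℝ), 0 < t →
  (SA κ I t).Finite → ∀ Pr : Submodule ℤ (Al K) → Prop,
    ({M ∈ SA κ I t | Pr M}.ncard : ℝ) = ∑ᶠ k ∈ {k : s → ℤ | k i₀ = 0},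
      ({M ∈ SY κ i₀ I (yy (fun i => (finrank ℚ (K i) : ℝ)) i₀ k t) | Pr M}.ncard : ℝ)

/-- CR: the crude bound, uniform in the ideal -/
def S_CR : Prop := Odd (dg K) → 3 ≤ dg K → ∀ κ : Ux K → ℝ, ∃ C : ℝ, 0 < C ∧
  ∀ (I : FU K) (t : ℝ), 0 < t → (SA κ (cf I) t).Finite ∧
    ((SA κ (cf I) t).ncard : ℝ) ≤ C * (t / ((nA (cf I) : ℚ) : ℝ) ^ 2) *
      (1 + Real.log (1 + t / ((nA (cf I) : ℚ) : ℝ) ^ 2)) ^ (Fintype.card s - 1)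

/-- CF: content failure -/
def S_CF : Prop := Odd (dg K) → 3 ≤ dg K → ∀ κ : Ux K → ℝ, ∃ C : ℝ, 0 < C ∧
  ∀ (I : FU K) (t X : ℝ), 0 < t → 1 ≤ X →
    ({M ∈ SA κ (cf I) t | ∃ p : ℕ, p.Prime ∧ X < p ∧ Cf p (cf I) M}.ncard : ℝ) ≤
      C * (t / ((nA (cf I) : ℚ) : ℝ) ^ 2) *
      (1 + Real.log (1 + t / ((nA (cf I) : ℚ) : ℝ) ^ 2)) ^ (Fintype.card s - 1) / X

/-- RF1 -/
def S_RF1 : Prop := Odd (dg K) → 3 ≤ dg K → ∀ κ : Ux K → ℝ, ∃ C : ℝ, 0 < C ∧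
  ∀ (I : FU K) (t X : ℝ), 0 < t → 1 ≤ X →
    ({M ∈ SA κ (cf I) t | ∃ p : ℕ, p.Prime ∧ X < p ∧ ∃ m ≤ dg K, dg K + 3 ≤ 2 * m ∧
      Rf p m (cf I) M}.ncard : ℝ) ≤ C * (t / ((nA (cf I) : ℚ) : ℝ) ^ 2) *
      (1 + Real.log (1 + t / ((nA (cf I) : ℚ) : ℝ) ^ 2)) ^ (Fintype.card s - 1) / X

/-- RF2 -/
def S_RF2 : Prop := Odd (dg K) → 5 ≤ dg K → ∀ (κ : Ux K → ℝ) (I : FU K), ∃ C : ℝ, 0 < C ∧
  ∀ (t X : ℝ), 1 ≤ t → 1 ≤ X →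
    ({M ∈ SA κ (cf I) t | ∃ p : ℕ, p.Prime ∧ X < p ∧ ∃ m, 2 * m = dg K + 1 ∧
      Rf p m (cf I) M}.ncard : ℝ) ≤ C * t * (1 + Real.log t) ^ Fintype.card s / X

/-- LR -/
def S_LR : Prop := Odd (dg K) → 5 ≤ dg K → ∀ (I : FU K) (b : Bs K), IsB I b →
  ∃ C : ℝ, 0 < C ∧ ∀ p : ℕ, p.Prime → ∃ T : Set (Ix K ⊕ Ix K → ZMod p),
    (∀ z : Ix K ⊕ Ix K → ℤ, IN (pr b z) →
      (Loc p (cf I) (LT (pr b z)) ↔ (fun i => (z i : ZMod p)) ∈ T)) ∧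
    (Tᶜ.ncard : ℝ) ≤ C * (p : ℝ) ^ (2 * dg K - 2)

/-- MID -/
def S_MID : Prop := Odd (dg K) → 5 ≤ dg K → ∀ (κ : Ux K → ℝ) (i₀ : s) (I : FU K) (δ : ℝ), 0 < δ →
  ∃ C : ℝ, 0 < C ∧ ∀ (P₀ X : ℝ) (y : s → ℝ), 1 ≤ P₀ → (∀ i, X ≤ Real.exp (y i)) →
    ({M ∈ SY κ i₀ (cf I) y | (∀ x ∈ M, x ≠ 0 → δ ^ 2 < QY y x) ∧
      ∃ p : ℕ, p.Prime ∧ P₀ < p ∧ (p : ℝ) ≤ X ∧ ¬ Loc p (cf I) M}.ncard : ℝ) ≤
      C * tt (K := K) y / P₀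

/-! ### regions -/

/-- CCC -/
def S_CCC : Prop := Odd (dg K) → 3 ≤ dg K → ∀ b : Bs K,
  (∀ j, ContinuousOn (fun u => cc (rw2 b u) j)
    {u | ∀ e f : Em K, e ≠ f → br (rw2 b u e) (rw2 b u f) ≠ 0}) ∧
  (∀ i, ContinuousOn (fun u => ui (rw2 b u) i)
    {u | ∀ e f : Em K, e ≠ f → br (rw2 b u e) (rw2 b u f) ≠ 0})

/-- OPB -/
def S_OPB : Prop := Odd (dg K) → 3 ≤ dg K → ∀ (b : Bs K) (κ : Ux K → ℝ) (i₀ : s) (δ : ℝ), 0 < δ →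
    IsOpen (Dm b κ i₀ δ) ∧ Bornology.IsBounded (Dc b κ i₀ δ)

/-- BRN -/
def S_BRN : Prop := ∀ (b : Bs K) (e f : Em K), e ≠ f →
  volume {u : Ix K ⊕ Ix K → ℝ | br (rw2 b u e) (rw2 b u f) = 0} = 0

/-- NUL -/
def S_NUL : Prop := Odd (dg K) → 3 ≤ dg K → ∀ (b : Bs K) (i₀ : s), ∃ Z : Ux K → Set ℝ,
  (∀ j, (Z j).Countable) ∧ ∀ κ : Ux K → ℝ, (∀ j, κ j ∉ Z j) →
    ∀ δ : ℝ, 0 < δ → volume (closure (Dc b κ i₀ δ) \ Dm b κ i₀ δ) = 0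

/-- VOL -/
def S_VOL : Prop := Odd (dg K) → 3 ≤ dg K → ∀ (b : Bs K) (κ : Ux K → ℝ) (i₀ : s),
  (∀ δ : ℝ, 0 < δ → volume (closure (Dc b κ i₀ δ) \ Dm b κ i₀ δ) = 0) →
    ∃ δ : ℝ, 0 < δ ∧ 0 < volume (Dm b κ i₀ δ)

/-! ### counting -/

/-- RBC -/
def S_RBC : Prop := Odd (dg K) → 3 ≤ dg K → ∀ (I : FU K) (b : Bs K), IsB I b →
  ∀ (κ : Ux K → ℝ) (i₀ : s) (δ : ℝ), 0 < δ → ∀ (y : s → ℝ) (Pr : Submodule ℤ (Al K) → Prop),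
    |2 * ({M ∈ SY κ i₀ (cf I) y | Pr M}.ncard : ℝ) -
      ({z : Ix K ⊕ Ix K → ℤ | scl y z ∈ Dm b κ i₀ δ ∧ Pr (LT (pr b z))}.ncard : ℝ)| ≤
    2 * ({M ∈ SY κ i₀ (cf I) y | ∃ x ∈ M, x ≠ 0 ∧ QY y x ≤ δ ^ 2}.ncard : ℝ) +
    2 * ({z : Ix K ⊕ Ix K → ℤ | scl y z ∈ Dc b κ i₀ δ \ Dm b κ i₀ δ}.ncard : ℝ)

/-- HT -/
def S_HT : Prop := Odd (dg K) → 3 ≤ dg K →
  (∀ P : Al K × Al K, ND P → RD P → ht P = hp P) ∧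
  (∀ P P' : Al K × Al K, ND P → Eq2 P P' → ND P' ∧ ht P' = ht P)

/-- BIJ -/
def S_BIJ : Prop := Odd (dg K) → 3 ≤ dg K → ∀ R : Finset (FU K),
  (∀ I : FU K, ∃ r ∈ R, ∃ x : Al K, ∀ i, x i ≠ 0 ∧
    (I i : FI (K i)) = sp (x i) * (r i : FI (K i))) →
  (∀ r ∈ R, ∀ r' ∈ R, ∀ x : Al K, (∀ i, x i ≠ 0 ∧
    (r i : FI (K i)) = sp (x i) * (r' i : FI (K i))) → r = r') →
  ∀ (κ : FU K → Ux K → ℝ) (B : ℝ), 0 < B → ∀ Q : Al K × Al K → Prop,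
  (∀ P P' : Al K × Al K, ND P → Eq2 P P' → (Q P ↔ Q P')) →
    (∏ i, Nat.card (Units.torsion (K i))) *
      {C : Set (Al K × Al K) | ∃ P, ND P ∧ C = {P' | Eq2 P P'} ∧ ht P ≤ B ∧ Q P}.ncard =
    2 * ∑ r ∈ R, {M ∈ SA (κ r) (cf r) (B * ((nA (cf r) : ℚ) : ℝ) ^ 2) |
      (∀ p : ℕ, p.Prime → Loc p (cf r) M) ∧ ∃ P : Al K × Al K, M = LT P ∧ Q P}.ncard

/-- PAD -/
def S_PAD : Prop := Odd (dg K) → 3 ≤ dg K → ∀ (p : ℕ), p.Prime → ∀ φ : Al K × Al K → ℝ,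
  PFac p φ → ∀ (I : FU K) (b : Bs K), IsB I b → ∀ ε : ℝ, 0 < ε → ∃ k : ℕ,
    ∀ z z' : Ix K ⊕ Ix K → ℤ, ND (pr b z) → ND (pr b z') → Loc p (cf I) (LT (pr b z)) →
    Loc p (cf I) (LT (pr b z')) → (∀ i, ((p : ℤ) ^ k) ∣ z i - z' i) →
    |φ (pr b z) - φ (pr b z')| ≤ ε

/-- LEV -/
def S_LEV : Prop := Odd (dg K) → 3 ≤ dg K → ∀ ψ : (Em K → ℂ × ℂ) → ℝ, RFac ψ → ∀ (b : Bs K),
    ContinuousOn (fun u => pm (rw2 b u) * ψ (rw2 b u)) {u | 0 < pm (rw2 b u)} ∧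
    ∀ c : ℝ, 0 < c → volume {u : Ix K ⊕ Ix K → ℝ |
      0 < pm (rw2 b u) ∧ pm (rw2 b u) * ψ (rw2 b u) = c} = 0

end

end Pool.Agent.Y714.KE
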