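import Pool.Agent.Y714.KE.Stm

set_option autoImplicit false
set_option linter.unusedSectionVars false
set_option linter.unusedVariables false

/-! Etale algebras with factors `ℚ`: definitions and statements for the cusp cells. -/

namespace Pool.Agent.Y714.KE

open Pool.Agent.Y714.KF (FI sp ct nm pm ext br gl ubas qf bk el sg bf)
open NumberField FractionalIdeal Module Finset ComplexConjugate MeasureTheory Filter Topology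
open scoped nonZeroDivisors

section

variable {s : Type} [Fintype s] [DecidableEq s] (K : s → Type) [∀ i, Field (K i)]
  [∀ i, NumberField (K i)]

/-- the indices of coordinates away from the component `j` -/
abbrev Jx (j : s) : Type := {k : Ix K ⊕ Ix K // cm k ≠ j}

variable {K}

/-- a vector of coordinates away from `j`, completed by `(0, 1)` at `j` -/
def sl {R : Type} [Zero R] [One R] (j : s) (x : Jx K j → R) : Ix K ⊕ Ix K → R := fun k =>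
  if h : cm k = j then Sum.elim (fun _ => 0) (fun _ => 1) k else x ⟨k, h⟩

/-- the scales in a cusp cell: `Y_i Y_j` for the left half, `Y_i / Y_j` for the right half -/
noncomputable def ysc (j : s) (y : s → ℝ) (k : Jx K j) : ℝ :=
  Real.exp (y (cm k.1) + Sum.elim (fun _ => y j) (fun _ => -(y j)) k.1)

/-- scaled integral coordinates in a cusp cell -/
noncomputable def scj (j : s) (y : s → ℝ) (z : Jx K j → ℤ) : Jx K j → ℝ :=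
  fun k => (z k : ℝ) / ysc j y k

/-- the open region of a cusp cell -/
def Dmj (b : Bs K) (κ : Ux K → ℝ) (i₀ j : s) (δ : ℝ) : Set (Jx K j → ℝ) :=
  {u | δ ^ 2 < bfA b (lf (sl j u)) (lf (sl j u)) ∧ 0 < bfA b (lf (sl j u)) (rt (sl j u)) ∧
    bfA b (lf (sl j u)) (rt (sl j u)) < bfA b (lf (sl j u)) (lf (sl j u)) ∧
    (∀ e f : Em K, e ≠ f → br (rw2 b (sl j u) e) (rw2 b (sl j u) f) ≠ 0) ∧
    pm (rw2 b (sl j u)) < 1 ∧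
    (∀ l, κ l < cc (rw2 b (sl j u)) l ∧ cc (rw2 b (sl j u)) l < κ l + 1) ∧
    ∀ i, i ≠ i₀ → 0 < ui (rw2 b (sl j u)) i ∧ ui (rw2 b (sl j u)) i < 1}

/-- the closed region of a cusp cell -/
def Dcj (b : Bs K) (κ : Ux K → ℝ) (i₀ j : s) (δ : ℝ) : Set (Jx K j → ℝ) :=
  {u | δ ^ 2 ≤ bfA b (lf (sl j u)) (lf (sl j u)) ∧ 0 ≤ bfA b (lf (sl j u)) (rt (sl j u)) ∧
    bfA b (lf (sl j u)) (rt (sl j u)) ≤ bfA b (lf (sl j u)) (lf (sl j u)) ∧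
    (∀ e f : Em K, e ≠ f → br (rw2 b (sl j u) e) (rw2 b (sl j u) f) ≠ 0) ∧
    pm (rw2 b (sl j u)) ≤ 1 ∧
    (∀ l, κ l ≤ cc (rw2 b (sl j u)) l ∧ cc (rw2 b (sl j u)) l ≤ κ l + 1) ∧
    ∀ i, i ≠ i₀ → 0 ≤ ui (rw2 b (sl j u)) i ∧ ui (rw2 b (sl j u)) i ≤ 1}

variable (K)

/-- OPJ -/
def S_OPJ : Prop := Odd (dg K) → 3 ≤ dg K → ∀ (b : Bs K) (κ : Ux K → ℝ) (i₀ j : s),
  finrank ℚ (K j) = 1 → ∀ δ : ℝ, 0 < δ →
    IsOpen (Dmj b κ i₀ j δ) ∧ Bornology.IsBounded (Dcj b κ i₀ j δ)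

/-- BRJ -/
def S_BRJ : Prop := ∀ (b : Bs K) (j : s), finrank ℚ (K j) = 1 → ∀ e f : Em K, e ≠ f →
  volume {u : Jx K j → ℝ | br (rw2 b (sl j u) e) (rw2 b (sl j u) f) = 0} = 0

/-- NUJ -/
def S_NUJ : Prop := Odd (dg K) → 3 ≤ dg K → ∀ (b : Bs K) (i₀ j : s), finrank ℚ (K j) = 1 →
  ∃ Z : Ux K → Set ℝ, (∀ l, (Z l).Countable) ∧ ∀ κ : Ux K → ℝ, (∀ l, κ l ∉ Z l) →
    ∀ δ : ℝ, 0 < δ → volume (closure (Dcj b κ i₀ j δ) \ Dmj b κ i₀ j δ) = 0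

/-- RBJ: counting the lattices of a cusp cell -/
def S_RBJ : Prop := Odd (dg K) → 3 ≤ dg K → ∀ (I : FU K) (b : Bs K), IsB I b →
  ∀ (κ : Ux K → ℝ) (i₀ j : s), finrank ℚ (K j) = 1 → ∀ δ : ℝ, 0 < δ → ∀ y : s → ℝ, y j ≤ 0 →
  ∀ Pr : Submodule ℤ (Al K) → Prop,
    |2 * Real.exp (-(2 * y j)) * ({M ∈ SY κ i₀ (cf I) y | Pr M}.ncard : ℝ) -
      ({z : Jx K j → ℤ | scj j y z ∈ Dmj b κ i₀ j δ ∧ Pr (LT (pr b (sl j z)))}.ncard : ℝ)| ≤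
    2 * Real.exp (-(2 * y j)) *
      (({M ∈ SY κ i₀ (cf I) y | ∃ x ∈ M, x ≠ 0 ∧
        QY y x ≤ δ ^ 2 * Real.exp (2 * y j)}.ncard : ℝ) +
      ({M ∈ SY κ i₀ (cf I) y | Pr M ∧ ∀ x ∈ M, ∀ l : Fin (finrank ℚ (K j)),
        x j ≠ b j l}.ncard : ℝ)) +
    2 * ((SY κ i₀ (cf I) y).ncard : ℝ) +
    ({z : Jx K j → ℤ | scj j y z ∈ Dcj b κ i₀ j δ \ Dmj b κ i₀ j δ}.ncard : ℝ)

/-- GEJ: lattices whose projection to the component `j` is small -/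
def S_GEJ : Prop := Odd (dg K) → 3 ≤ dg K → ∀ (I : FU K) (b : Bs K), IsB I b →
  ∀ (κ : Ux K → ℝ) (i₀ j : s), finrank ℚ (K j) = 1 → ∃ C : ℝ, 0 < C ∧ ∀ (y : s → ℝ) (N : ℝ),
  1 ≤ N → ∀ M ∈ SY κ i₀ (cf I) y, (∀ p : ℕ, p.Prime → (p : ℝ) ≤ N → Loc p (cf I) M) →
    (∀ x ∈ M, ∀ l : Fin (finrank ℚ (K j)), x j ≠ b j l) →
    ∃ x ∈ M, x ≠ 0 ∧ QY y x ≤ C * Real.exp (2 * y j) / N ^ 2

/-- LRJ -/
def S_LRJ : Prop := Odd (dg K) → 5 ≤ dg K → ∀ (I : FU K) (b : Bs K), IsB I b →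
  ∀ j : s, finrank ℚ (K j) = 1 →
  ∃ C : ℝ, 0 < C ∧ ∀ p : ℕ, p.Prime → ∃ T : Set (Jx K j → ZMod p),
    (∀ z : Jx K j → ℤ, IN (pr b (sl j z)) →
      (Loc p (cf I) (LT (pr b (sl j z))) ↔ (fun i => (z i : ZMod p)) ∈ T)) ∧
    (Tᶜ.ncard : ℝ) ≤ C * (p : ℝ) ^ (2 * dg K - 4)

/-- LEJ -/
def S_LEJ : Prop := Odd (dg K) → 3 ≤ dg K → ∀ ψ : (Em K → ℂ × ℂ) → ℝ, RFac ψ → ∀ (b : Bs K)
  (j : s), finrank ℚ (K j) = 1 → ∀ c : ℝ, 0 < c → volume {u : Jx K j → ℝ |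
      0 < pm (rw2 b (sl j u)) ∧ pm (rw2 b (sl j u)) * ψ (rw2 b (sl j u)) = c} = 0

/-- SCJ: the scaled coordinates in a cusp cell -/
def S_SCJ : Prop := Odd (dg K) → 3 ≤ dg K → ∀ (b : Bs K) (j : s), finrank ℚ (K j) = 1 →
  Continuous (sl (K := K) (R := ℝ) j) ∧
  Fintype.card (Jx K j) + 2 = 2 * dg K ∧
  (∀ y : s → ℝ, ∏ k, ysc (K := K) j y k = Real.exp (-(2 * y j)) * tt (K := K) y) ∧
  ∀ (y : s → ℝ) (z : Jx K j → ℤ),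
    (∀ e, rw2 b (sl j (scj j y z)) e = ((Real.exp (-(y e.1)) : ℝ) : ℂ) •
      gl ((Real.exp (-(y j)) : ℝ) : ℂ) 0 0 ((Real.exp (y j) : ℝ) : ℂ) (vc (pr b (sl j z)) e)) ∧
    (pr b (sl j z)).1 j = 0 ∧
    QY y (pr b (sl j z)).1 = Real.exp (2 * y j) *
      bfA b (lf (sl j (scj j y z))) (lf (sl j (scj j y z))) ∧
    BY y (pr b (sl j z)).1 (pr b (sl j z)).2 =
      bfA b (lf (sl j (scj j y z))) (rt (sl j (scj j y z))) ∧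
    (0 < pm (vc (pr b (sl j z))) →
      pm (rw2 b (sl j (scj j y z))) = pm (vc (pr b (sl j z))) / tt (K := K) y ∧
      cc (rw2 b (sl j (scj j y z))) = cc (vc (pr b (sl j z))) ∧
      ∀ i, ui (rw2 b (sl j (scj j y z))) i = ui (vc (pr b (sl j z))) i - y i)

end

end Pool.Agent.Y714.KE
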