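import Pool.Agent.Y714.KE.Stm

set_option autoImplicit false
set_option linter.unusedSectionVars false
set_option linter.unusedVariables false

/-! Etale algebras: basic lemmas U (sizes and units). -/

namespace Pool.Agent.Y714.KE

open Pool.Agent.Y714.KF (FI sp ct nm pm ext br gl ubas qf bk el sg bf card_emb ineqs pm_smul
  ext_smul pm_gl ext_gl pm_equiv pm_conj ext_some ext_none sum_log_unit exists_unit_repr
  ubas_repr_logEmbedding cj cj_apply)
open NumberField FractionalIdeal Module Finset ComplexConjugate MeasureTheory Filter Topology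
open NumberField.Units NumberField.Units.dirichletUnitTheorem NumberField.InfinitePlace
open scoped nonZeroDivisors

variable {s : Type} [Fintype s] [DecidableEq s] {K : s → Type} [∀ i, Field (K i)]
  [∀ i, NumberField (K i)]

theorem card_Em : Fintype.card (Em K) = dg K := by
  unfold dg
  rw [Fintype.card_sigma]
  exact sum_congr rfl fun i _ => card_emb

theorem pm_ext_pos (hodd : Odd (dg K)) {v : Em K → ℂ × ℂ} (hv : 0 < pm v) (e : Em K) :
    0 < pm (ext v e) := by
  obtain ⟨C, _, hC⟩ := ineqs (J := Em K) (by rw [card_Em]; exact hodd)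
  exact (hC v hv).1 e

/-! ### shifts -/

theorem finrank_ne (i : s) : (finrank ℚ (K i) : ℝ) ≠ 0 := by
  exact_mod_cast (finrank_pos (R := ℚ) (M := K i)).ne'

/-- the mean of a constant -/
theorem mean_const (i : s) (γ : ℝ) : (∑ σ : K i →+* ℂ, γ) / (finrank ℚ (K i) : ℝ) = γ := by
  rw [sum_const, card_univ, card_emb, nsmul_eq_mul, mul_comm, mul_div_assoc,
    div_self (finrank_ne i), mul_one]

theorem mL_shift {v w : Em K → ℂ × ℂ} {c : Em K → ℝ} (h : ∀ e, LG w e = LG v e + c e) (i : s) :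
    mL w i = mL v i + (∑ σ : K i →+* ℂ, c ⟨i, σ⟩) / finrank ℚ (K i) := by
  unfold mL
  simp_rw [h]
  rw [sum_add_distrib, add_div]

theorem ui_shift {v w : Em K → ℂ × ℂ} {c : Em K → ℝ} (h : ∀ e, LG w e = LG v e + c e)
    (hp : (1 / 2) * Real.log (pm w) = (1 / 2) * Real.log (pm v) + ∑ e, c e) (i : s) :
    ui w i = ui v i + (∑ σ : K i →+* ℂ, c ⟨i, σ⟩) / finrank ℚ (K i) := by
  unfold ui
  have h1 : ∑ e, LG w e = ∑ e, LG v e + ∑ e, c e := by
    simp_rw [h]
    rw [sum_add_distrib]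
  rw [mL_shift h, hp, h1]
  ring

/-- the logarithmic vector of a component -/
noncomputable def lv (v : Em K → ℂ × ℂ) (i : s) : logSpace (K i) :=
  fun w => (mult w.1 : ℝ) * (LG v ⟨i, w.1.embedding⟩ - mL v i)

theorem cc_eq (v : Em K → ℂ × ℂ) (j : Ux K) : cc v j = (ubas (K j.1)).repr (lv v j.1) j.2 := rfl

theorem cc_shift {v w : Em K → ℂ × ℂ} {γ : s → ℝ} (h : ∀ e, LG w e = LG v e + γ e.1) :
    cc w = cc v := by
  funext j
  have h1 : lv w j.1 = lv v j.1 := by
    funext x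
    unfold lv
    rw [mL_shift (c := fun e => γ e.1) h, h]
    simp only [mean_const]
    ring
  rw [cc_eq, cc_eq, h1]

theorem LG_smul {v : Em K → ℂ × ℂ} (hv : 0 < pm v) (hx : ∀ e, 0 < pm (ext v e)) (a : Em K → ℂ)
    (ha : ∀ e, a e ≠ 0) (e : Em K) : LG (fun e => a e • v e) e = LG v e + Real.log ‖a e‖ := by
  have hn : ∀ e, ‖a e‖ ^ 2 ≠ 0 := fun e => pow_ne_zero _ (norm_ne_zero_iff.2 (ha e))
  have hp : ∏ e, ‖a e‖ ^ 2 ≠ 0 := prod_ne_zero_iff.2 fun e _ => hn e
  unfold LG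
  rw [pm_smul a v, ext_smul a v e, Real.log_mul (mul_ne_zero (hn e) hp) (hx e).ne',
    Real.log_mul (hn e) hp, Real.log_mul hp hv.ne', Real.log_pow]
  push_cast
  ring

theorem log_pm_smul {v : Em K → ℂ × ℂ} (hv : 0 < pm v) (a : Em K → ℂ) (ha : ∀ e, a e ≠ 0) :
    (1 / 2) * Real.log (pm (fun e => a e • v e)) =
      (1 / 2) * Real.log (pm v) + ∑ e, Real.log ‖a e‖ := by
  have hn : ∀ e, ‖a e‖ ^ 2 ≠ 0 := fun e => pow_ne_zero _ (norm_ne_zero_iff.2 (ha e))
  have hp : ∏ e, ‖a e‖ ^ 2 ≠ 0 := prod_ne_zero_iff.2 fun e _ => hn e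
  rw [pm_smul a v, Real.log_mul hp hv.ne', Real.log_prod (fun e _ => hn e)]
  simp_rw [Real.log_pow]
  rw [← mul_sum]
  push_cast
  ring

theorem gla : S_GLA K := by
  intro v hv hx a b c d hdet
  have hd : ‖a * d - b * c‖ ≠ 0 := norm_ne_zero_iff.2 hdet
  have h : ∀ e, LG (fun e => gl a b c d (v e)) e =
      LG v e + (1 / 2) * Real.log ‖a * d - b * c‖ := by
    intro e
    unfold LG
    rw [pm_gl, ext_gl, Real.log_mul (pow_ne_zero _ hd) (hx e).ne',
      Real.log_mul (pow_ne_zero _ hd) hv.ne', Real.log_pow, Real.log_pow]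
    push_cast
    ring
  refine ⟨cc_shift (γ := fun _ => (1 / 2) * Real.log ‖a * d - b * c‖) h, fun i => ?_⟩
  rw [ui_shift (c := fun _ => (1 / 2) * Real.log ‖a * d - b * c‖) h ?_ i, mean_const]
  rw [pm_gl, Real.log_mul (pow_ne_zero _ hd) hv.ne', Real.log_pow, sum_const, card_univ,
    nsmul_eq_mul]
  ring

theorem sca : S_SCA K := by
  intro v hv hx a ha
  have ha' : ∀ e : Em K, (a e.1 : ℂ) ≠ 0 := fun e => by exact_mod_cast (ha e.1).ne'
  have hl : ∀ e : Em K, Real.log ‖(a e.1 : ℂ)‖ = Real.log (a e.1) := fun e => by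
    rw [Complex.norm_real, Real.norm_eq_abs, abs_of_pos (ha _)]
  have h : ∀ e, LG (fun e => (a e.1 : ℂ) • v e) e = LG v e + Real.log (a e.1) := by
    intro e
    rw [LG_smul hv hx (fun e => (a e.1 : ℂ)) ha' e, hl]
  refine ⟨cc_shift (γ := fun i => Real.log (a i)) h, fun i => ?_, ?_⟩
  · rw [ui_shift (c := fun e => Real.log (a e.1)) h ?_ i]
    · simp only [mean_const]
    rw [log_pm_smul hv (fun e => (a e.1 : ℂ)) ha']
    simp_rw [hl]
  · rw [pm_smul (fun e : Em K => (a e.1 : ℂ)) v]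
    congr 1
    rw [Fintype.prod_sigma]
    refine prod_congr rfl fun i _ => ?_
    simp only [Complex.norm_real, Real.norm_eq_abs, abs_of_pos (ha i)]
    rw [prod_const, card_univ, card_emb, ← pow_mul]

theorem finrank_mL (v : Em K → ℂ × ℂ) (i : s) :
    (finrank ℚ (K i) : ℝ) * mL v i = ∑ σ : K i →+* ℂ, LG v ⟨i, σ⟩ := by
  unfold mL
  rw [mul_comm, div_mul_cancel₀ _ (finrank_ne i)]

theorem sum_finrank : ∑ i, (finrank ℚ (K i) : ℝ) = dg K := by
  unfold dg
  push_cast
  rfl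

theorem suu : S_SUU K := by
  intro hd v
  have h3 : (dg K : ℝ) ≠ 0 := by exact_mod_cast hd.ne'
  unfold ui
  simp_rw [mul_add]
  rw [sum_add_distrib, ← sum_mul, sum_finrank]
  simp_rw [finrank_mL]
  rw [← Fintype.sum_sigma (fun e : Em K => LG v e), mul_div_cancel₀ _ h3]
  ring

/-! ### units -/

theorem un_ne (u : ∀ i, (𝓞 (K i))ˣ) (e : Em K) : e.2 (un u e.1) ≠ 0 :=
  (map_ne_zero e.2).2 (Units.coe_ne_zero (u e.1))

section

variable {v : Em K → ℂ × ℂ} (hv : 0 < pm v) (hx : ∀ e, 0 < pm (ext v e))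

include hv hx

theorem LG_unit (u : ∀ i, (𝓞 (K i))ˣ) (e : Em K) :
    LG (fun e => e.2 (un u e.1) • v e) e = LG v e + Real.log ‖e.2 (un u e.1)‖ :=
  LG_smul hv hx (fun e => e.2 (un u e.1)) (un_ne u) e

theorem sum_log_un (u : ∀ i, (𝓞 (K i))ˣ) (i : s) :
    ∑ σ : K i →+* ℂ, Real.log ‖σ (un u i)‖ = 0 := sum_log_unit (u i)

theorem mL_unit (u : ∀ i, (𝓞 (K i))ˣ) (i : s) :
    mL (fun e => e.2 (un u e.1) • v e) i = mL v i := by
  rw [mL_shift (c := fun e => Real.log ‖e.2 (un u e.1)‖) (LG_unit hv hx u)]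
  rw [sum_log_un hv hx u i, zero_div, add_zero]

theorem cc_unit (u : ∀ i, (𝓞 (K i))ˣ) (j : Ux K) : cc (fun e => e.2 (un u e.1) • v e) j =
    cc v j + (ubas (K j.1)).repr (logEmbedding (K j.1) (Additive.ofMul (u j.1))) j.2 := by
  have h : lv (fun e => e.2 (un u e.1) • v e) j.1 =
      lv v j.1 + logEmbedding (K j.1) (Additive.ofMul (u j.1)) := by
    funext w
    simp only [lv, Pi.add_apply, logEmbedding_component]
    rw [LG_unit hv hx, mL_unit hv hx]
    have : ‖w.1.embedding (un u j.1)‖ = w.1 ((u j.1 : 𝓞 (K j.1)) : K j.1) :=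
      norm_embedding_eq _ _
    simp only
    rw [this]
    ring
  rw [cc_eq, cc_eq, h, map_add]
  rfl

end

theorem unt : S_UNT K := by
  intro v hv hx
  have hsum : ∀ u : ∀ i, (𝓞 (K i))ˣ, ∑ e : Em K, Real.log ‖e.2 (un u e.1)‖ = 0 := by
    intro u
    rw [Fintype.sum_sigma]
    exact sum_eq_zero fun i _ => sum_log_un hv hx u i
  refine ⟨fun κ => ?_, fun u => ?_, fun κ u h1 h2 i => ?_, fun u hu => ?_⟩
  · have hex : ∀ i, ∃ u : (𝓞 (K i))ˣ, ∀ j, (ubas (K i)).repr
        (logEmbedding (K i) (Additive.ofMul u)) j = ((-⌊cc v ⟨i, j⟩ - κ ⟨i, j⟩⌋ : ℤ) : ℝ) :=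
      fun i => exists_unit_repr (K := K i) fun j => -⌊cc v ⟨i, j⟩ - κ ⟨i, j⟩⌋
    choose u hu using hex
    refine ⟨u, fun j => ?_⟩
    rw [cc_unit hv hx, hu]
    have h1 := Int.floor_le (cc v j - κ j)
    have h2 := Int.lt_floor_add_one (cc v j - κ j)
    push_cast
    constructor <;> linarith
  · have h0 : ∏ e : Em K, ‖e.2 (un u e.1)‖ ^ 2 = 1 := by
      have hn : ∀ e : Em K, 0 < ‖e.2 (un u e.1)‖ := fun e => norm_pos_iff.2 (un_ne u e)
      have h := hsum u
      rw [← Real.log_prod (fun e _ => (hn e).ne')] at h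
      rw [prod_pow, Real.eq_one_of_pos_of_log_eq_zero (prod_pos fun e _ => hn e) h, one_pow]
    have h1 : pm (fun e => e.2 (un u e.1) • v e) = pm v := by
      rw [pm_smul (fun e : Em K => e.2 (un u e.1)) v, h0, one_mul]
    refine ⟨h1, fun i => ?_⟩
    rw [ui_shift (c := fun e => Real.log ‖e.2 (un u e.1)‖) (LG_unit hv hx u) ?_ i]
    · rw [sum_log_un hv hx u i, zero_div, add_zero]
    · rw [h1, hsum u, add_zero]
  · have h3 : (ubas (K i)).repr (logEmbedding (K i) (Additive.ofMul (u i))) = 0 := by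
      ext j
      obtain ⟨m, hm⟩ := ubas_repr_logEmbedding (u i) j
      have e1 := h1 ⟨i, j⟩
      have e2 := h2 ⟨i, j⟩
      rw [cc_unit hv hx] at e2
      simp only at e2
      rw [hm] at e2
      rw [hm, Finsupp.zero_apply]
      have f1 : (m : ℝ) < 1 := by linarith [e1.1, e2.2]
      have f2 : (-1 : ℝ) < m := by linarith [e1.2, e2.1]
      have g1 : m < 1 := by exact_mod_cast f1
      have g2 : -1 < m := by exact_mod_cast f2
      have : m = 0 := by omega
      rw [this, Int.cast_zero]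
    have h4 : logEmbedding (K i) (Additive.ofMul (u i)) = 0 :=
      (ubas (K i)).repr.map_eq_zero_iff.1 h3
    exact logEmbedding_eq_zero_iff.1 h4
  · funext j
    rw [cc_unit hv hx, logEmbedding_eq_zero_iff.2 (hu j.1), map_zero]
    simp

/-! ### brackets -/

/-- complex conjugation of the homomorphisms -/
noncomputable def cjA : Em K ≃ Em K := Equiv.sigmaCongrRight fun i => cj (K := K i)

theorem cjA_mk (i : s) (σ : K i →+* ℂ) :
    (cjA : Em K ≃ Em K) ⟨i, σ⟩ = ⟨i, ComplexEmbedding.conjugate σ⟩ := rfl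

theorem SYM.ext_conj {v : Em K → ℂ × ℂ} (h : SYM v) (i : s) (σ : K i →+* ℂ) :
    pm (ext v ⟨i, ComplexEmbedding.conjugate σ⟩) = pm (ext v ⟨i, σ⟩) := by
  rw [← pm_conj (ext v ⟨i, σ⟩), ← pm_equiv (cjA (K := K)).optionCongr (ext v
    ⟨i, ComplexEmbedding.conjugate σ⟩)]
  congr 1
  funext o
  cases o with
  | none =>
    simp only [Equiv.optionCongr_apply, Option.map_none, ext_none]
    exact h i σ
  | some e =>
    obtain ⟨k, τ⟩ := e
    simp only [Equiv.optionCongr_apply, Option.map_some, ext_some, cjA_mk]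
    exact h k τ

theorem SYM.LG_conj {v : Em K → ℂ × ℂ} (h : SYM v) (i : s) (σ : K i →+* ℂ) :
    LG v ⟨i, ComplexEmbedding.conjugate σ⟩ = LG v ⟨i, σ⟩ := by
  unfold LG
  rw [h.ext_conj]

theorem SYM.LG_mk {v : Em K → ℂ × ℂ} (h : SYM v) (i : s) (σ : K i →+* ℂ) :
    LG v ⟨i, (InfinitePlace.mk σ).embedding⟩ = LG v ⟨i, σ⟩ := by
  rcases embedding_mk_eq σ with h1 | h1
  · rw [h1]
  · rw [h1, h.LG_conj]

theorem sum_LG {v : Em K → ℂ × ℂ} (h : SYM v) (i : s) :
    ∑ w : InfinitePlace (K i), (mult w : ℝ) * (LG v ⟨i, w.embedding⟩ - mL v i) = 0 := by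
  classical
  have h1 : ∑ σ : K i →+* ℂ, (LG v ⟨i, σ⟩ - mL v i) = 0 := by
    rw [sum_sub_distrib, sum_const, card_univ, card_emb, nsmul_eq_mul, finrank_mL, sub_self]
  rw [← sum_fiberwise (univ : Finset (K i →+* ℂ)) (fun σ => InfinitePlace.mk σ)] at h1
  rw [← h1]
  refine sum_congr rfl fun w _ => ?_
  rw [← card_filter_mk_eq w, ← nsmul_eq_mul, ← sum_const]
  refine sum_congr rfl fun σ hσ => ?_
  rw [← (mem_filter.1 hσ).2, h.LG_mk]

/-- tuples with bounded coordinates are balanced in each component -/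
theorem exists_balance (i : s) (C : ℝ) : ∃ C' : ℝ, 0 < C' ∧ ∀ v : Em K → ℂ × ℂ, SYM v →
    (∀ j, |cc v ⟨i, j⟩| ≤ C) → ∀ σ, LG v ⟨i, σ⟩ - mL v i ≤ C' := by
  classical
  set C1 : ℝ := |C| * ∑ j, ‖ubas (K i) j‖ with hC1
  have hC1' : 0 ≤ C1 := by positivity
  refine ⟨Fintype.card (InfinitePlace (K i)) * C1 + 1, by positivity, fun v hs hc σ => ?_⟩
  have h1 : ‖lv v i‖ ≤ C1 := by
    rw [← (ubas (K i)).sum_repr (lv v i), hC1, mul_sum]
    refine (norm_sum_le _ _).trans (sum_le_sum fun j _ => ?_)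
    rw [norm_smul, Real.norm_eq_abs]
    exact mul_le_mul_of_nonneg_right ((hc j).trans (le_abs_self C)) (norm_nonneg _)
  have h2 : ∀ w : InfinitePlace (K i), w ≠ w₀ →
      |(mult w : ℝ) * (LG v ⟨i, w.embedding⟩ - mL v i)| ≤ C1 :=
    fun w hw => (norm_le_pi_norm (lv v i) ⟨w, hw⟩).trans h1
  have h3 : ∀ w : InfinitePlace (K i), (mult w : ℝ) * (LG v ⟨i, w.embedding⟩ - mL v i) ≤
      Fintype.card (InfinitePlace (K i)) * C1 := by
    intro w
    by_cases hw : w = w₀
    · have h4 := sum_LG hs i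
      rw [← add_sum_erase univ _ (mem_univ w)] at h4
      have h5 : |∑ x ∈ univ.erase w, (mult x : ℝ) * (LG v ⟨i, x.embedding⟩ - mL v i)| ≤
          Fintype.card (InfinitePlace (K i)) * C1 := by
        refine (abs_sum_le_sum_abs _ _).trans ?_
        calc ∑ x ∈ univ.erase w, |(mult x : ℝ) * (LG v ⟨i, x.embedding⟩ - mL v i)| ≤
            ∑ x ∈ univ.erase w, C1 := sum_le_sum fun x hx =>
              h2 x (fun h => (mem_erase.1 hx).1 (h.trans hw.symm))
          _ = (univ.erase w).card * C1 := by rw [sum_const, nsmul_eq_mul]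
          _ ≤ _ := by
              gcongr
              exact_mod_cast card_le_univ _
      have h6 := neg_abs_le
        (∑ x ∈ univ.erase w, (mult x : ℝ) * (LG v ⟨i, x.embedding⟩ - mL v i))
      linarith
    · refine (le_abs_self _).trans ((h2 w hw).trans ?_)
      have : (1 : ℝ) ≤ Fintype.card (InfinitePlace (K i)) := by
        exact_mod_cast Fintype.card_pos
      nlinarith
  have h4 := h3 (InfinitePlace.mk σ)
  rw [hs.LG_mk] at h4
  have h5 : (1 : ℝ) ≤ mult (InfinitePlace.mk σ) := by exact_mod_cast one_le_mult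
  by_cases h6 : 0 ≤ LG v ⟨i, σ⟩ - mL v i
  · nlinarith
  · push Not at h6
    have : 0 ≤ (Fintype.card (InfinitePlace (K i)) : ℝ) * C1 := by positivity
    linarith

theorem brb : S_BRB K := by
  intro hodd C
  obtain ⟨C1, hC1, hineq⟩ := ineqs (J := Em K) (by rw [card_Em]; exact hodd)
  choose D hD hbal using fun i : s => exists_balance (K := K) i C
  have hn0 : 0 < dg K := hodd.pos
  have hnR : (0 : ℝ) < dg K := by exact_mod_cast hn0
  set C2 : ℝ := ∑ i, D i with hC2
  have hDle : ∀ i, D i ≤ C2 := fun i => single_le_sum (f := D) (fun j _ => (hD j).le) (mem_univ i)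
  refine ⟨Real.exp (Real.log C1 / 2 + 2 * C2 + Real.log C1 / dg K), Real.exp_pos _,
    fun v hs hv hc e f => ?_⟩
  obtain ⟨h1, h2, h3, _⟩ := hineq v hv
  by_cases hbr : ‖br (v e) (v f)‖ = 0
  · rw [hbr]
    positivity
  have hbrpos : 0 < ‖br (v e) (v f)‖ := lt_of_le_of_ne (norm_nonneg _) (Ne.symm hbr)
  have hsum : ∑ e : Em K, LG v e ≤ (Real.log C1 + Real.log (pm v)) / 2 := by
    have e1 : ∑ e : Em K, LG v e = (1 / 2) * (Real.log (∏ e, pm (ext v e)) -
        dg K * Real.log (pm v)) := by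
      rw [Real.log_prod (fun σ _ => (h1 σ).ne')]
      unfold LG
      rw [← mul_sum, sum_sub_distrib, sum_const, card_univ, card_Em, nsmul_eq_mul]
    have e2 : Real.log (∏ e, pm (ext v e)) ≤ Real.log C1 + (dg K + 1) * Real.log (pm v) := by
      have := Real.log_le_log (prod_pos fun σ _ => h1 σ) h3
      rw [Real.log_mul hC1.ne' (by positivity), Real.log_pow, card_Em] at this
      push_cast at this
      exact this
    rw [e1]
    nlinarith
  have e3 : ∀ e, Real.log (pm (ext v e)) = 2 * LG v e + Real.log (pm v) := by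
    intro σ; unfold LG; ring
  have e4 : 2 * (Real.log ‖br (v e) (v f)‖ + Real.log (pm v)) ≤ Real.log C1 +
      (2 * LG v e + Real.log (pm v)) + (2 * LG v f + Real.log (pm v)) := by
    have h5 := h2 e f
    have h6 := Real.log_le_log (by positivity) h5
    rw [Real.log_pow, Real.log_mul hbr hv.ne', Real.log_mul hC1.ne' (by
      have := h1 e; have := h1 f; positivity), Real.log_mul (h1 e).ne' (h1 f).ne', e3, e3] at h6
    push_cast at h6
    linarith
  have hui : ∀ e : Em K, LG v e ≤ C2 + ui v e.1 + Real.log C1 / (2 * dg K) := by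
    intro e
    have e5 := hbal e.1 v hs (fun j => hc ⟨e.1, j⟩) e.2
    have e6 : mL v e.1 = ui v e.1 - ((1 / 2) * Real.log (pm v) - ∑ e, LG v e) / dg K := by
      unfold ui; ring
    have e7 : -(((1 / 2) * Real.log (pm v) - ∑ e, LG v e) / dg K) ≤ Real.log C1 / (2 * dg K) := by
      rw [← neg_div, div_le_div_iff₀ hnR (by positivity)]
      nlinarith
    have e8 := hDle e.1
    have e9 : LG v e - mL v e.1 ≤ D e.1 := e5
    linarith
  have g1 := hui e
  have g2 := hui f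
  have g3 : Real.log C1 / dg K = 2 * (Real.log C1 / (2 * dg K)) := by
    field_simp
  have e8 : Real.log ‖br (v e) (v f)‖ ≤ (Real.log C1 / 2 + 2 * C2 + Real.log C1 / dg K) +
      (ui v e.1 + ui v f.1) := by
    rw [g3]
    linarith
  rw [← Real.exp_add, ← Real.exp_log hbrpos]
  exact Real.exp_le_exp.2 e8

end Pool.Agent.Y714.KE
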