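import Pool.Agent.Y714.KE.BasA
import Pool.Agent.Y714.KE.BasU

set_option autoImplicit false
set_option linter.unusedSectionVars false
set_option linter.unusedVariables false

/-! Etale algebras: basic lemmas B (archimedean invariants of pairs). -/

namespace Pool.Agent.Y714.KE

open Pool.Agent.Y714.KF (FI sp ct nm pm ext br gl ubas qf bk el sg bf)
open NumberField FractionalIdeal Module Finset ComplexConjugate MeasureTheory Filter Topology
open scoped nonZeroDivisors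

variable {s : Type} [Fintype s] [DecidableEq s] {K : s → Type} [∀ i, Field (K i)]
  [∀ i, NumberField (K i)]

/-! ### B: archimedean invariants -/

theorem vc_sm (x : Al K) (P : Al K × Al K) : vc (sm x P) = fun e => e.2 (x e.1) • vc P e := by
  funext e
  simp [vc, KE.sm, Prod.smul_mk]

theorem vc_glq (a b c d : ℚ) (P : Al K × Al K) :
    vc (glq a b c d P) = fun e => gl (a : ℂ) b c d (vc P e) := by
  funext e
  simp [vc, KE.glq, gl, Rat.smul_def]

theorem SYM_vc (P : Al K × Al K) : SYM (vc P) := by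
  intro i σ
  simp [vc, ComplexEmbedding.conjugate]

theorem ND.sm {P : Al K × Al K} (h : ND P) {x : Al K} (hx : ∀ i, x i ≠ 0) : ND (sm x P) := by
  intro e f hne
  have h1 : br (vc (KE.sm x P) e) (vc (KE.sm x P) f) =
      e.2 (x e.1) * f.2 (x f.1) * br (vc P e) (vc P f) := by
    rw [vc_sm]
    simp only [br, Prod.smul_fst, Prod.smul_snd, smul_eq_mul]
    ring
  rw [h1]
  exact mul_ne_zero (mul_ne_zero ((map_ne_zero e.2).2 (hx _)) ((map_ne_zero f.2).2 (hx _)))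
    (h e f hne)

theorem ND.glq {P : Al K × Al K} (h : ND P) {a b c d : ℚ} (hdet : a * d - b * c ≠ 0) :
    ND (glq a b c d P) := by
  intro e f hne
  rw [vc_glq, KF.br_gl]
  refine mul_ne_zero ?_ (h e f hne)
  exact_mod_cast hdet

theorem ND.ind {P : Al K × Al K} (h : ND P) (hn : 2 ≤ dg K) : IN P := by
  intro a b hab
  have hc : 1 < Fintype.card (Em K) := by rw [card_Em]; omega
  obtain ⟨e, f, hne⟩ := Fintype.exists_pair_of_one_lt_card hc
  have h0 := h e f hne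
  have key : ∀ g : Em K, (a : ℂ) * g.2 (P.1 g.1) + b * g.2 (P.2 g.1) = 0 := by
    intro g
    have h1 : a • P.1 g.1 + b • P.2 g.1 = 0 := congrFun hab g.1
    have h2 := congrArg g.2 h1
    simpa [Rat.smul_def] using h2
  have h1 := key e
  have h2 := key f
  have h3 : (a : ℂ) * br (vc P e) (vc P f) = 0 := by
    unfold br vc
    linear_combination f.2 (P.2 f.1) * h1 - e.2 (P.2 e.1) * h2
  have h4 : (b : ℂ) * br (vc P e) (vc P f) = 0 := by
    unfold br vc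
    linear_combination e.2 (P.1 e.1) * h2 - f.2 (P.1 f.1) * h1
  exact ⟨by exact_mod_cast (mul_eq_zero.1 h3).resolve_right h0,
    by exact_mod_cast (mul_eq_zero.1 h4).resolve_right h0⟩

theorem ND.ne {P : Al K × Al K} (h : ND P) (hn : 2 ≤ dg K) (i : s) : P.1 i ≠ 0 ∨ P.2 i ≠ 0 := by
  by_contra hcon
  push Not at hcon
  obtain ⟨h1, h2⟩ := hcon
  obtain ⟨σ⟩ : Nonempty (K i →+* ℂ) := inferInstance
  have hc : 1 < Fintype.card (Em K) := by rw [card_Em]; omega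
  obtain ⟨f, hf⟩ := Fintype.exists_ne_of_one_lt_card hc (⟨i, σ⟩ : Em K)
  refine h ⟨i, σ⟩ f hf.symm ?_
  simp [br, vc, h1, h2]

theorem ND.pm_pos {P : Al K × Al K} (h : ND P) (hn : 2 ≤ dg K) : 0 < pm (vc P) :=
  KF.pm_pos (by rw [card_Em]; exact hn) h

theorem prod_norm (x : Al K) : ∏ e : Em K, ‖e.2 (x e.1)‖ =
    ((nA (fun i => sp (x i)) : ℚ) : ℝ) := by
  rw [Fintype.prod_sigma, nA, Rat.cast_prod]
  exact prod_congr rfl fun i _ => KF.prod_norm_emb (x i)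

theorem pm_vc_sm (x : Al K) (P : Al K × Al K) : pm (vc (sm x P)) =
    ((nA (fun i => sp (x i)) : ℚ) : ℝ) ^ 2 * pm (vc P) := by
  rw [vc_sm, KF.pm_smul (fun e : Em K => e.2 (x e.1)) (vc P), prod_pow, prod_norm]

theorem pm_vc_glq (a b c d : ℚ) (P : Al K × Al K) :
    pm (vc (glq a b c d P)) = |(a : ℝ) * d - b * c| ^ dg K * pm (vc P) := by
  rw [vc_glq, KF.pm_gl, card_Em]
  congr 2
  have : ((a : ℂ) * d - b * c) = (((a : ℝ) * d - b * c : ℝ) : ℂ) := by push_cast; ring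
  rw [this, Complex.norm_real, Real.norm_eq_abs]

theorem cc_vc_glq (hodd : Odd (dg K)) {a b c d : ℚ} (hdet : a * d - b * c ≠ 0) {P : Al K × Al K}
    (hv : 0 < pm (vc P)) : cc (vc (glq a b c d P)) = cc (vc P) := by
  rw [vc_glq]
  exact (gla _ hv (pm_ext_pos hodd hv) a b c d (by exact_mod_cast hdet)).1

theorem ui_vc_glq (hodd : Odd (dg K)) {a b c d : ℚ} (hdet : a * d - b * c ≠ 0) {P : Al K × Al K}
    (hv : 0 < pm (vc P)) (i : s) :
    ui (vc (glq a b c d P)) i = ui (vc P) i + (1 / 2) * Real.log |(a : ℝ) * d - b * c| := by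
  have h := (gla _ hv (pm_ext_pos hodd hv) a b c d (by exact_mod_cast hdet)).2 i
  rw [vc_glq, h]
  congr 3
  have : ((a : ℂ) * d - b * c) = (((a : ℝ) * d - b * c : ℝ) : ℂ) := by push_cast; ring
  rw [this, Complex.norm_real, Real.norm_eq_abs]

theorem LT_inv (hodd : Odd (dg K)) (hn : 2 ≤ dg K) {P Q : Al K × Al K} (hP : ND P)
    (h : LT P = LT Q) : ND Q ∧ pm (vc Q) = pm (vc P) ∧ cc (vc Q) = cc (vc P) ∧
      ui (vc Q) = ui (vc P) ∧
      ∏ q ∈ (univ : Finset (Em K)).offDiag, ‖br (vc Q q.1) (vc Q q.2)‖ =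
        ∏ q ∈ (univ : Finset (Em K)).offDiag, ‖br (vc P q.1) (vc P q.2)‖ := by
  have hPI := hP.ind hn
  obtain ⟨m, n, k, l, hdet, rfl⟩ := LT_eq hPI (IN_congr hPI h) h
  have hd : ((m : ℚ) * l - n * k) = 1 ∨ ((m : ℚ) * l - n * k) = -1 := by
    rcases hdet with h | h
    · left; exact_mod_cast congrArg (Int.cast : ℤ → ℚ) h
    · right; exact_mod_cast congrArg (Int.cast : ℤ → ℚ) h
  have hd0 : ((m : ℚ) * l - n * k) ≠ 0 := by rcases hd with h | h <;> rw [h] <;> norm_num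
  have habs : |((m : ℚ) : ℝ) * ((l : ℚ) : ℝ) - ((n : ℚ) : ℝ) * ((k : ℚ) : ℝ)| = 1 := by
    rcases hd with h | h
    · have h' : ((m : ℚ) : ℝ) * ((l : ℚ) : ℝ) - ((n : ℚ) : ℝ) * ((k : ℚ) : ℝ) = 1 := by
        exact_mod_cast congrArg (Rat.cast : ℚ → ℝ) h
      rw [h']; norm_num
    · have h' : ((m : ℚ) : ℝ) * ((l : ℚ) : ℝ) - ((n : ℚ) : ℝ) * ((k : ℚ) : ℝ) = -1 := by
        exact_mod_cast congrArg (Rat.cast : ℚ → ℝ) h
      rw [h']; norm_num
  rw [glz_eq]
  refine ⟨hP.glq hd0, ?_, cc_vc_glq hodd hd0 (hP.pm_pos hn), ?_, ?_⟩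
  · rw [pm_vc_glq, habs, one_pow, one_mul]
  · funext i
    rw [ui_vc_glq hodd hd0 (hP.pm_pos hn), habs, Real.log_one, mul_zero, add_zero]
  · refine prod_congr rfl fun q _ => ?_
    rw [vc_glq, KF.br_gl, norm_mul]
    have : ‖((m : ℚ) : ℂ) * ((l : ℚ) : ℂ) - ((n : ℚ) : ℂ) * ((k : ℚ) : ℂ)‖ = 1 := by
      rcases hd with h | h
      · have h' : ((m : ℚ) : ℂ) * ((l : ℚ) : ℂ) - ((n : ℚ) : ℂ) * ((k : ℚ) : ℂ) = 1 := by
          exact_mod_cast congrArg (Rat.cast : ℚ → ℂ) h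
        rw [h']; norm_num
      · have h' : ((m : ℚ) : ℂ) * ((l : ℚ) : ℂ) - ((n : ℚ) : ℂ) * ((k : ℚ) : ℂ) = -1 := by
          exact_mod_cast congrArg (Rat.cast : ℚ → ℂ) h
        rw [h']; norm_num
    rw [this, one_mul]

/-- a binary quadratic form with three zeros is zero -/
private theorem quad_zero {A B C : ℂ} {x y z : ℂ × ℂ} (hxy : br x y ≠ 0) (hxz : br x z ≠ 0)
    (hyz : br y z ≠ 0) (h1 : A * x.1 ^ 2 + B * (x.1 * x.2) + C * x.2 ^ 2 = 0)
    (h2 : A * y.1 ^ 2 + B * (y.1 * y.2) + C * y.2 ^ 2 = 0)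
    (h3 : A * z.1 ^ 2 + B * (z.1 * z.2) + C * z.2 ^ 2 = 0) : A = 0 ∧ B = 0 ∧ C = 0 := by
  unfold br at hxy hxz hyz
  have hD : (x.1 * y.2 - x.2 * y.1) * (x.1 * z.2 - x.2 * z.1) * (y.1 * z.2 - y.2 * z.1) ≠ 0 :=
    mul_ne_zero (mul_ne_zero hxy hxz) hyz
  refine ⟨?_, ?_, ?_⟩
  · refine (mul_eq_zero.1 (?_ : A * ((x.1 * y.2 - x.2 * y.1) * (x.1 * z.2 - x.2 * z.1) *
      (y.1 * z.2 - y.2 * z.1)) = 0)).resolve_right hD
    linear_combination (y.2 * z.2 * (y.1 * z.2 - y.2 * z.1)) * h1 -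
      (x.2 * z.2 * (x.1 * z.2 - x.2 * z.1)) * h2 + (x.2 * y.2 * (x.1 * y.2 - x.2 * y.1)) * h3
  · refine (mul_eq_zero.1 (?_ : B * ((x.1 * y.2 - x.2 * y.1) * (x.1 * z.2 - x.2 * z.1) *
      (y.1 * z.2 - y.2 * z.1)) = 0)).resolve_right hD
    linear_combination (-(y.1 * z.2 + y.2 * z.1) * (y.1 * z.2 - y.2 * z.1)) * h1 +
      ((x.1 * z.2 + x.2 * z.1) * (x.1 * z.2 - x.2 * z.1)) * h2 -
      ((x.1 * y.2 + x.2 * y.1) * (x.1 * y.2 - x.2 * y.1)) * h3
  · refine (mul_eq_zero.1 (?_ : C * ((x.1 * y.2 - x.2 * y.1) * (x.1 * z.2 - x.2 * z.1) *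
      (y.1 * z.2 - y.2 * z.1)) = 0)).resolve_right hD
    linear_combination (y.1 * z.1 * (y.1 * z.2 - y.2 * z.1)) * h1 -
      (x.1 * z.1 * (x.1 * z.2 - x.2 * z.1)) * h2 + (x.1 * y.1 * (x.1 * y.2 - x.2 * y.1)) * h3

/-- an equality of lattices forces a unit to be `1` or `-1` -/
theorem sm_LT_eq (hn : 3 ≤ dg K) {P : Al K × Al K} (hP : ND P) {x : Al K}
    (h : LT (sm x P) = LT P) : x = 1 ∨ x = -1 := by
  have hPI := hP.ind (by omega)
  obtain ⟨m, n, k, l, hdet, hQ⟩ := LT_eq hPI (IN_congr hPI h.symm) h.symm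
  have e1 : x * P.1 = m • P.1 + n • P.2 := congrArg Prod.fst hQ
  have e2 : x * P.2 = k • P.1 + l • P.2 := congrArg Prod.snd hQ
  have hc : 2 < Fintype.card (Em K) := by rw [card_Em]; omega
  obtain ⟨a, b, c, hab, hac, hbc⟩ := Fintype.two_lt_card_iff.1 hc
  have key : ∀ e : Em K, (k : ℂ) * (vc P e).1 ^ 2 + ((l : ℂ) - m) * ((vc P e).1 * (vc P e).2) +
      (-(n : ℂ)) * (vc P e).2 ^ 2 = 0 := by
    intro e
    have f1 : x e.1 * P.1 e.1 = m • P.1 e.1 + n • P.2 e.1 := congrFun e1 e.1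
    have f2 : x e.1 * P.2 e.1 = k • P.1 e.1 + l • P.2 e.1 := congrFun e2 e.1
    have g1 := congrArg e.2 f1
    have g2 := congrArg e.2 f2
    simp only [map_mul, map_add, zsmul_eq_mul, map_intCast] at g1 g2
    unfold vc
    simp only
    linear_combination e.2 (P.2 e.1) * g1 - e.2 (P.1 e.1) * g2
  obtain ⟨hk, hl, hn'⟩ := quad_zero (hP a b hab) (hP a c hac) (hP b c hbc) (key a) (key b) (key c)
  have hk0 : k = 0 := by exact_mod_cast hk
  have hn0 : n = 0 := by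
    have := neg_eq_zero.1 hn'
    exact_mod_cast this
  have hlm : l = m := by
    have := sub_eq_zero.1 hl
    exact_mod_cast this
  subst hk0 hn0 hlm
  have hx : ∀ i, x i = (l : K i) := by
    intro i
    have f1 : x i * P.1 i = l • P.1 i + (0 : ℤ) • P.2 i := congrFun e1 i
    have f2 : x i * P.2 i = (0 : ℤ) • P.1 i + l • P.2 i := congrFun e2 i
    rw [zero_smul, add_zero, zsmul_eq_mul] at f1
    rw [zero_smul, zero_add, zsmul_eq_mul] at f2
    rcases hP.ne (by omega) i with h0 | h0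
    · exact mul_right_cancel₀ h0 f1
    · exact mul_right_cancel₀ h0 f2
  have hl1 : l = 1 ∨ l = -1 := by
    rcases hdet with h | h
    · have : l * l = 1 := by linarith
      exact mul_self_eq_one_iff.1 this
    · have : l * l = -1 := by linarith
      nlinarith [mul_self_nonneg l]
  rcases hl1 with rfl | rfl
  · left
    funext i
    rw [hx i]
    simp
  · right
    funext i
    rw [hx i]
    simp

end Pool.Agent.Y714.KE
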