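import Pool.Agent.Y714.KE.Asm4
import Pool.Agent.Y333.KE.Box
import Pool.Agent.Y592.KE.Lpc
import Pool.Agent.Y86.KE.Elm
import Pool.Agent.Y288.KE.Abs
import Pool.Agent.Y421.KE.Div
import Pool.Agent.Y195.KE.LAT
import Pool.Agent.Y849.KE.Loc
import Pool.Agent.Y849.KE.Bas
import Pool.Agent.Y849.KE.Rbm
import Pool.Agent.Y259.KE.Idx
import Pool.Agent.Y259.KE.Gej
import Pool.Agent.Y259.KE.Mib
import Pool.Agent.Y681.KE.HB
import Pool.Agent.Y319.KE.T1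
import Pool.Agent.Y319.KE.GCJ
import Pool.Agent.Y799.KE.Par
import Pool.Agent.Y858.KE.CR
import Pool.Agent.Y664.KE.CF
import Pool.Agent.Y220.KE.Lr
import Pool.Agent.Y220.KE.Pad
import Pool.Agent.Y37.KE.Ccc
import Pool.Agent.Y891.KE.Brn
import Pool.Agent.Y891.KE.NulB
import Pool.Agent.Y891.KE.Vol
import Pool.Agent.Y405.KE.Rbc
import Pool.Agent.Y977.KE.Bij
import Pool.Agent.Y977.KE.Scj
import Pool.Agent.Y903.KE.Nuj
import Pool.Agent.Y901.KE.Rbj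
import Pool.Agent.Z864.KE.Lrj
import Pool.Agent.Y889.KE.Gcm
import Pool.Agent.Y500.KE.Gcu
import Pool.Agent.Y79.KE.RF2M

set_option autoImplicit false
set_option linter.unusedVariables false

/-! Project KE: everything together. -/

namespace Pool.Agent.Y714.KE

open NumberField FractionalIdeal Module Filter Topology
open scoped nonZeroDivisors

variable {s : Type} [Fintype s] [DecidableEq s] (K : s → Type) [∀ i, Field (K i)]
  [∀ i, NumberField (K i)]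

/-- **Manin conjecture for all forms of odd degree** -/
theorem final
    (hodd : Odd (dg K)) (hn : 5 ≤ dg K)
    (S₀ : Finset ℕ) (hS₀ : ∀ p ∈ S₀, p.Prime) (ψ : (Em K → ℂ × ℂ) → ℝ) (hψ : RFac ψ)
    (φ : ℕ → Al K × Al K → ℝ) (hφ : ∀ p ∈ S₀, PFac p (φ p)) :
    ∃ c : ℝ, 0 < c ∧ Tendsto (fun B : ℝ => ({C : Set (Al K × Al K) | ∃ P, ND P ∧
      C = {P' | Eq2 P P'} ∧ ht P * (ψ (vc P) * ∏ p ∈ S₀, φ p P) ≤ B}.ncard : ℝ) /
        (B * Real.log B ^ (Fintype.card s - 1))) atTop (𝓝 c) := by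
  have hBOX : S_BOX := Y333.KE.box
  have hLPC : S_LPC := Y592.KE.LPC.lpc
  have hELM : S_ELM := Y86.KE.elm hLPC
  have hABS : S_ABS := Y288.KE.abs hLPC
  have hDIV : S_DIV K := Y421.KE.div K
  have hCNT : S_CNT K := Y421.KE.cnt K
  have hCLS : S_CLS K := Y421.KE.cls K
  have hUNI : S_UNI K := Y195.KE.uni
  have hNB : S_NB K := Y195.KE.nbr
  have hLOC : S_LOC K := Y849.KE.loc
  have hBAS : S_BAS K := Y849.KE.bas
  have hSUP : S_SUP K := Y849.KE.sup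
  have hSUPI : S_SUPI K := Y849.KE.supi
  have hIDX : S_IDX K := Y259.KE.idx
  have hPDI : S_PDI K := Y259.KE.pdi
  have hHB : S_HB K := Y681.KE.hb hCLS hIDX
  have hDESC : S_DESC K := Y681.KE.desc hHB hNB
  have hT1 : S_T1 K := Y319.KE.t1 hBOX
  have hCEL : S_CEL K := Y319.KE.cel
  have hPAR : S_PAR K := Y799.KE.par
  have hCR : S_CR K := Y858.KE.cr hT1 hCEL hPAR hCLS hHB
  have hCF : S_CF K := Y664.KE.cf K hCR hDIV
  have hRF1 : S_RF1 K := Y664.KE.rf1 K hCR hDIV hBAS hSUP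
  have hRF2' : S_RF2 K := Y79.KE.rf2 hCR hDIV hCLS hBAS hSUPI hIDX hPDI
  have hLR : S_LR K := Y220.KE.lr hDIV hCNT
  have hCCC : S_CCC K := Y37.KE.ccc
  have hOPB : S_OPB K := Y37.KE.opb hCCC
  have hBRN : S_BRN K := Y891.KE.brn K
  have hNUL : S_NUL K := Y891.KE.nul hCCC hBRN
  have hVOL : S_VOL K := Y891.KE.vol hBRN hCCC
  have hRBC : S_RBC K := Y405.KE.rbc K hT1 hOPB
  have hPAD : S_PAD K := Y220.KE.pad
  have hLEV : S_LEV K := Y220.KE.lev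
  have hHT : S_HT K := Y977.KE.ht K hDESC hUNI
  have hBIJ : S_BIJ K := Y977.KE.bij K hLOC hDESC hUNI hCR
  have hSCJ : S_SCJ K := Y977.KE.scj' K
  have hOPJ : S_OPJ K := Y977.KE.opj K hCCC
  have hBRJ : S_BRJ K := Y903.KE.brj
  have hNUJ : S_NUJ K := Y903.KE.nuj hCCC hBRJ
  have hLEJ : S_LEJ K := Y903.KE.lej
  have hRBJ : S_RBJ K := Y901.KE.rbj hT1 hOPJ hSCJ
  have hGEJ : S_GEJ K := Y259.KE.gej
  have hLRJ : S_LRJ K := Z864.KE.lrj hDIV hCNT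
  have hMIB : S_MIB := Y259.KE.mib hBOX
  have hEUN : S_EUN := Y259.KE.eun hLPC
  have hETW : S_ETW := Y259.KE.etw hELM
  have hRBM : S_RBM K := Y849.KE.rbm hT1 hRBC hOPB hLPC
  have hRJM : S_RJM K := Y849.KE.rjm hT1 hRBJ hGEJ hOPJ hSCJ hLPC
  have hGCM : S_GCM K := Y889.KE.gcm hRBM hMIB hETW hLR hOPB hPAD hLEV
  have hGCJ : S_GCJ K := Y319.KE.gcj hRJM hMIB hETW hLRJ hOPJ hPAD hLEJ hLEV hSCJ
  have hGCU : S_GCU K := Y500.KE.gcu hRBM hMIB hEUN hLR hOPB hVOL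
  exact final_of hT1 hCEL hPAR hABS hCR hCF hRF1 hRF2' hNUL hNUJ hGCM hGCJ hGCU hOPB hVOL hCLS
    hLOC hDESC hBIJ hHT hodd hn S₀ hS₀ ψ hψ φ hφ

end Pool.Agent.Y714.KE
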