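import Pool.Agent.Y714.KE.Glue
import Pool.Agent.Y714.KE.Bas

set_option autoImplicit false
set_option linter.unusedSectionVars false
set_option linter.unusedVariables false

/-! Etale algebras: the assembly, elementary parts. -/

namespace Pool.Agent.Y714.KE

open Pool.Agent.Y714.KF (FI sp ct nm pm ext br gl ubas qf bk el sg bf)
open NumberField FractionalIdeal Module Finset ComplexConjugate MeasureTheory Filter Topology
open scoped nonZeroDivisors

section

theorem ev_pow (ε : ℝ) (hε : 0 < ε) : ∃ t₀ : ℝ, 1 ≤ t₀ ∧ ∀ t : ℝ, t₀ ≤ t →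
    (1 + Real.log t) ^ 2 ≤ Real.exp (ε * Real.log t) := by
  refine ⟨Real.exp (1 + 24 / ε ^ 3), ?_, fun t ht => ?_⟩
  · have : 0 ≤ 1 + 24 / ε ^ 3 := by positivity
    exact Real.one_le_exp this
  · have ht0 : 0 < t := lt_of_lt_of_le (Real.exp_pos _) ht
    have hu : 1 + 24 / ε ^ 3 ≤ Real.log t := by
      rw [← Real.log_exp (1 + 24 / ε ^ 3)]
      exact Real.log_le_log (Real.exp_pos _) ht
    set u := Real.log t with hudef
    have h0 : 0 < 24 / ε ^ 3 := by positivity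
    have hu1 : 1 ≤ u := by linarith
    have h1 := Real.pow_div_factorial_le_exp (ε * u) (by positivity) 3
    refine le_trans ?_ h1
    have h2 : 24 / ε ^ 3 ≤ u := by linarith
    rw [div_le_iff₀ (by positivity)] at h2
    have h3 : ((Nat.factorial 3 : ℕ) : ℝ) = 6 := by norm_num [Nat.factorial]
    rw [h3, le_div_iff₀ (by norm_num)]
    have h4 : (1 + u) ^ 2 ≤ 4 * u ^ 2 := by nlinarith
    have h5 : (ε * u) ^ 3 = (u * ε ^ 3) * u ^ 2 := by ring
    rw [h5]
    nlinarith [sq_nonneg u, mul_le_mul_of_nonneg_right h2 (sq_nonneg u)]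

theorem ev_log (X : ℝ) : ∃ t₀ : ℝ, 1 ≤ t₀ ∧ ∀ t : ℝ, t₀ ≤ t → X ≤ (1 + Real.log t) ^ 2 := by
  refine ⟨Real.exp |X|, Real.one_le_exp (abs_nonneg _), fun t ht => ?_⟩
  have ht0 : 0 < t := lt_of_lt_of_le (Real.exp_pos _) ht
  have hu : |X| ≤ Real.log t := by
    rw [← Real.log_exp |X|]
    exact Real.log_le_log (Real.exp_pos _) ht
  have := le_abs_self X
  have := abs_nonneg X
  nlinarith

theorem ev_lin (ε C : ℝ) (hε : 0 < ε) : ∃ t₀ : ℝ, 1 ≤ t₀ ∧ ∀ t : ℝ, t₀ ≤ t →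
    C < ε * Real.log t := by
  refine ⟨Real.exp ((|C| + 1) / ε), Real.one_le_exp (by positivity), fun t ht => ?_⟩
  have ht0 : 0 < t := lt_of_lt_of_le (Real.exp_pos _) ht
  have hu : (|C| + 1) / ε ≤ Real.log t := by
    rw [← Real.log_exp ((|C| + 1) / ε)]
    exact Real.log_le_log (Real.exp_pos _) ht
  rw [div_le_iff₀ hε] at hu
  have := le_abs_self C
  nlinarith

variable {s : Type} [Fintype s] [DecidableEq s]

/-- the forms of the main polyhedron -/
noncomputable def am (l i : s) : ℝ := if i = l then 1 else 0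

/-- the forms of a cusp polyhedron -/
noncomputable def aj (j l i : s) : ℝ :=
  if l = j then (if i = j then -1 else 0) else (if i = l then 1 else 0) + if i = j then 1 else 0

theorem sum_am (l : s) (y : s → ℝ) : ∑ i, am l i * y i = y l := by
  unfold am
  simp

theorem sum_aj_self (j : s) (y : s → ℝ) : ∑ i, aj j j i * y i = -y j := by
  unfold aj
  simp

theorem sum_aj_ne (j l : s) (h : l ≠ j) (y : s → ℝ) : ∑ i, aj j l i * y i = y l + y j := by
  unfold aj
  simp only [h, if_false, add_mul, Finset.sum_add_distrib]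
  simp

theorem am_bdd (w : s → ℝ) (hw : ∀ i, 1 ≤ w i) : ∃ R : ℝ, ∀ y : s → ℝ,
    ∑ i, w i * y i = 1 / 2 → (∀ l, 0 ≤ ∑ i, am l i * y i) → ∀ i, |y i| ≤ R := by
  refine ⟨1 / 2, fun y h1 h2 i => ?_⟩
  simp_rw [sum_am] at h2
  rw [abs_of_nonneg (h2 i)]
  have h3 : w i * y i ≤ ∑ i, w i * y i :=
    Finset.single_le_sum (f := fun i => w i * y i)
      (fun j _ => mul_nonneg (by linarith [hw j]) (h2 j)) (mem_univ i)
  have := hw i
  have := h2 i
  nlinarith

theorem am_int (w : s → ℝ) (hw : ∀ i, 1 ≤ w i) [Nonempty s] :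
    ∃ y : s → ℝ, ∑ i, w i * y i = 1 / 2 ∧ ∀ l, 0 < ∑ i, am l i * y i := by
  have hpos : 0 < ∑ i, w i := sum_pos (fun i _ => by linarith [hw i]) univ_nonempty
  refine ⟨fun _ => 1 / (2 * ∑ i, w i), ?_, fun l => ?_⟩
  · rw [← sum_mul]; field_simp
  · rw [sum_am]; positivity

theorem aj_bdd (w : s → ℝ) (hw : ∀ i, 1 ≤ w i) (j : s) (hj : w j = 1) (hn : 3 ≤ ∑ i, w i) :
    ∃ R : ℝ, ∀ y : s → ℝ, ∑ i, w i * y i = 1 / 2 → (∀ l, 0 ≤ ∑ i, aj j l i * y i) →
      ∀ i, |y i| ≤ R := by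
  refine ⟨1, fun y h1 h2 i => ?_⟩
  have h3 : 0 ≤ -y j := by rw [← sum_aj_self]; exact h2 j
  have h4 : ∀ l, l ≠ j → 0 ≤ y l + y j := fun l hl => by rw [← sum_aj_ne j l hl]; exact h2 l
  have e1 : ∑ i, w i * y i = w j * y j + ∑ i ∈ univ.erase j, w i * y i :=
    (Finset.add_sum_erase _ _ (mem_univ j)).symm
  have e2 : ∑ i, w i = w j + ∑ i ∈ univ.erase j, w i :=
    (Finset.add_sum_erase _ _ (mem_univ j)).symm
  have h5 : ∑ i ∈ univ.erase j, w i * (-y j) ≤ ∑ i ∈ univ.erase j, w i * y i := by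
    refine sum_le_sum fun l hl => ?_
    have := h4 l (ne_of_mem_erase hl)
    have := hw l
    nlinarith
  rw [← sum_mul] at h5
  have h6 : -y j ≤ 1 / 2 := by
    rw [h1, hj] at e1
    rw [hj] at e2
    nlinarith
  by_cases hi : i = j
  · rw [hi, abs_le]; constructor <;> linarith
  · have h7 : w i * y i ≤ ∑ i ∈ univ.erase j, w i * y i :=
      Finset.single_le_sum (f := fun i => w i * y i) (fun l hl => by
        have := h4 l (ne_of_mem_erase hl)
        have := hw l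
        exact mul_nonneg (by linarith) (by linarith)) (mem_erase.2 ⟨hi, mem_univ i⟩)
    have h8 := h4 i hi
    rw [abs_of_nonneg (by linarith)]
    rw [h1, hj] at e1
    have := hw i
    nlinarith

theorem aj_int (w : s → ℝ) (hw : ∀ i, 1 ≤ w i) (j : s) (hj : w j = 1) (hn : 3 ≤ ∑ i, w i) :
    ∃ y : s → ℝ, ∑ i, w i * y i = 1 / 2 ∧ ∀ l, 0 < ∑ i, aj j l i * y i := by
  set N := ∑ i, w i with hN
  have e2 : N = w j + ∑ i ∈ univ.erase j, w i := (Finset.add_sum_erase _ _ (mem_univ j)).symm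
  set x : ℝ := 1 / (4 * N) with hx
  have hx0 : 0 < x := by positivity
  have hNx : N * x = 1 / 4 := by rw [hx]; field_simp
  set c : ℝ := (1 / 2 + x) / (N - 1) with hc
  have hN1 : 0 < N - 1 := by linarith
  have hcx : x < c := by
    rw [hc, lt_div_iff₀ hN1]
    nlinarith
  refine ⟨fun i => if i = j then -x else c, ?_, fun l => ?_⟩
  · rw [← Finset.add_sum_erase _ _ (mem_univ j)]
    have : ∑ i ∈ univ.erase j, w i * (if i = j then -x else c) = ∑ i ∈ univ.erase j, w i * c :=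
      sum_congr rfl fun i hi => by rw [if_neg (ne_of_mem_erase hi)]
    rw [this, ← sum_mul]
    have e3 : ∑ i ∈ univ.erase j, w i = N - 1 := by rw [e2, hj]; ring
    simp only [if_true]
    rw [e3, hc, hj]
    field_simp
    ring
  · by_cases hl : l = j
    · rw [hl, sum_aj_self]; simpa using hx0
    · rw [sum_aj_ne j l hl]
      simp only [hl, if_false, if_true]
      linarith

theorem sum_yy (w : s → ℝ) (hw : ∀ i, 1 ≤ w i) (i₀ : s) (k : s → ℤ) (t : ℝ) :
    ∑ i, w i * yy w i₀ k t i = (1 / 2) * Real.log t := by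
  rw [← Finset.add_sum_erase _ _ (mem_univ i₀)]
  have : ∑ i ∈ univ.erase i₀, w i * yy w i₀ k t i = ∑ i ∈ univ.erase i₀, w i * k i :=
    sum_congr rfl fun i hi => by unfold yy; rw [if_neg (ne_of_mem_erase hi)]
  rw [this]
  unfold yy
  rw [if_pos rfl]
  have := hw i₀
  have h0 : w i₀ ≠ 0 := by linarith
  field_simp
  ring

theorem yy_ne (w : s → ℝ) (i₀ : s) (k : s → ℤ) (t : ℝ) {i : s} (h : i ≠ i₀) :
    yy w i₀ k t i = k i := by
  unfold yy; rw [if_neg h]

variable {K : s → Type} [∀ i, Field (K i)] [∀ i, NumberField (K i)]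

variable (K) in
/-- the degrees -/
noncomputable def wt (i : s) : ℝ := (finrank ℚ (K i) : ℝ)

theorem one_le_wt (i : s) : 1 ≤ wt K i := by
  unfold wt
  exact_mod_cast (finrank_pos (R := ℚ) (M := K i))

theorem sum_wt : ∑ i, wt K i = (dg K : ℝ) := by
  unfold wt dg
  push_cast
  rfl

theorem tt_yy (i₀ : s) (k : s → ℤ) {t : ℝ} (ht : 0 < t) : tt (K := K) (yy (wt K) i₀ k t) = t := by
  unfold tt
  have := sum_yy (wt K) one_le_wt i₀ k t
  unfold wt at this ⊢
  rw [this, ← mul_assoc, show (2 : ℝ) * (1 / 2) = 1 by norm_num, one_mul, Real.exp_log ht]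

theorem SY_subset (κ : Ux K → ℝ) (i₀ : s) (I : FA K) (y : s → ℝ) :
    SY κ i₀ I y ⊆ SA κ I (tt (K := K) y) := by
  rintro M ⟨P, h1, h2, h3, h4, h5, h6⟩
  exact ⟨P, h1, h2, h3, h4, h6⟩

theorem SA_mono (κ : Ux K → ℝ) (I : FA K) {a b : ℝ} (h : a ≤ b) : SA κ I a ⊆ SA κ I b := by
  rintro M ⟨P, h1, h2, h3, h4, h5⟩
  exact ⟨P, h1, h2, h3, h4, h5.trans h⟩

theorem SA_finite (hodd : Odd (dg K)) (hn : 3 ≤ dg K) (hCR : S_CR K) (κ : Ux K → ℝ) (I : FU K)
    (t : ℝ) : (SA κ (cf I) t).Finite := by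
  obtain ⟨C, _, hC⟩ := hCR hodd hn κ
  exact (hC I (max t 1) (by positivity)).1.subset (SA_mono κ _ (le_max_left _ _))

/-- only finitely many cells are not empty -/
theorem cells_finite (hodd : Odd (dg K)) (hn : 3 ≤ dg K) (hCR : S_CR K) (κ : Ux K → ℝ) (i₀ : s)
    (I : FU K) {t : ℝ} (ht : 0 < t) :
    {k : s → ℤ | k i₀ = 0 ∧ (SY κ i₀ (cf I) (yy (wt K) i₀ k t)).Nonempty}.Finite := by
  classical
  have hfin := SA_finite hodd hn hCR κ I t
  choose! f hf using fun (k : s → ℤ) (hk : k ∈ {k : s → ℤ | k i₀ = 0 ∧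
    (SY κ i₀ (cf I) (yy (wt K) i₀ k t)).Nonempty}) => hk.2
  refine Set.Finite.of_finite_image (f := f) (hfin.subset ?_) ?_
  · rintro M ⟨k, hk, rfl⟩
    have := SY_subset κ i₀ (cf I) _ (hf k hk)
    rwa [tt_yy i₀ k ht] at this
  · intro k hk k' hk' he
    obtain ⟨P, h1, h2, h3, h4, h5, h6⟩ := hf k hk
    obtain ⟨P', h1', h2', h3', h4', h5', h6'⟩ := hf k' hk'
    have hLT : LT P = LT P' := by rw [← h1, ← h1']; exact he
    have hui := (LT_inv hodd (by omega) h3 hLT).2.2.2.1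
    funext i
    by_cases hi : i = i₀
    · rw [hi, hk.1, hk'.1]
    · have e1 := h5 i hi
      have e2 := h5' i hi
      rw [hui] at e2
      rw [yy_ne _ _ _ _ hi] at e1 e2
      have a1 : (k i : ℝ) < k' i + 1 := lt_of_le_of_lt e1.1 e2.2
      have a2 : (k' i : ℝ) < k i + 1 := lt_of_le_of_lt e2.1 e1.2
      have b1 : k i < k' i + 1 := by exact_mod_cast a1
      have b2 : k' i < k i + 1 := by exact_mod_cast a2
      omega

end

end Pool.Agent.Y714.KE
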