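import Pool.Agent.Y714.KE.Asm1

set_option autoImplicit false
set_option linter.unusedSectionVars false
set_option linter.unusedVariables false

/-! Etale algebras: the assembly for one class. -/

namespace Pool.Agent.Y714.KE

open Pool.Agent.Y714.KF (FI sp ct nm pm ext br gl ubas qf bk el sg bf)
open NumberField FractionalIdeal Module Finset ComplexConjugate MeasureTheory Filter Topology
open scoped nonZeroDivisors

section

variable {s : Type} [Fintype s] [DecidableEq s] {K : s → Type} [∀ i, Field (K i)]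
  [∀ i, NumberField (K i)]

/-- failure at large primes -/
theorem tail (hCR : S_CR K) (hCF : S_CF K) (hRF1 : S_RF1 K) (hRF2 : S_RF2 K)
    (hodd : Odd (dg K)) (hn : 5 ≤ dg K) (κ : Ux K → ℝ) (I : FU K) : ∃ C : ℝ, 0 < C ∧
    ∀ t X : ℝ, 1 ≤ t → 1 ≤ X →
      ({M ∈ SA κ (cf I) t | ∃ p : ℕ, p.Prime ∧ X < p ∧ ¬ Loc p (cf I) M}.ncard : ℝ) ≤
        C * t * (1 + Real.log t) ^ Fintype.card s / X := by
  obtain ⟨C₁, hC₁, h1⟩ := hCF hodd (by omega) κ
  obtain ⟨C₂, hC₂, h2⟩ := hRF1 hodd (by omega) κ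
  obtain ⟨C₃, hC₃, h3⟩ := hRF2 hodd hn κ I
  set N : ℝ := ((nA (cf I) : ℚ) : ℝ) ^ 2 with hN
  have hN0 : 0 < N := by
    have : 0 < nA (cf I) := nA_pos fun i => Units.ne_zero (I i)
    positivity
  set A : ℝ := 1 + Real.log (2 * (1 + 1 / N)) with hA
  have hA1 : 1 ≤ A := by
    have : 0 ≤ Real.log (2 * (1 + 1 / N)) := by
      refine Real.log_nonneg ?_
      have : 0 ≤ 1 / N := by positivity
      linarith
    linarith
  have hcomp : ∀ t : ℝ, 1 ≤ t → t / N * (1 + Real.log (1 + t / N)) ^ (Fintype.card s - 1) ≤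
      (A ^ (Fintype.card s - 1) / N) * (t * (1 + Real.log t) ^ Fintype.card s) := by
    intro t ht
    have hl : 0 ≤ Real.log t := Real.log_nonneg ht
    have e1 : Real.log (1 + t / N) ≤ Real.log (2 * (1 + 1 / N)) + Real.log t := by
      rw [← Real.log_mul (by positivity) (by positivity)]
      refine Real.log_le_log (by positivity) ?_
      have : t / N = 1 / N * t := by ring
      rw [this]
      have h0 : 0 ≤ 1 / N := by positivity
      nlinarith
    have e0 : 0 ≤ Real.log (1 + t / N) := Real.log_nonneg (by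
      have : 0 ≤ t / N := by positivity
      linarith)
    have e2 : 1 + Real.log (1 + t / N) ≤ A * (1 + Real.log t) := by
      have : 0 ≤ (A - 1) * Real.log t := mul_nonneg (by linarith) hl
      nlinarith
    have e3 : (1 + Real.log (1 + t / N)) ^ (Fintype.card s - 1) ≤
        (A * (1 + Real.log t)) ^ (Fintype.card s - 1) := pow_le_pow_left₀ (by linarith) e2 _
    have e4 : (1 + Real.log t) ^ (Fintype.card s - 1) ≤ (1 + Real.log t) ^ Fintype.card s :=
      pow_le_pow_right₀ (by linarith) (by omega)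
    calc t / N * (1 + Real.log (1 + t / N)) ^ (Fintype.card s - 1) ≤
        t / N * (A * (1 + Real.log t)) ^ (Fintype.card s - 1) := by gcongr
      _ = (A ^ (Fintype.card s - 1) / N) * (t * (1 + Real.log t) ^ (Fintype.card s - 1)) := by
          rw [mul_pow]; ring
      _ ≤ _ := by gcongr
  set B : ℝ := A ^ (Fintype.card s - 1) / N with hB
  have hB0 : 0 < B := by positivity
  refine ⟨C₁ * B + C₂ * B + C₃, by positivity, fun t X ht hX => ?_⟩
  have hfin := SA_finite hodd (by omega) hCR κ I t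
  have hsub : {M ∈ SA κ (cf I) t | ∃ p : ℕ, p.Prime ∧ X < p ∧ ¬ Loc p (cf I) M} ⊆
      ({M ∈ SA κ (cf I) t | ∃ p : ℕ, p.Prime ∧ X < p ∧ Cf p (cf I) M} ∪
      {M ∈ SA κ (cf I) t | ∃ p : ℕ, p.Prime ∧ X < p ∧ ∃ m ≤ dg K, dg K + 3 ≤ 2 * m ∧
        Rf p m (cf I) M}) ∪
      {M ∈ SA κ (cf I) t | ∃ p : ℕ, p.Prime ∧ X < p ∧ ∃ m, 2 * m = dg K + 1 ∧
        Rf p m (cf I) M} := by
    rintro M ⟨hM, p, hp, hpX, hl⟩
    unfold Loc at hl
    rw [not_and_or, not_not] at hl
    rcases hl with hl | hl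
    · exact Or.inl (Or.inl ⟨hM, p, hp, hpX, hl⟩)
    · push Not at hl
      obtain ⟨m, hm1, hm2, hm3⟩ := hl
      obtain ⟨d, hd⟩ := hodd
      by_cases hm : 2 * m = dg K + 1
      · exact Or.inr ⟨hM, p, hp, hpX, m, hm, hm3⟩
      · exact Or.inl (Or.inr ⟨hM, p, hp, hpX, m, hm1, by omega, hm3⟩)
  have hle : ({M ∈ SA κ (cf I) t | ∃ p : ℕ, p.Prime ∧ X < p ∧ ¬ Loc p (cf I) M}.ncard : ℝ) ≤
      ({M ∈ SA κ (cf I) t | ∃ p : ℕ, p.Prime ∧ X < p ∧ Cf p (cf I) M}.ncard : ℝ) +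
      ({M ∈ SA κ (cf I) t | ∃ p : ℕ, p.Prime ∧ X < p ∧ ∃ m ≤ dg K, dg K + 3 ≤ 2 * m ∧
        Rf p m (cf I) M}.ncard : ℝ) +
      ({M ∈ SA κ (cf I) t | ∃ p : ℕ, p.Prime ∧ X < p ∧ ∃ m, 2 * m = dg K + 1 ∧
        Rf p m (cf I) M}.ncard : ℝ) := by
    have h4 := Set.ncard_le_ncard hsub (hfin.subset (by
      rintro M ((h | h) | h) <;> exact h.1))
    have h5 := Set.ncard_union_le ({M ∈ SA κ (cf I) t | ∃ p : ℕ, p.Prime ∧ X < p ∧ Cf p (cf I) M} ∪
      {M ∈ SA κ (cf I) t | ∃ p : ℕ, p.Prime ∧ X < p ∧ ∃ m ≤ dg K, dg K + 3 ≤ 2 * m ∧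
        Rf p m (cf I) M}) {M ∈ SA κ (cf I) t | ∃ p : ℕ, p.Prime ∧ X < p ∧
          ∃ m, 2 * m = dg K + 1 ∧ Rf p m (cf I) M}
    have h6 := Set.ncard_union_le {M ∈ SA κ (cf I) t | ∃ p : ℕ, p.Prime ∧ X < p ∧ Cf p (cf I) M}
      {M ∈ SA κ (cf I) t | ∃ p : ℕ, p.Prime ∧ X < p ∧ ∃ m ≤ dg K, dg K + 3 ≤ 2 * m ∧
        Rf p m (cf I) M}
    exact_mod_cast h4.trans (h5.trans (Nat.add_le_add_right h6 _))
  refine hle.trans ?_
  have g1 := h1 I t X (by linarith) hX
  have g2 := h2 I t X (by linarith) hX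
  have g3 := h3 t X ht hX
  have g := hcomp t ht
  have hX0 : 0 < X := by linarith
  set Q : ℝ := t * (1 + Real.log t) ^ Fintype.card s with hQ
  have g1' : C₁ * (t / N) * (1 + Real.log (1 + t / N)) ^ (Fintype.card s - 1) / X ≤
      C₁ * B * Q / X := by
    have : C₁ * (t / N) * (1 + Real.log (1 + t / N)) ^ (Fintype.card s - 1) =
      C₁ * (t / N * (1 + Real.log (1 + t / N)) ^ (Fintype.card s - 1)) := by ring
    rw [this, mul_assoc C₁ B Q]
    gcongr
  have g2' : C₂ * (t / N) * (1 + Real.log (1 + t / N)) ^ (Fintype.card s - 1) / X ≤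
      C₂ * B * Q / X := by
    have : C₂ * (t / N) * (1 + Real.log (1 + t / N)) ^ (Fintype.card s - 1) =
      C₂ * (t / N * (1 + Real.log (1 + t / N)) ^ (Fintype.card s - 1)) := by ring
    rw [this, mul_assoc C₂ B Q]
    gcongr
  calc _ ≤ C₁ * B * Q / X + C₂ * B * Q / X + C₃ * t * (1 + Real.log t) ^ Fintype.card s / X :=
        add_le_add (add_le_add (g1.trans g1') (g2.trans g2')) g3
    _ = _ := by rw [hQ]; ring

variable (K) in
/-- the sum over the cells -/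
noncomputable def FF (κ : Ux K → ℝ) (i₀ : s) (I : FU K) (Q : ℝ → Submodule ℤ (Al K) → Prop)
    (k : s → ℤ) (t : ℝ) : ℝ :=
  ({M ∈ SY κ i₀ (cf I) (yy (wt K) i₀ k t) | (∀ p : ℕ, p.Prime → (p : ℝ) ≤ (1 + Real.log t) ^ 2 →
    Loc p (cf I) M) ∧ Q t M}.ncard : ℝ)

/-- one class, general condition -/
theorem class_gen (hT1 : S_T1 K) (hCEL : S_CEL K) (hPAR : S_PAR K) (hABS : S_ABS)
    (hCR : S_CR K) (hCF : S_CF K) (hRF1 : S_RF1 K) (hRF2 : S_RF2 K)
    (hodd : Odd (dg K)) (hn : 5 ≤ dg K) (κ : Ux K → ℝ) (i₀ : s) (I : FU K)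
    (Q : ℝ → Submodule ℤ (Al K) → Prop)
    (hM : ∀ η : ℝ, 0 < η → ∃ ℓ X₀ : ℝ, ∀ (X : ℝ) (y : s → ℝ), X₀ ≤ X →
      (∀ i, X ≤ Real.exp (y i)) →
      |({M ∈ SY κ i₀ (cf I) y | (∀ p : ℕ, p.Prime → (p : ℝ) ≤ X → Loc p (cf I) M) ∧
        Q (tt (K := K) y) M}.ncard : ℝ) / tt (K := K) y - ℓ| ≤ η)
    (hJ : ∀ j : s, finrank ℚ (K j) = 1 → ∀ η : ℝ, 0 < η → ∃ ℓ X₀ : ℝ, ∀ (X : ℝ) (y : s → ℝ),
      X₀ ≤ X → X ≤ Real.exp (-(y j)) → (∀ i, i ≠ j → X ≤ Real.exp (y i + y j)) →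
      |({M ∈ SY κ i₀ (cf I) y | (∀ p : ℕ, p.Prime → (p : ℝ) ≤ X → Loc p (cf I) M) ∧
        Q (tt (K := K) y) M}.ncard : ℝ) / tt (K := K) y - ℓ| ≤ η) :
    ∃ c : ℝ, 0 ≤ c ∧ Tendsto (fun t : ℝ => ({M ∈ SA κ (cf I) t |
      (∀ p : ℕ, p.Prime → Loc p (cf I) M) ∧ Q t M}.ncard : ℝ) /
        (t * Real.log t ^ (Fintype.card s - 1))) atTop (𝓝 c) ∧
      ((∃ η ℓ X₀ : ℝ, 0 < η ∧ η < ℓ ∧ ∀ (X : ℝ) (y : s → ℝ), X₀ ≤ X →
        (∀ i, X ≤ Real.exp (y i)) →
        |({M ∈ SY κ i₀ (cf I) y | (∀ p : ℕ, p.Prime → (p : ℝ) ≤ X → Loc p (cf I) M) ∧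
          Q (tt (K := K) y) M}.ncard : ℝ) / tt (K := K) y - ℓ| ≤ η) → 0 < c) := by
  classical
  have : Nonempty s := ⟨i₀⟩
  obtain ⟨C₁, hC₁, hT⟩ := hT1 hodd (by omega) κ i₀ I
  obtain ⟨C₀, hC₀, hcel⟩ := hCEL hodd (by omega) κ i₀ I
  obtain ⟨Ct, hCt, htail⟩ := tail hCR hCF hRF1 hRF2 hodd hn κ I
  have hw := fun i : s => one_le_wt (K := K) i
  have hw0 : ∀ i : s, 0 < wt K i := fun i => by linarith [hw i]
  have hsumw : (3 : ℝ) ≤ ∑ i, wt K i := by
    rw [sum_wt]
    exact_mod_cast (by omega : 3 ≤ dg K)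
  set F := FF K κ i₀ I Q with hF
  set Y : (s → ℤ) → ℝ → s → ℝ := fun k t => yy (wt K) i₀ k t with hY
  have hF0 : ∀ k t, 0 ≤ F k t := fun k t => Nat.cast_nonneg _
  have hFle : ∀ k t, 1 ≤ t → F k t ≤ C₁ * t := by
    intro k t ht
    obtain ⟨⟨hfin, hle⟩, -⟩ := hT (Y k t)
    rw [tt_yy i₀ k (by linarith)] at hle
    refine le_trans ?_ hle
    rw [hF]
    unfold FF
    have hsub : {M ∈ SY κ i₀ (cf I) (yy (wt K) i₀ k t) | (∀ p : ℕ, p.Prime →
        (p : ℝ) ≤ (1 + Real.log t) ^ 2 → Loc p (cf I) M) ∧ Q t M} ⊆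
        SY κ i₀ (cf I) (yy (wt K) i₀ k t) := fun M hM => hM.1
    exact_mod_cast Set.ncard_le_ncard hsub hfin
  have hFne : ∀ k t, F k t ≠ 0 → ∃ j, (2 ≤ finrank ℚ (K j) → -C₀ ≤ Y k t j) ∧
      ∀ i, i ≠ j → -C₀ ≤ Y k t i ∧ -C₀ ≤ Y k t i + Y k t j := by
    intro k t hne
    refine hcel (Y k t) ?_
    by_contra hcon
    rw [Set.not_nonempty_iff_eq_empty] at hcon
    apply hne
    rw [hF]
    unfold FF
    have : SY κ i₀ (cf I) (yy (wt K) i₀ k t) = ∅ := hcon
    rw [this]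
    simp
  -- main part
  set Fm : (s → ℤ) → ℝ → ℝ := fun k t => if ∀ i, -C₀ ≤ Y k t i then F k t else 0 with hFm
  set Fj : s → (s → ℤ) → ℝ → ℝ := fun j k t => if Y k t j < -C₀ then F k t else 0 with hFj
  -- limits on good cells
  have hgm : ∀ (η ℓ X₀ : ℝ), (∀ (X : ℝ) (y : s → ℝ), X₀ ≤ X → (∀ i, X ≤ Real.exp (y i)) →
      |({M ∈ SY κ i₀ (cf I) y | (∀ p : ℕ, p.Prime → (p : ℝ) ≤ X → Loc p (cf I) M) ∧
        Q (tt (K := K) y) M}.ncard : ℝ) / tt (K := K) y - ℓ| ≤ η) →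
      ∀ ε : ℝ, 0 < ε → ∃ t₀ : ℝ, ∀ t, t₀ ≤ t → ∀ k : s → ℤ, k i₀ = 0 →
      (∀ l, ε * Real.log t ≤ ∑ i, am l i * yy (wt K) i₀ k t i) → |Fm k t / t - ℓ| ≤ η := by
    intro η ℓ X₀ h ε hε
    obtain ⟨t₁, ht₁, h1⟩ := ev_pow ε hε
    obtain ⟨t₂, ht₂, h2⟩ := ev_log X₀
    refine ⟨max t₁ t₂, fun t ht k hk hl => ?_⟩
    have ht1 : 1 ≤ t := ht₁.trans ((le_max_left _ _).trans ht)
    have hlog : 0 ≤ Real.log t := Real.log_nonneg ht1
    simp_rw [sum_am] at hl
    have hcond : ∀ i, -C₀ ≤ Y k t i := fun i => by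
      have := hl i
      have : 0 ≤ ε * Real.log t := by positivity
      linarith
    have h3 := h ((1 + Real.log t) ^ 2) (Y k t) (h2 t ((le_max_right _ _).trans ht)) fun i =>
      (h1 t ((le_max_left _ _).trans ht)).trans (Real.exp_le_exp.2 (hl i))
    rw [tt_yy i₀ k (by linarith)] at h3
    rw [hFm]
    simp only
    rw [if_pos hcond]
    exact h3
  have hgj : ∀ (j : s) (η ℓ X₀ : ℝ), (∀ (X : ℝ) (y : s → ℝ), X₀ ≤ X → X ≤ Real.exp (-(y j)) →
      (∀ i, i ≠ j → X ≤ Real.exp (y i + y j)) →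
      |({M ∈ SY κ i₀ (cf I) y | (∀ p : ℕ, p.Prime → (p : ℝ) ≤ X → Loc p (cf I) M) ∧
        Q (tt (K := K) y) M}.ncard : ℝ) / tt (K := K) y - ℓ| ≤ η) →
      ∀ ε : ℝ, 0 < ε → ∃ t₀ : ℝ, ∀ t, t₀ ≤ t → ∀ k : s → ℤ, k i₀ = 0 →
      (∀ l, ε * Real.log t ≤ ∑ i, aj j l i * yy (wt K) i₀ k t i) → |Fj j k t / t - ℓ| ≤ η := by
    intro j η ℓ X₀ h ε hε
    obtain ⟨t₁, ht₁, h1⟩ := ev_pow ε hε
    obtain ⟨t₂, ht₂, h2⟩ := ev_log X₀
    obtain ⟨t₃, ht₃, h3⟩ := ev_lin ε C₀ hε
    refine ⟨max (max t₁ t₂) t₃, fun t ht k hk hl => ?_⟩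
    have ht12 : max t₁ t₂ ≤ t := (le_max_left _ _).trans ht
    have ht1 : 1 ≤ t := ht₁.trans ((le_max_left _ _).trans ht12)
    have hj1 : ε * Real.log t ≤ -(Y k t j) := by
      have := hl j
      rwa [sum_aj_self] at this
    have hj2 : ∀ i, i ≠ j → ε * Real.log t ≤ Y k t i + Y k t j := fun i hi => by
      have := hl i
      rwa [sum_aj_ne j i hi] at this
    have h4 := h ((1 + Real.log t) ^ 2) (Y k t) (h2 t ((le_max_right _ _).trans ht12))
      ((h1 t ((le_max_left _ _).trans ht12)).trans (Real.exp_le_exp.2 hj1)) fun i hi =>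
        (h1 t ((le_max_left _ _).trans ht12)).trans (Real.exp_le_exp.2 (hj2 i hi))
    rw [tt_yy i₀ k (by linarith)] at h4
    rw [hFj]
    simp only
    rw [if_pos (by have := h3 t ((le_max_right _ _).trans ht); linarith)]
    exact h4
  -- summation
  obtain ⟨Vm, hVm, habsm⟩ := hABS s s i₀ (wt K) am hw0 (am_bdd (wt K) hw) (am_int (wt K) hw)
  obtain ⟨cm', hcm0, hcm1, hcm2⟩ := habsm Fm (max C₁ C₀)
    (fun k t => by rw [hFm]; simp only; split_ifs; exacts [hF0 k t, le_rfl])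
    (fun k t ht => by
      rw [hFm]; simp only
      split_ifs
      · exact (hFle k t ht).trans (by gcongr; exact le_max_left _ _)
      · have : 0 ≤ max C₁ C₀ := hC₁.le.trans (le_max_left _ _)
        positivity)
    (fun k t ht hne l => by
      rw [sum_am]
      by_cases hc : ∀ i, -C₀ ≤ Y k t i
      · exact (neg_le_neg (le_max_right _ _)).trans (hc l)
      · exfalso; apply hne; rw [hFm]; simp only; rw [if_neg hc])
    (fun η hη => by
      obtain ⟨ℓ, X₀, h⟩ := hM η hη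
      exact ⟨ℓ, hgm η ℓ X₀ h⟩)
  have habsj : ∀ j : s, finrank ℚ (K j) = 1 → ∃ cj : ℝ, 0 ≤ cj ∧ Tendsto (fun t : ℝ =>
      (∑ᶠ k ∈ {k : s → ℤ | k i₀ = 0}, Fj j k t) / (t * Real.log t ^ (Fintype.card s - 1)))
      atTop (𝓝 cj) := by
    intro j hj
    have hwj : wt K j = 1 := by unfold wt; exact_mod_cast hj
    obtain ⟨V, hV, habs⟩ := hABS s s i₀ (wt K) (aj j) hw0 (aj_bdd (wt K) hw j hwj hsumw)
      (aj_int (wt K) hw j hwj hsumw)
    obtain ⟨c, hc0, -, hc2⟩ := habs (Fj j) (max C₁ C₀)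
      (fun k t => by rw [hFj]; simp only; split_ifs; exacts [hF0 k t, le_rfl])
      (fun k t ht => by
        rw [hFj]; simp only
        split_ifs
        · exact (hFle k t ht).trans (by gcongr; exact le_max_left _ _)
        · have : 0 ≤ max C₁ C₀ := hC₁.le.trans (le_max_left _ _)
          positivity)
      (fun k t ht hne l => by
        have hc : Y k t j < -C₀ := by
          by_contra hc
          apply hne; rw [hFj]; simp only; rw [if_neg hc]
        have hne' : F k t ≠ 0 := by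
          intro h0
          apply hne; rw [hFj]; simp only; rw [h0]; simp
        obtain ⟨j', h1, h2⟩ := hFne k t hne'
        have hjj : j = j' := by
          by_contra hcon
          have := (h2 j hcon).1
          linarith
        subst hjj
        have hmax : C₀ ≤ max C₁ C₀ := le_max_right _ _
        by_cases hl : l = j
        · rw [hl, sum_aj_self]
          have : Y k t j = yy (wt K) i₀ k t j := rfl
          linarith
        · rw [sum_aj_ne j l hl]
          have := (h2 l hl).2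
          have e : Y k t l + Y k t j = yy (wt K) i₀ k t l + yy (wt K) i₀ k t j := rfl
          linarith)
      (fun η hη => by
        obtain ⟨ℓ, X₀, h⟩ := hJ j hj η hη
        exact ⟨ℓ, hgj j η ℓ X₀ h⟩)
    exact ⟨c * V, by positivity, hc2⟩
  choose! cj hcj0 hcj2 using habsj
  -- the splitting
  set J : Finset s := univ.filter fun j => finrank ℚ (K j) = 1 with hJdef
  have hsplit : ∀ k t, F k t = Fm k t + ∑ j ∈ J, Fj j k t := by
    intro k t
    by_cases hne : F k t = 0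
    · rw [hFm, hFj]; simp only
      rw [hne]; simp
    · obtain ⟨j', h1, h2⟩ := hFne k t hne
      by_cases hc : -C₀ ≤ Y k t j'
      · have hall : ∀ i, -C₀ ≤ Y k t i := fun i => by
          by_cases hi : i = j'
          · rw [hi]; exact hc
          · exact (h2 i hi).1
        have e1 : Fm k t = F k t := by rw [hFm]; simp only; rw [if_pos hall]
        have e2 : ∑ j ∈ J, Fj j k t = 0 := Finset.sum_eq_zero fun j _ => by
          rw [hFj]; simp only; rw [if_neg (not_lt.2 (hall j))]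
        rw [e1, e2, add_zero]
      · have hfr : finrank ℚ (K j') = 1 := by
          have := finrank_pos (R := ℚ) (M := K j')
          by_contra hcon
          exact hc (h1 (by omega))
        have e1 : Fm k t = 0 := by rw [hFm]; simp only; rw [if_neg fun h => hc (h j')]
        have e2 : ∑ j ∈ J, Fj j k t = F k t := by
          rw [Finset.sum_eq_single j']
          · rw [hFj]; simp only; rw [if_pos (not_le.1 hc)]
          · intro j _ hj
            rw [hFj]; simp only; rw [if_neg (not_lt.2 (h2 j hj).1)]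
          · intro hj
            exact (hj (by rw [hJdef]; exact Finset.mem_filter.2 ⟨mem_univ _, hfr⟩)).elim
        rw [e1, e2, zero_add]
  have hsupp : ∀ t : ℝ, 0 < t → ({k : s → ℤ | k i₀ = 0} ∩ Function.support fun k => F k t).Finite := by
    intro t ht
    refine (cells_finite hodd (by omega) hCR κ i₀ I ht).subset ?_
    rintro k ⟨hk, hne⟩
    refine ⟨hk, ?_⟩
    by_contra hcon
    rw [Set.not_nonempty_iff_eq_empty] at hcon
    apply hne
    show F k t = 0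
    rw [hF]; unfold FF; rw [hcon]; simp
  have hsum : ∀ t : ℝ, 0 < t → ∑ᶠ k ∈ {k : s → ℤ | k i₀ = 0}, F k t =
      (∑ᶠ k ∈ {k : s → ℤ | k i₀ = 0}, Fm k t) +
        ∑ j ∈ J, ∑ᶠ k ∈ {k : s → ℤ | k i₀ = 0}, Fj j k t := by
    intro t ht
    have hfin := hsupp t ht
    have hsub : ∀ g : (s → ℤ) → ℝ, (∀ k, F k t = 0 → g k = 0) →
        ∑ᶠ k ∈ {k : s → ℤ | k i₀ = 0}, g k = ∑ k ∈ hfin.toFinset, g k := by
      intro g hg
      refine finsum_mem_eq_sum_of_inter_support_eq _ ?_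
      ext k
      simp only [Set.mem_inter_iff, Function.mem_support, Set.Finite.coe_toFinset]
      constructor
      · rintro ⟨h1, h2⟩
        exact ⟨⟨h1, fun h => h2 (hg k h)⟩, h2⟩
      · rintro ⟨⟨h1, _⟩, h2⟩
        exact ⟨h1, h2⟩
    rw [hsub _ fun k h => h, hsub _ fun k h => by rw [hFm]; simp only; rw [h]; simp,
      Finset.sum_congr rfl fun j _ => hsub (fun k => Fj j k t) fun k h => by
        rw [hFj]; simp only; rw [h]; simp]
    rw [Finset.sum_comm, ← Finset.sum_add_distrib]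
    exact Finset.sum_congr rfl fun k _ => hsplit k t
  have hlimF : Tendsto (fun t : ℝ => (∑ᶠ k ∈ {k : s → ℤ | k i₀ = 0}, F k t) /
      (t * Real.log t ^ (Fintype.card s - 1))) atTop (𝓝 (cm' * Vm + ∑ j ∈ J, cj j)) := by
    have h1 := hcm2.add (tendsto_finsetSum J fun j hj => hcj2 j (Finset.mem_filter.1 hj).2)
    refine h1.congr' ?_
    filter_upwards [eventually_gt_atTop 0] with t ht
    show _ = (∑ᶠ k ∈ {k : s → ℤ | k i₀ = 0}, F k t) / (t * Real.log t ^ (Fintype.card s - 1))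
    rw [hsum t ht, add_div, Finset.sum_div]
    rfl
  refine ⟨cm' * Vm + ∑ j ∈ J, cj j, ?_, ?_, ?_⟩
  · have : 0 ≤ ∑ j ∈ J, cj j := Finset.sum_nonneg fun j hj => hcj0 j (Finset.mem_filter.1 hj).2
    positivity
  · -- remove the large primes
    have hdiff : Tendsto (fun t : ℝ => (∑ᶠ k ∈ {k : s → ℤ | k i₀ = 0}, F k t) /
        (t * Real.log t ^ (Fintype.card s - 1)) - ({M ∈ SA κ (cf I) t |
          (∀ p : ℕ, p.Prime → Loc p (cf I) M) ∧ Q t M}.ncard : ℝ) /
            (t * Real.log t ^ (Fintype.card s - 1))) atTop (𝓝 0) := by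
      have hup : Tendsto (fun t : ℝ => Ct * 2 ^ Fintype.card s / Real.log t) atTop (𝓝 0) :=
        tendsto_const_nhds.div_atTop Real.tendsto_log_atTop
      refine tendsto_of_tendsto_of_tendsto_of_le_of_le' tendsto_const_nhds hup ?_ ?_
      all_goals
        filter_upwards [eventually_ge_atTop (Real.exp 1)] with t ht
        have ht0 : 0 < t := lt_of_lt_of_le (Real.exp_pos _) ht
        have hlog : 1 ≤ Real.log t := by
          rw [← Real.log_exp 1]; exact Real.log_le_log (Real.exp_pos _) ht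
        have ht1 : 1 ≤ t := (Real.one_le_exp (by norm_num)).trans ht
        have hden : 0 < t * Real.log t ^ (Fintype.card s - 1) := by positivity
        have hpar := hPAR hodd (by omega) κ i₀ (cf I) t ht0
          (SA_finite hodd (by omega) hCR κ I t) (fun M => (∀ p : ℕ, p.Prime →
            (p : ℝ) ≤ (1 + Real.log t) ^ 2 → Loc p (cf I) M) ∧ Q t M)
        have e : ∑ᶠ k ∈ {k : s → ℤ | k i₀ = 0}, F k t = ({M ∈ SA κ (cf I) t | (∀ p : ℕ, p.Prime →
            (p : ℝ) ≤ (1 + Real.log t) ^ 2 → Loc p (cf I) M) ∧ Q t M}.ncard : ℝ) := hpar.symm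
        have hfin := SA_finite hodd (by omega : 3 ≤ dg K) hCR κ I t
      · show 0 ≤ (∑ᶠ k ∈ {k : s → ℤ | k i₀ = 0}, F k t) /
          (t * Real.log t ^ (Fintype.card s - 1)) - ({M ∈ SA κ (cf I) t |
          (∀ p : ℕ, p.Prime → Loc p (cf I) M) ∧ Q t M}.ncard : ℝ) /
            (t * Real.log t ^ (Fintype.card s - 1))
        rw [e, ← sub_div]
        apply div_nonneg _ hden.le
        rw [sub_nonneg]
        have hs1 : {M ∈ SA κ (cf I) t | (∀ p : ℕ, p.Prime → Loc p (cf I) M) ∧ Q t M} ⊆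
            {M ∈ SA κ (cf I) t | (∀ p : ℕ, p.Prime →
              (p : ℝ) ≤ (1 + Real.log t) ^ 2 → Loc p (cf I) M) ∧ Q t M} :=
          fun M hM => ⟨hM.1, fun p hp _ => hM.2.1 p hp, hM.2.2⟩
        exact_mod_cast Set.ncard_le_ncard hs1 (hfin.subset fun M hM => hM.1)
      · have hsub2 : {M ∈ SA κ (cf I) t | (∀ p : ℕ, p.Prime →
            (p : ℝ) ≤ (1 + Real.log t) ^ 2 → Loc p (cf I) M) ∧ Q t M} ⊆
            {M ∈ SA κ (cf I) t | (∀ p : ℕ, p.Prime → Loc p (cf I) M) ∧ Q t M} ∪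
            {M ∈ SA κ (cf I) t | ∃ p : ℕ, p.Prime ∧ (1 + Real.log t) ^ 2 < p ∧
              ¬ Loc p (cf I) M} := by
          rintro M ⟨h1, h2, h3⟩
          by_cases h : ∀ p : ℕ, p.Prime → Loc p (cf I) M
          · exact Or.inl ⟨h1, h, h3⟩
          · push Not at h
            obtain ⟨p, hp, hl⟩ := h
            refine Or.inr ⟨h1, p, hp, ?_, hl⟩
            by_contra hcon
            exact hl (h2 p hp (not_lt.1 hcon))
        have h5 : ({M ∈ SA κ (cf I) t | (∀ p : ℕ, p.Prime →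
            (p : ℝ) ≤ (1 + Real.log t) ^ 2 → Loc p (cf I) M) ∧ Q t M}.ncard : ℝ) ≤
            ({M ∈ SA κ (cf I) t | (∀ p : ℕ, p.Prime → Loc p (cf I) M) ∧ Q t M}.ncard : ℝ) +
            ({M ∈ SA κ (cf I) t | ∃ p : ℕ, p.Prime ∧ (1 + Real.log t) ^ 2 < p ∧
              ¬ Loc p (cf I) M}.ncard : ℝ) := by
          have h6 := Set.ncard_le_ncard hsub2 (hfin.subset (by rintro M (h | h) <;> exact h.1))
          exact_mod_cast h6.trans (Set.ncard_union_le _ _)
        have h7 := htail t ((1 + Real.log t) ^ 2) ht1 (by nlinarith)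
        show (∑ᶠ k ∈ {k : s → ℤ | k i₀ = 0}, F k t) /
          (t * Real.log t ^ (Fintype.card s - 1)) - ({M ∈ SA κ (cf I) t |
          (∀ p : ℕ, p.Prime → Loc p (cf I) M) ∧ Q t M}.ncard : ℝ) /
            (t * Real.log t ^ (Fintype.card s - 1)) ≤ Ct * 2 ^ Fintype.card s / Real.log t
        rw [e, ← sub_div, div_le_iff₀ hden]
        have h8 : Ct * t * (1 + Real.log t) ^ Fintype.card s / (1 + Real.log t) ^ 2 ≤
            Ct * 2 ^ Fintype.card s / Real.log t * (t * Real.log t ^ (Fintype.card s - 1)) := by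
          have hcard : 1 ≤ Fintype.card s := Fintype.card_pos
          obtain ⟨r, hr⟩ : ∃ r, Fintype.card s = r + 1 := ⟨Fintype.card s - 1, by omega⟩
          rw [hr, Nat.add_sub_cancel]
          rw [div_le_iff₀ (by positivity)]
          have e9 : Ct * 2 ^ (r + 1) / Real.log t * (t * Real.log t ^ r) * (1 + Real.log t) ^ 2 =
              Ct * t * (2 ^ (r + 1) * Real.log t ^ r * (1 + Real.log t) ^ 2 / Real.log t) := by
            ring
          rw [e9]
          have h10 : (1 + Real.log t) ^ (r + 1) ≤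
              2 ^ (r + 1) * Real.log t ^ r * (1 + Real.log t) ^ 2 / Real.log t := by
            rw [le_div_iff₀ (by linarith)]
            have h11 : (1 + Real.log t) ^ (r + 1) ≤ (2 * Real.log t) ^ (r + 1) :=
              pow_le_pow_left₀ (by linarith) (by linarith) _
            have h12 : (2 * Real.log t) ^ (r + 1) * Real.log t =
                2 ^ (r + 1) * Real.log t ^ r * Real.log t ^ 2 := by ring
            calc (1 + Real.log t) ^ (r + 1) * Real.log t ≤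
                (2 * Real.log t) ^ (r + 1) * Real.log t := by gcongr
              _ = 2 ^ (r + 1) * Real.log t ^ r * Real.log t ^ 2 := h12
              _ ≤ 2 ^ (r + 1) * Real.log t ^ r * (1 + Real.log t) ^ 2 := by
                  gcongr
                  linarith
          gcongr
        linarith
    have := hlimF.sub hdiff
    rw [sub_zero] at this
    refine this.congr fun t => ?_
    ring
  · rintro ⟨η, ℓ, X₀, hη, hηℓ, h⟩
    have h1 := hcm1 η ℓ hη (hgm η ℓ X₀ h)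
    have h2 : 0 < cm' := by
      have := (abs_le.1 h1).1
      linarith
    have : 0 ≤ ∑ j ∈ J, cj j := Finset.sum_nonneg fun j hj => hcj0 j (Finset.mem_filter.1 hj).2
    positivity

end

end Pool.Agent.Y714.KE
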