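import Pool.Agent.Y714.KE.Asm2
import Pool.Agent.Y889.KE.Gcm
import Pool.Agent.Y977.KE.Bij

set_option autoImplicit false
set_option linter.unusedSectionVars false
set_option linter.unusedVariables false

/-! Etale algebras: the assembly, twisted heights. -/

namespace Pool.Agent.Y714.KE

open Pool.Agent.Y714.KF (FI sp ct nm pm ext br gl ubas qf bk el sg bf)
open NumberField FractionalIdeal Module Finset ComplexConjugate MeasureTheory Filter Topology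
open scoped nonZeroDivisors

section

variable {s : Type} [Fintype s] [DecidableEq s] {K : s → Type} [∀ i, Field (K i)]
  [∀ i, NumberField (K i)]

/-- a common normalisation for all regions -/
theorem exists_kappa (hNUL : S_NUL K) (hNUJ : S_NUJ K) (hodd : Odd (dg K)) (hn : 3 ≤ dg K)
    (b : Bs K) (i₀ : s) : ∃ κ : Ux K → ℝ,
      (∀ δ : ℝ, 0 < δ → volume (closure (Dc b κ i₀ δ) \ Dm b κ i₀ δ) = 0) ∧
      ∀ j : s, finrank ℚ (K j) = 1 → ∀ δ : ℝ, 0 < δ →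
        volume (closure (Dcj b κ i₀ j δ) \ Dmj b κ i₀ j δ) = 0 := by
  obtain ⟨Z, hZ, hZ2⟩ := hNUL hodd hn b i₀
  have h := fun j hj => hNUJ hodd hn b i₀ j hj
  choose Z' hZ' hZ2' using h
  have hc : ∀ l : Ux K, (Z l ∪ ⋃ j : s, ⋃ h : finrank ℚ (K j) = 1, Z' j h l).Countable := by
    intro l
    refine (hZ l).union (Set.countable_iUnion fun j => Set.countable_iUnion fun h => hZ' j h l)
  have hex : ∀ l : Ux K, ∃ x : ℝ, x ∉ Z l ∪ ⋃ j : s, ⋃ h : finrank ℚ (K j) = 1, Z' j h l :=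
    fun l => ((hc l).dense_compl ℝ).nonempty
  choose κ hκ using hex
  refine ⟨κ, hZ2 κ fun l h => hκ l (Or.inl h), fun j hj => hZ2' j hj κ fun l h => hκ l (Or.inr ?_)⟩
  exact Set.mem_iUnion.2 ⟨j, Set.mem_iUnion.2 ⟨hj, h⟩⟩

theorem rfac_one : RFac (K := K) (fun _ => (1 : ℝ)) :=
  ⟨⟨1, 1, one_pos, fun _ _ _ => ⟨le_rfl, le_rfl⟩⟩, continuousOn_const, fun _ _ _ _ _ _ => rfl,
    fun _ _ _ _ _ _ _ _ => rfl⟩

/-- bounds of the total factor -/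
theorem fac_bounds {S₀ : Finset ℕ} {ψ : (Em K → ℂ × ℂ) → ℝ} {φ : ℕ → Al K × Al K → ℝ}
    (hn : 2 ≤ dg K) (hψ : RFac ψ) (hφ : ∀ p ∈ S₀, PFac p (φ p)) :
    ∃ m M : ℝ, 0 < m ∧ ∀ P : Al K × Al K, ND P →
      m ≤ ψ (vc P) * ∏ p ∈ S₀, φ p P ∧ ψ (vc P) * ∏ p ∈ S₀, φ p P ≤ M := by
  classical
  obtain ⟨⟨mψ, Mψ, hmψ, hbψ⟩, -, -, -⟩ := id hψ
  have h1 : ∀ p : ℕ, ∃ m M : ℝ, 0 < m ∧ (p ∈ S₀ → ∀ P : Al K × Al K, ND P →
      m ≤ φ p P ∧ φ p P ≤ M) := by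
    intro p
    by_cases hp : p ∈ S₀
    · obtain ⟨⟨m', M', hm', h'⟩, -⟩ := hφ p hp
      exact ⟨m', M', hm', fun _ => h'⟩
    · exact ⟨1, 1, one_pos, fun h => absurd h hp⟩
  choose mf Mf hmf hbf using h1
  refine ⟨mψ * ∏ p ∈ S₀, mf p, Mψ * ∏ p ∈ S₀, Mf p, mul_pos hmψ (prod_pos fun p _ => hmf p),
    fun P hnd => ?_⟩
  have h2 := hbψ (vc P) (SYM_vc _) (hnd.pm_pos hn)
  have h3 : ∏ p ∈ S₀, mf p ≤ ∏ p ∈ S₀, φ p P :=
    Finset.prod_le_prod (fun p _ => (hmf p).le) fun p hp => (hbf p hp _ hnd).1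
  have h4 : ∏ p ∈ S₀, φ p P ≤ ∏ p ∈ S₀, Mf p :=
    Finset.prod_le_prod (fun p hp => (hmf p).le.trans (hbf p hp _ hnd).1)
      fun p hp => (hbf p hp _ hnd).2
  have h5 : 0 < ∏ p ∈ S₀, mf p := prod_pos fun p _ => hmf p
  exact ⟨mul_le_mul h2.1 h3 h5.le (hmψ.le.trans h2.1),
    mul_le_mul h2.2 h4 (h5.le.trans h3) ((hmψ.le.trans h2.1).trans h2.2)⟩

/-- rescaling the variable -/
theorem log_rescale (f : ℝ → ℝ) (r : ℕ) (c a : ℝ) (ha : 0 < a)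
    (h : Tendsto (fun x : ℝ => f x / (x * Real.log x ^ r)) atTop (𝓝 c)) :
    Tendsto (fun x : ℝ => f (a * x) / (x * Real.log x ^ r)) atTop (𝓝 (c * a)) := by
  have h1 : Tendsto (fun x : ℝ => a * x) atTop atTop := tendsto_id.const_mul_atTop ha
  have h2 := h.comp h1
  have h3 : Tendsto (fun x : ℝ => Real.log (a * x) / Real.log x) atTop (𝓝 1) := by
    have h4 : Tendsto (fun x : ℝ => Real.log a / Real.log x + 1) atTop (𝓝 (0 + 1)) :=
      (tendsto_const_nhds.div_atTop Real.tendsto_log_atTop).add_const 1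
    rw [zero_add] at h4
    refine h4.congr' ?_
    filter_upwards [eventually_gt_atTop 1] with x hx
    have hx0 : 0 < x := by linarith
    have : 0 < Real.log x := Real.log_pos hx
    rw [Real.log_mul ha.ne' hx0.ne']
    field_simp
  have h5 := (h2.mul ((h3.pow r).mul_const a))
  rw [one_pow, one_mul] at h5
  refine h5.congr' ?_
  filter_upwards [eventually_gt_atTop 1, eventually_gt_atTop (1 / a)] with x hx hx2
  have hx0 : 0 < x := by linarith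
  have hl : 0 < Real.log x := Real.log_pos hx
  have hax : 1 < a * x := by
    rw [div_lt_iff₀ ha] at hx2
    linarith
  have hl2 : 0 < Real.log (a * x) := Real.log_pos hax
  simp only [Function.comp]
  rw [div_pow]
  field_simp

/-- one class -/
theorem class_lim (hT1 : S_T1 K) (hCEL : S_CEL K) (hPAR : S_PAR K) (hABS : S_ABS)
    (hCR : S_CR K) (hCF : S_CF K) (hRF1 : S_RF1 K) (hRF2 : S_RF2 K) (hNUL : S_NUL K)
    (hNUJ : S_NUJ K) (hGCM : S_GCM K) (hGCJ : S_GCJ K) (hGCU : S_GCU K)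
    (hodd : Odd (dg K)) (hn : 5 ≤ dg K) (I : FU K) :
    ∃ κ : Ux K → ℝ, ∀ S₀ : Finset ℕ, (∀ p ∈ S₀, p.Prime) → ∀ ψ : (Em K → ℂ × ℂ) → ℝ, RFac ψ →
      ∀ φ : ℕ → Al K × Al K → ℝ, (∀ p ∈ S₀, PFac p (φ p)) → ∀ m : ℝ, 0 < m →
      ∃ c : ℝ, 0 ≤ c ∧ Tendsto (fun x : ℝ => ({M ∈ SA κ (cf I) x |
        (∀ p : ℕ, p.Prime → Loc p (cf I) M) ∧ TL S₀ ψ φ (m * x) M}.ncard : ℝ) /
          (x * Real.log x ^ (Fintype.card s - 1))) atTop (𝓝 c) ∧
        ((∃ P : Al K × Al K, IN P ∧ (∀ i, cn P i ≤ I i) ∧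
          ∀ p : ℕ, p.Prime → Loc p (cf I) (LT P)) → 0 < c) := by
  classical
  have hne : Nonempty s := by
    by_contra hcon
    rw [not_nonempty_iff] at hcon
    have : dg K = 0 := by unfold dg; simp
    omega
  obtain ⟨i₀⟩ := hne
  obtain ⟨b, hb⟩ := exists_bs I
  obtain ⟨κ, hκ, hκj⟩ := exists_kappa hNUL hNUJ hodd (by omega) b i₀
  refine ⟨κ, fun S₀ hS₀ ψ hψ φ hφ m hm => ?_⟩
  obtain ⟨c, hc0, hc1, -⟩ := class_gen hT1 hCEL hPAR hABS hCR hCF hRF1 hRF2 hodd hn κ i₀ I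
    (fun t M => TL S₀ ψ φ (m * t) M)
    (fun η hη => hGCM hodd hn I b hb κ i₀ hκ S₀ hS₀ ψ hψ φ hφ m hm η hη)
    (fun j hj η hη => hGCJ hodd hn I b hb κ i₀ j hj (hκj j hj) S₀ hS₀ ψ hψ φ hφ m hm η hη)
  refine ⟨c, hc0, hc1, fun hex => ?_⟩
  -- the untwisted count
  have hset : ∀ (X : ℝ) (y : s → ℝ), {M ∈ SY κ i₀ (cf I) y | (∀ p : ℕ, p.Prime →
      (p : ℝ) ≤ X → Loc p (cf I) M) ∧ TL ∅ (fun _ => (1 : ℝ)) (fun _ _ => 1)
        (1 * tt (K := K) y) M} =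
      {M ∈ SY κ i₀ (cf I) y | (∀ p : ℕ, p.Prime → (p : ℝ) ≤ X → Loc p (cf I) M) ∧ True} := by
    intro X y
    ext M
    simp only [Set.mem_ofPred_eq]
    refine and_congr_right fun hM => and_congr_right fun _ => ?_
    refine iff_of_true ?_ trivial
    obtain ⟨P, h1, h2, h3, h4, h5, h6⟩ := hM
    refine ⟨P, h1, ?_⟩
    unfold tw
    simpa using h6
  have hset2 : ∀ (X : ℝ) (y : s → ℝ), {M ∈ SY κ i₀ (cf I) y | ∀ p : ℕ, p.Prime →
      (p : ℝ) ≤ X → Loc p (cf I) M} =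
      {M ∈ SY κ i₀ (cf I) y | (∀ p : ℕ, p.Prime → (p : ℝ) ≤ X → Loc p (cf I) M) ∧ True} := by
    intro X y
    ext M
    simp
  obtain ⟨c₀, hc₀0, hc₀1, hc₀2⟩ := class_gen hT1 hCEL hPAR hABS hCR hCF hRF1 hRF2 hodd hn κ i₀ I
    (fun t M => True)
    (fun η hη => by
      obtain ⟨ℓ, X₀, h⟩ := hGCM hodd hn I b hb κ i₀ hκ ∅ (by simp) (fun _ => 1) rfac_one
        (fun _ _ => 1) (by simp) 1 one_pos η hη
      refine ⟨ℓ, X₀, fun X y h1 h2 => ?_⟩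
      have := h X y h1 h2
      rwa [hset] at this)
    (fun j hj η hη => by
      obtain ⟨ℓ, X₀, h⟩ := hGCJ hodd hn I b hb κ i₀ j hj (hκj j hj) ∅ (by simp) (fun _ => 1)
        rfac_one (fun _ _ => 1) (by simp) 1 one_pos η hη
      refine ⟨ℓ, X₀, fun X y h1 h2 h3 => ?_⟩
      have := h X y h1 h2 h3
      rwa [hset] at this)
  have hc₀pos : 0 < c₀ := by
    apply hc₀2
    obtain ⟨η, ℓ, X₀, h1, h2, h3⟩ := hGCU hodd hn I b hb κ i₀ hκ hex
    refine ⟨η, ℓ, X₀, h1, h2, fun X y h4 h5 => ?_⟩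
    have := h3 X y h4 h5
    rwa [hset2] at this
  obtain ⟨m', M', hm', hMF⟩ := fac_bounds (S₀ := S₀) (by omega : 2 ≤ dg K) hψ hφ
  obtain ⟨P₀, hP₀, hP₀I, hP₀l⟩ := hex
  set A : ℝ := max M' m with hA
  have hA0 : 0 < A := hm.trans_le (le_max_right _ _)
  -- comparison
  have hcomp : ∀ x : ℝ, 0 < x → ({M ∈ SA κ (cf I) (m / A * x) |
      (∀ p : ℕ, p.Prime → Loc p (cf I) M) ∧ True}.ncard : ℝ) ≤
      ({M ∈ SA κ (cf I) x | (∀ p : ℕ, p.Prime → Loc p (cf I) M) ∧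
        TL S₀ ψ φ (m * x) M}.ncard : ℝ) := by
    intro x hx
    refine Nat.cast_le.2 (Set.ncard_le_ncard ?_
      ((SA_finite hodd (by omega) hCR κ I x).subset fun M hM => hM.1))
    rintro M ⟨⟨P, h1, h2, h3, h4, h5⟩, h6, -⟩
    have hle : m / A * x ≤ x := by
      rw [div_mul_eq_mul_div, div_le_iff₀ hA0]
      have : m ≤ A := le_max_right _ _
      nlinarith
    refine ⟨⟨P, h1, h2, h3, h4, h5.trans hle⟩, h6, P, h1, ?_⟩
    have hg := hMF P h3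
    unfold tw
    calc pm (vc P) * (ψ (vc P) * ∏ p ∈ S₀, φ p P) ≤ (m / A * x) * A := by
          refine mul_le_mul h5 (hg.2.trans (le_max_left _ _)) (hm'.le.trans hg.1) (by positivity)
      _ = m * x := by field_simp
  have hle : c₀ * (m / A) ≤ c := by
    have h2 := log_rescale (fun x => ({M ∈ SA κ (cf I) x |
      (∀ p : ℕ, p.Prime → Loc p (cf I) M) ∧ True}.ncard : ℝ)) (Fintype.card s - 1) c₀ (m / A)
      (by positivity) hc₀1
    refine le_of_tendsto_of_tendsto h2 hc1 ?_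
    filter_upwards [eventually_gt_atTop 1] with x hx
    have hx0 : 0 < x := by linarith
    have := Real.log_pos hx
    have := hcomp x hx0
    gcongr
  exact lt_of_lt_of_le (by positivity) hle

/-- the total factor is invariant -/
theorem fac_eq2 {S₀ : Finset ℕ} {ψ : (Em K → ℂ × ℂ) → ℝ} {φ : ℕ → Al K × Al K → ℝ}
    (hn : 2 ≤ dg K) (hψ : RFac ψ) (hφ : ∀ p ∈ S₀, PFac p (φ p)) {P P' : Al K × Al K} (hP : ND P)
    (h : Eq2 P P') : ψ (vc P') * ∏ p ∈ S₀, φ p P' = ψ (vc P) * ∏ p ∈ S₀, φ p P := by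
  have h1 : ∏ p ∈ S₀, φ p P' = ∏ p ∈ S₀, φ p P :=
    Finset.prod_congr rfl fun p hp => (hφ p hp).2.1 P P' hP h
  obtain ⟨x, a, b, c, d, hx, hdet, rfl⟩ := h
  rw [h1]
  congr 1
  obtain ⟨-, -, h3, h4⟩ := hψ
  have hg : ND (glq a b c d P) := hP.glq hdet
  rw [vc_sm, h3 (vc (glq a b c d P)) (SYM_vc _) (hg.pm_pos hn) (fun e => e.2 (x e.1))
    (fun e => by
      rw [_root_.map_ne_zero]
      exact hx e.1)
    (fun i σ => by simp), vc_glq]
  have := h4 (vc P) (SYM_vc _) (hP.pm_pos hn) (a : ℝ) b c d (by exact_mod_cast hdet)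
  push_cast at this
  exact this

theorem ht_nonneg (P : Al K × Al K) : 0 ≤ ht P := by
  refine Real.sInf_nonneg ?_
  rintro r ⟨a, b, c, d, _, rfl⟩
  unfold hp
  have := KF.pm_nonneg (vc (glq a b c d P))
  positivity

end

end Pool.Agent.Y714.KE
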