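import Pool.Agent.Y714.KE.Asm3

set_option autoImplicit false
set_option linter.unusedSectionVars false
set_option linter.unusedVariables false

/-! Etale algebras: the final theorem from the jobs. -/

namespace Pool.Agent.Y714.KE

open Pool.Agent.Y714.KF (FI sp ct nm pm ext br gl ubas qf bk el sg bf)
open NumberField FractionalIdeal Module Finset ComplexConjugate MeasureTheory Filter Topology
open scoped nonZeroDivisors

section

variable {s : Type} [Fintype s] [DecidableEq s] {K : s → Type} [∀ i, Field (K i)]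
  [∀ i, NumberField (K i)]

/-- there are nondegenerate pairs -/
theorem exists_nd (hOPB : S_OPB K) (hVOL : S_VOL K) (hNUL : S_NUL K) (hNUJ : S_NUJ K)
    (hodd : Odd (dg K)) (hn : 3 ≤ dg K) : ∃ P : Al K × Al K, ND P := by
  classical
  have hne : Nonempty s := by
    by_contra hcon
    rw [not_nonempty_iff] at hcon
    have : dg K = 0 := by unfold dg; simp
    omega
  obtain ⟨i₀⟩ := hne
  obtain ⟨b, -⟩ := exists_bs (K := K) 1
  obtain ⟨κ, hκ, -⟩ := exists_kappa hNUL hNUJ hodd hn b i₀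
  obtain ⟨δ, hδ, hvol⟩ := hVOL hodd hn b κ i₀ hκ
  obtain ⟨hopen, -⟩ := hOPB hodd hn b κ i₀ δ hδ
  obtain ⟨u, hu⟩ := nonempty_of_measure_ne_zero hvol.ne'
  obtain ⟨ε, hε, hball⟩ := Metric.isOpen_iff.1 hopen u hu
  obtain ⟨N, hN⟩ := exists_nat_gt (1 / ε)
  have hN0 : (0 : ℝ) < N := lt_trans (by positivity) hN
  set y : s → ℝ := fun _ => Real.log N with hy
  set z : Ix K ⊕ Ix K → ℤ := fun k => ⌊N * u k⌋ with hz
  have hscl : scl y z = fun k => (z k : ℝ) / N := by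
    funext k
    unfold scl
    rw [hy]
    simp only
    rw [Real.exp_log hN0]
  have hmem : scl y z ∈ Dm b κ i₀ δ := by
    apply hball
    rw [hscl, mem_ball_iff_norm, pi_norm_lt_iff hε]
    intro k
    rw [Pi.sub_apply, Real.norm_eq_abs]
    have h1 := Int.floor_le (N * u k)
    have h2 := Int.lt_floor_add_one (N * u k)
    have e : (z k : ℝ) / N - u k = ((z k : ℝ) - N * u k) / N := by field_simp
    rw [e, abs_div, abs_of_pos hN0, div_lt_iff₀ hN0]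
    have h3 : |(z k : ℝ) - N * u k| ≤ 1 := by
      rw [abs_le]
      have : (z k : ℝ) = (⌊N * u k⌋ : ℝ) := rfl
      rw [this]
      constructor <;> linarith
    have h4 : 1 < ε * N := by
      rw [div_lt_iff₀ hε] at hN
      linarith
    linarith
  exact ⟨_, Pool.Agent.Y889.KE.ND_of_scl b y z hmem.2.2.2.2.1⟩

/-- **the final theorem** -/
theorem final_of (hT1 : S_T1 K) (hCEL : S_CEL K) (hPAR : S_PAR K) (hABS : S_ABS)
    (hCR : S_CR K) (hCF : S_CF K) (hRF1 : S_RF1 K) (hRF2 : S_RF2 K) (hNUL : S_NUL K)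
    (hNUJ : S_NUJ K) (hGCM : S_GCM K) (hGCJ : S_GCJ K) (hGCU : S_GCU K) (hOPB : S_OPB K)
    (hVOL : S_VOL K) (hCLS : S_CLS K) (hLOC : S_LOC K) (hDESC : S_DESC K) (hBIJ : S_BIJ K)
    (hHT : S_HT K) (hodd : Odd (dg K)) (hn : 5 ≤ dg K)
    (S₀ : Finset ℕ) (hS₀ : ∀ p ∈ S₀, p.Prime) (ψ : (Em K → ℂ × ℂ) → ℝ) (hψ : RFac ψ)
    (φ : ℕ → Al K × Al K → ℝ) (hφ : ∀ p ∈ S₀, PFac p (φ p)) :
    ∃ c : ℝ, 0 < c ∧ Tendsto (fun B : ℝ => ({C : Set (Al K × Al K) | ∃ P, ND P ∧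
      C = {P' | Eq2 P P'} ∧ ht P * (ψ (vc P) * ∏ p ∈ S₀, φ p P) ≤ B}.ncard : ℝ) /
        (B * Real.log B ^ (Fintype.card s - 1))) atTop (𝓝 c) := by
  classical
  obtain ⟨R, hR1, hR2⟩ := hCLS
  obtain ⟨m, M', hm, hmF'⟩ := fac_bounds (S₀ := S₀) (by omega : 2 ≤ dg K) hψ hφ
  have hmF : ∀ P : Al K × Al K, ND P → m ≤ ψ (vc P) * ∏ p ∈ S₀, φ p P := fun P hP => (hmF' P hP).1
  have hcl := fun I : FU K => class_lim hT1 hCEL hPAR hABS hCR hCF hRF1 hRF2 hNUL hNUJ hGCM hGCJ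
    hGCU hodd hn I
  choose κ hcl using hcl
  have hcl2 := fun I : FU K => hcl I S₀ hS₀ ψ hψ φ hφ m hm
  choose c hc0 hclim hcpos using hcl2
  have hNpos : ∀ I : FU K, 0 < ((nA (cf I) : ℚ) : ℝ) ^ 2 := fun I => by
    have : 0 < nA (cf I) := nA_pos fun i => Units.ne_zero (I i)
    positivity
  set τ : ℝ := ∏ i, (Nat.card (Units.torsion (K i)) : ℝ) with hτ
  have hτ0 : 0 < τ := by
    refine prod_pos fun i _ => ?_
    have : 0 < Nat.card (Units.torsion (K i)) := Nat.card_pos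
    exact_mod_cast this
  -- one class is positive
  obtain ⟨r₀, hr₀, hpos⟩ : ∃ r ∈ R, 0 < c r := by
    obtain ⟨P, hP⟩ := exists_nd hOPB hVOL hNUL hNUJ hodd (by omega)
    obtain ⟨Q, hQ, ⟨a, b', c', d, hdet, hQe⟩, -⟩ := hDESC hodd (by omega) P hP
    have hQnd : ND Q := by
      rw [hQe]
      exact hP.glq hdet
    have hcn : ∀ i, cn Q i ≠ 0 := cn_ne (hQnd.ne (by omega))
    obtain ⟨r, hr, x, hx⟩ := hR1 (fun i => Units.mk0 (cn Q i) (hcn i))
    have hx0 : ∀ i, x i ≠ 0 := fun i => (hx i).1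
    have hxi : ∀ i, x⁻¹ i ≠ 0 := fun i => inv_ne_zero (hx0 i)
    have hcn2 : cn (sm x⁻¹ Q) = cf r := by
      rw [cn_sm]
      funext i
      have h1 := (hx i).2
      rw [Units.val_mk0] at h1
      rw [h1, ← mul_assoc, ← KF.sp_mul]
      have : x⁻¹ i * x i = 1 := inv_mul_cancel₀ (hx0 i)
      rw [this]
      simp [cf]
    have hnd2 : ND (sm x⁻¹ Q) := hQnd.sm hxi
    refine ⟨r, hr, hcpos r ⟨sm x⁻¹ Q, hnd2.ind (by omega), ?_, ?_⟩⟩
    · intro i
      rw [hcn2]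
      exact le_rfl
    · exact (hLOC hodd r (sm x⁻¹ Q) (hnd2.ind (by omega)) (hnd2.ne (by omega))
        (fun i => by rw [hcn2]; exact le_rfl)).2 ⟨hcn2, hQ.sm hxi⟩
  refine ⟨(2 / τ) * ∑ r ∈ R, c r * (((nA (cf r) : ℚ) : ℝ) ^ 2 / m), ?_, ?_⟩
  · refine mul_pos (by positivity) (sum_pos' (fun r _ => ?_) ⟨r₀, hr₀, ?_⟩)
    · have := hNpos r; have := hc0 r; positivity
    · have := hNpos r₀; positivity
  · have hsum : Tendsto (fun B : ℝ => (2 / τ) * ∑ r ∈ R,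
        ({M ∈ SA (κ r) (cf r) (((nA (cf r) : ℚ) : ℝ) ^ 2 / m * B) |
          (∀ p : ℕ, p.Prime → Loc p (cf r) M) ∧
            TL S₀ ψ φ (m * (((nA (cf r) : ℚ) : ℝ) ^ 2 / m * B)) M}.ncard : ℝ) /
              (B * Real.log B ^ (Fintype.card s - 1)))
        atTop (𝓝 ((2 / τ) * ∑ r ∈ R, c r * (((nA (cf r) : ℚ) : ℝ) ^ 2 / m))) := by
      refine Tendsto.const_mul _ (tendsto_finsetSum _ fun r _ => ?_)
      exact log_rescale (fun x => ({M ∈ SA (κ r) (cf r) x |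
          (∀ p : ℕ, p.Prime → Loc p (cf r) M) ∧ TL S₀ ψ φ (m * x) M}.ncard : ℝ))
        (Fintype.card s - 1) (c r) (((nA (cf r) : ℚ) : ℝ) ^ 2 / m)
        (by have := hNpos r; positivity) (hclim r)
    refine hsum.congr' ?_
    filter_upwards [eventually_gt_atTop 0] with B hB
    have hset : {C : Set (Al K × Al K) | ∃ P, ND P ∧ C = {P' | Eq2 P P'} ∧
        ht P * (ψ (vc P) * ∏ p ∈ S₀, φ p P) ≤ B} =
        {C : Set (Al K × Al K) | ∃ P, ND P ∧ C = {P' | Eq2 P P'} ∧ ht P ≤ B / m ∧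
          ht P * (ψ (vc P) * ∏ p ∈ S₀, φ p P) ≤ B} := by
      ext C
      constructor
      · rintro ⟨P, h1, h2, h3⟩
        refine ⟨P, h1, h2, ?_, h3⟩
        rw [le_div_iff₀ hm]
        exact (mul_le_mul_of_nonneg_left (hmF P h1) (ht_nonneg P)).trans h3
      · rintro ⟨P, h1, h2, _, h3⟩
        exact ⟨P, h1, h2, h3⟩
    have hb := hBIJ hodd (by omega) R hR1 hR2 κ (B / m) (by positivity)
      (fun P => ht P * (ψ (vc P) * ∏ p ∈ S₀, φ p P) ≤ B) (fun P P' hP hr => by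
        rw [((hHT hodd (by omega)).2 P P' hP hr).2, fac_eq2 (by omega) hψ hφ hP hr])
    have hb' : τ * ({C : Set (Al K × Al K) | ∃ P, ND P ∧ C = {P' | Eq2 P P'} ∧ ht P ≤ B / m ∧
          ht P * (ψ (vc P) * ∏ p ∈ S₀, φ p P) ≤ B}.ncard : ℝ) =
        2 * ∑ r ∈ R, ({M ∈ SA (κ r) (cf r) (B / m * ((nA (cf r) : ℚ) : ℝ) ^ 2) |
      (∀ p : ℕ, p.Prime → Loc p (cf r) M) ∧ ∃ P : Al K × Al K, M = LT P ∧
        ht P * (ψ (vc P) * ∏ p ∈ S₀, φ p P) ≤ B}.ncard : ℝ) := by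
      rw [hτ]
      exact_mod_cast hb
    rw [hset]
    have hcount : ({C : Set (Al K × Al K) | ∃ P, ND P ∧ C = {P' | Eq2 P P'} ∧ ht P ≤ B / m ∧
          ht P * (ψ (vc P) * ∏ p ∈ S₀, φ p P) ≤ B}.ncard : ℝ) =
        (2 / τ) * ∑ r ∈ R, ({M ∈ SA (κ r) (cf r) (B / m * ((nA (cf r) : ℚ) : ℝ) ^ 2) |
      (∀ p : ℕ, p.Prime → Loc p (cf r) M) ∧ ∃ P : Al K × Al K, M = LT P ∧
        ht P * (ψ (vc P) * ∏ p ∈ S₀, φ p P) ≤ B}.ncard : ℝ) := by
      rw [div_mul_eq_mul_div, eq_div_iff hτ0.ne', mul_comm]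
      exact hb'
    rw [hcount, mul_div_assoc, Finset.sum_div]
    congr 1
    refine sum_congr rfl fun r _ => ?_
    have hsets : {M ∈ SA (κ r) (cf r) (B / m * ((nA (cf r) : ℚ) : ℝ) ^ 2) |
        (∀ p : ℕ, p.Prime → Loc p (cf r) M) ∧ ∃ P : Al K × Al K, M = LT P ∧
          ht P * (ψ (vc P) * ∏ p ∈ S₀, φ p P) ≤ B} =
        {M ∈ SA (κ r) (cf r) (((nA (cf r) : ℚ) : ℝ) ^ 2 / m * B) |
          (∀ p : ℕ, p.Prime → Loc p (cf r) M) ∧
            TL S₀ ψ φ (m * (((nA (cf r) : ℚ) : ℝ) ^ 2 / m * B)) M} := by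
      have e : B / m * ((nA (cf r) : ℚ) : ℝ) ^ 2 = ((nA (cf r) : ℚ) : ℝ) ^ 2 / m * B := by
        ring
      have e2 : m * (((nA (cf r) : ℚ) : ℝ) ^ 2 / m * B) = B * ((nA (cf r) : ℚ) : ℝ) ^ 2 := by
        field_simp
      rw [e, e2]
      ext M
      simp only [Set.mem_ofPred_eq]
      refine and_congr_right fun hM => and_congr_right fun hL => ?_
      obtain ⟨P₀, hP0, hP1, hP2, hP3, hP4⟩ := hM
      have key : ∀ P : Al K × Al K, M = LT P →
          (ht P * (ψ (vc P) * ∏ p ∈ S₀, φ p P) ≤ B ↔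
            tw S₀ ψ φ P ≤ B * ((nA (cf r) : ℚ) : ℝ) ^ 2) := by
        intro P hP
        have hLt : LT P₀ = LT P := hP0.symm.trans hP
        have hPn : ND P := (LT_inv hodd (by omega) hP2 hLt).1
        have hPc : ∀ i, cn P i ≤ cf r i := by rw [← cn_congr hLt]; exact hP1
        have hloc := (hLOC hodd r P (hPn.ind (by omega)) (hPn.ne (by omega)) hPc).1
          (by rw [← hP]; exact hL)
        rw [(hHT hodd (by omega)).1 P hPn hloc.2, hp, hloc.1,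
          div_mul_eq_mul_div, div_le_iff₀ (hNpos r)]
        rfl
      exact exists_congr fun P => and_congr_right fun hP => key P hP
    rw [hsets]

end

end Pool.Agent.Y714.KE
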