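import Pool.Agent.Y714.KE.Stm

set_option autoImplicit false
set_option linter.unusedSectionVars false
set_option linter.unusedVariables false

/-! Etale algebras: basic lemmas A (lattices and ideals). -/

namespace Pool.Agent.Y714.KE

open Pool.Agent.Y714.KF (FI sp ct nm pm ext br gl ubas qf bk el sg bf)
open NumberField FractionalIdeal Module Finset ComplexConjugate MeasureTheory Filter Topology
open scoped nonZeroDivisors

variable {s : Type} [Fintype s] [DecidableEq s] {K : s → Type} [∀ i, Field (K i)]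
  [∀ i, NumberField (K i)]

/-! ### A: lattices and ideals -/

theorem mem_LT {P : Al K × Al K} {x : Al K} : x ∈ LT P ↔ ∃ a b : ℤ, a • P.1 + b • P.2 = x := by
  rw [LT, Submodule.mem_span_pair]

theorem fst_mem_LT (P : Al K × Al K) : P.1 ∈ LT P := Submodule.subset_span (by simp)

theorem snd_mem_LT (P : Al K × Al K) : P.2 ∈ LT P := Submodule.subset_span (by simp)

theorem LT_le_iff {P : Al K × Al K} {N : Submodule ℤ (Al K)} :
    LT P ≤ N ↔ P.1 ∈ N ∧ P.2 ∈ N := by
  rw [LT, Submodule.span_le]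
  simp [Set.insert_subset_iff]

/-- integral change of basis -/
def glz (m n k l : ℤ) (P : Al K × Al K) : Al K × Al K := (m • P.1 + n • P.2, k • P.1 + l • P.2)

theorem glz_eq (m n k l : ℤ) (P : Al K × Al K) : glz m n k l P = glq (m : ℚ) n k l P := by
  simp only [glz, glq, Int.cast_smul_eq_zsmul]

theorem LT_glz (m n k l : ℤ) (h : m * l - n * k = 1 ∨ m * l - n * k = -1) (P : Al K × Al K) :
    LT (glz m n k l P) = LT P := by
  have h1 : LT (glz m n k l P) ≤ LT P := LT_le_iff.2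
    ⟨mem_LT.2 ⟨m, n, rfl⟩, mem_LT.2 ⟨k, l, rfl⟩⟩
  refine le_antisymm h1 (LT_le_iff.2 ?_)
  rcases h with h | h
  · refine ⟨mem_LT.2 ⟨l, -n, ?_⟩, mem_LT.2 ⟨-k, m, ?_⟩⟩
    · calc l • (glz m n k l P).1 + (-n) • (glz m n k l P).2 = (m * l - n * k) • P.1 := by
            simp only [glz]
            module
        _ = P.1 := by rw [h, one_smul]
    · calc (-k) • (glz m n k l P).1 + m • (glz m n k l P).2 = (m * l - n * k) • P.2 := by
            simp only [glz]
            module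
        _ = P.2 := by rw [h, one_smul]
  · refine ⟨mem_LT.2 ⟨-l, n, ?_⟩, mem_LT.2 ⟨k, -m, ?_⟩⟩
    · calc (-l) • (glz m n k l P).1 + n • (glz m n k l P).2 = (-(m * l - n * k)) • P.1 := by
            simp only [glz]
            module
        _ = P.1 := by rw [h, neg_neg, one_smul]
    · calc k • (glz m n k l P).1 + (-m) • (glz m n k l P).2 = (-(m * l - n * k)) • P.2 := by
            simp only [glz]
            module
        _ = P.2 := by rw [h, neg_neg, one_smul]

theorem IN.int {P : Al K × Al K} (hP : IN P) (a b : ℤ) (h : a • P.1 + b • P.2 = 0) :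
    a = 0 ∧ b = 0 := by
  have h1 := hP a b (by rw [Int.cast_smul_eq_zsmul, Int.cast_smul_eq_zsmul]; exact h)
  exact ⟨by exact_mod_cast h1.1, by exact_mod_cast h1.2⟩

theorem LT_mat {P Q : Al K × Al K} (hP : IN P) (h : LT P = LT Q) :
    ∃ m n k l : ℤ, (m * l - n * k = 1 ∨ m * l - n * k = -1) ∧ Q = glz m n k l P := by
  obtain ⟨m, n, h1⟩ := mem_LT.1 (h.symm ▸ fst_mem_LT Q)
  obtain ⟨k, l, h2⟩ := mem_LT.1 (h.symm ▸ snd_mem_LT Q)
  obtain ⟨m', n', h3⟩ := mem_LT.1 (h ▸ fst_mem_LT P)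
  obtain ⟨k', l', h4⟩ := mem_LT.1 (h ▸ snd_mem_LT P)
  refine ⟨m, n, k, l, ?_, Prod.ext h1.symm h2.symm⟩
  -- the product of the two matrices is the identity
  rw [← h1, ← h2] at h3 h4
  have e1 := hP.int (m' * m + n' * k - 1) (m' * n + n' * l) (by
    calc (m' * m + n' * k - 1) • P.1 + (m' * n + n' * l) • P.2 =
        (m' • (m • P.1 + n • P.2) + n' • (k • P.1 + l • P.2)) - P.1 := by module
      _ = 0 := by rw [h3, sub_self])
  have e2 := hP.int (k' * m + l' * k) (k' * n + l' * l - 1) (by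
    calc (k' * m + l' * k) • P.1 + (k' * n + l' * l - 1) • P.2 =
        (k' • (m • P.1 + n • P.2) + l' • (k • P.1 + l • P.2)) - P.2 := by module
      _ = 0 := by rw [h4, sub_self])
  have f1 : m' * m + n' * k = 1 := by have := e1.1; linarith
  have f2 : m' * n + n' * l = 0 := e1.2
  have f3 : k' * m + l' * k = 0 := e2.1
  have f4 : k' * n + l' * l = 1 := by have := e2.2; linarith
  have hdet : (m * l - n * k) * (m' * l' - n' * k') = 1 := by
    linear_combination (k' * n + l' * l) * f1 + f4 - (k' * m + l' * k) * f2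
  rcases Int.eq_one_or_neg_one_of_mul_eq_one hdet with h | h
  · exact Or.inl h
  · exact Or.inr h

theorem LT_eq {P Q : Al K × Al K} (hP : IN P) (hQ : IN Q) (h : LT P = LT Q) :
    ∃ m n k l : ℤ, (m * l - n * k = 1 ∨ m * l - n * k = -1) ∧ Q = glz m n k l P := LT_mat hP h

theorem glq_IN {P : Al K × Al K} (h : IN P) {a b c d : ℚ} (hdet : a * d - b * c ≠ 0) :
    IN (glq a b c d P) := by
  intro r t hrt
  have h1 := h (r * a + t * c) (r * b + t * d) (by
    calc (r * a + t * c) • P.1 + (r * b + t * d) • P.2 =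
        r • (glq a b c d P).1 + t • (glq a b c d P).2 := by
          simp only [glq]
          module
      _ = 0 := hrt)
  constructor
  · refine (mul_eq_zero.1 (?_ : (a * d - b * c) * r = 0)).resolve_left hdet
    linear_combination d * h1.1 - c * h1.2
  · refine (mul_eq_zero.1 (?_ : (a * d - b * c) * t = 0)).resolve_left hdet
    linear_combination a * h1.2 - b * h1.1

theorem IN_congr {P Q : Al K × Al K} (hP : IN P) (h : LT P = LT Q) : IN Q := by
  obtain ⟨m, n, k, l, hdet, rfl⟩ := LT_mat hP h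
  rw [glz_eq]
  refine glq_IN hP ?_
  rcases hdet with h | h
  · have h1 : (m : ℚ) * l - n * k = 1 := by exact_mod_cast h
    rw [h1]
    exact one_ne_zero
  · have h1 : (m : ℚ) * l - n * k = -1 := by exact_mod_cast h
    rw [h1]
    exact neg_ne_zero.2 one_ne_zero

theorem cn_le {P : Al K × Al K} {I : FA K} :
    (∀ i, cn P i ≤ I i) ↔ (∀ i, P.1 i ∈ I i) ∧ ∀ i, P.2 i ∈ I i := by
  rw [← forall_and]
  exact forall_congr' fun i => KF.ct_le

theorem LT_mem {P : Al K × Al K} {I : FA K} (h : ∀ i, cn P i ≤ I i) {x : Al K} (hx : x ∈ LT P) :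
    ∀ i, x i ∈ I i := by
  intro i
  obtain ⟨a, b, rfl⟩ := mem_LT.1 hx
  obtain ⟨h1, h2⟩ := cn_le.1 h
  have e : (a • P.1 + b • P.2) i = (a : K i) * P.1 i + (b : K i) * P.2 i := by
    rw [Pi.add_apply, Pi.smul_apply, Pi.smul_apply, zsmul_eq_mul, zsmul_eq_mul]
  rw [e]
  exact (I i : Submodule (𝓞 (K i)) (K i)).add_mem (KF.intCast_mul_mem a (h1 i))
    (KF.intCast_mul_mem b (h2 i))

theorem cn_congr {P Q : Al K × Al K} (h : LT P = LT Q) : cn P = cn Q := by
  have key : ∀ P Q : Al K × Al K, LT P = LT Q → ∀ i, cn P i ≤ cn Q i := by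
    intro P Q h
    refine cn_le.2 ⟨?_, ?_⟩
    · exact LT_mem (fun _ => le_rfl) (h ▸ fst_mem_LT P)
    · exact LT_mem (fun _ => le_rfl) (h ▸ snd_mem_LT P)
  funext i
  exact le_antisymm (key P Q h i) (key Q P h.symm i)

theorem cn_sm (x : Al K) (P : Al K × Al K) : cn (sm x P) = fun i => sp (x i) * cn P i := by
  funext i
  exact KF.ct_smul (x i) (cp P i)

theorem cn_ne {P : Al K × Al K} (h : ∀ i, P.1 i ≠ 0 ∨ P.2 i ≠ 0) (i : s) : cn P i ≠ 0 := by
  intro h0
  have h1 : P.1 i ∈ cn P i := KF.fst_mem_ct (cp P i)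
  have h2 : P.2 i ∈ cn P i := KF.snd_mem_ct (cp P i)
  rw [h0, FractionalIdeal.mem_zero_iff] at h1 h2
  rcases h i with h | h
  · exact h h1
  · exact h h2

theorem mem_LT_sm {x y : Al K} {P : Al K × Al K} :
    y ∈ LT (sm x P) ↔ ∃ z ∈ LT P, y = x * z := by
  constructor
  · intro h
    obtain ⟨a, b, rfl⟩ := mem_LT.1 h
    refine ⟨a • P.1 + b • P.2, mem_LT.2 ⟨a, b, rfl⟩, ?_⟩
    simp only [KE.sm, mul_add, mul_smul_comm]
  · rintro ⟨z, hz, rfl⟩
    obtain ⟨a, b, rfl⟩ := mem_LT.1 hz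
    refine mem_LT.2 ⟨a, b, ?_⟩
    simp only [KE.sm, mul_add, mul_smul_comm]

theorem IN.sm {P : Al K × Al K} (h : IN P) {x : Al K} (hx : ∀ i, x i ≠ 0) : IN (sm x P) := by
  intro a b hab
  refine h a b ?_
  have h1 : x * (a • P.1 + b • P.2) = 0 := by
    rw [← hab]
    simp only [KE.sm, mul_add, mul_smul_comm]
  funext i
  have h2 := congrFun h1 i
  exact (mul_eq_zero.1 h2).resolve_left (hx i)

theorem IN.glq {P : Al K × Al K} (h : IN P) {a b c d : ℚ} (hdet : a * d - b * c ≠ 0) :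
    IN (glq a b c d P) := glq_IN h hdet

theorem glq_glq (a b c d a' b' c' d' : ℚ) (P : Al K × Al K) :
    glq a b c d (glq a' b' c' d' P) = glq (a * a' + b * c') (a * b' + b * d') (c * a' + d * c')
      (c * b' + d * d') P := by
  refine Prod.ext ?_ ?_
  · simp only [KE.glq]
    module
  · simp only [KE.glq]
    module

theorem sm_glq (x : Al K) (a b c d : ℚ) (P : Al K × Al K) :
    sm x (glq a b c d P) = glq a b c d (sm x P) := by
  simp only [KE.sm, KE.glq, mul_add, mul_smul_comm]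

theorem sm_sm (x y : Al K) (P : Al K × Al K) : sm x (sm y P) = sm (x * y) P := by
  simp only [KE.sm, mul_assoc]

theorem nA_pos {J : FA K} (h : ∀ i, J i ≠ 0) : 0 < nA J :=
  Finset.prod_pos fun i _ => KF.nm_pos (h i)

theorem nA_anti {I J : FA K} (hI : ∀ i, I i ≠ 0) (h : ∀ i, I i ≤ J i) : nA J ≤ nA I :=
  Finset.prod_le_prod (fun i _ => absNorm_nonneg (J i)) fun i _ => KF.nm_anti (hI i) (h i)

theorem nA_mul (I J : FA K) : nA (fun i => I i * J i) = nA I * nA J := by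
  unfold nA
  rw [← Finset.prod_mul_distrib]
  exact Finset.prod_congr rfl fun i _ => map_mul _ _ _

theorem nA_natCast (p : ℕ) : nA (K := K) (fun i => sp (p : K i)) = (p : ℚ) ^ dg K := by
  unfold nA dg
  rw [← Finset.prod_pow_eq_pow_sum]
  exact Finset.prod_congr rfl fun i _ => KF.nm_natCast p

theorem nm_sp_unit (i : s) (u : (𝓞 (K i))ˣ) : nm (sp ((u : 𝓞 (K i)) : K i)) = 1 := by
  have h : ∀ v : (𝓞 (K i))ˣ, 1 ≤ nm (sp ((v : 𝓞 (K i)) : K i)) := by
    intro v
    refine KF.nm_ge_one ?_ (KF.sp_ne ?_)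
    · rw [KF.sp_le]
      exact (FractionalIdeal.mem_one_iff _).2 ⟨(v : 𝓞 (K i)), rfl⟩
    · exact fun h0 => v.ne_zero (RingOfIntegers.ext (by rw [h0]; rfl))
  have h1 := h u
  have h2 := h u⁻¹
  have h3 : nm (sp ((u : 𝓞 (K i)) : K i)) * nm (sp (((u⁻¹ : (𝓞 (K i))ˣ) : 𝓞 (K i)) : K i)) = 1 := by
    rw [nm, nm, ← map_mul, ← KF.sp_mul]
    have e : (((u : 𝓞 (K i)) : K i)) * (((u⁻¹ : (𝓞 (K i))ˣ) : 𝓞 (K i)) : K i) = 1 := by
      rw [← map_mul (algebraMap (𝓞 (K i)) (K i)), Units.mul_inv, map_one]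
    rw [e, sp, spanSingleton_one, map_one]
  nlinarith

theorem nA_sp_unit (u : ∀ i, (𝓞 (K i))ˣ) : nA (fun i => sp (un u i)) = 1 :=
  Finset.prod_eq_one fun i _ => nm_sp_unit i (u i)

/-- the norm of an ideal between `p I` and `I` -/
theorem exists_powA {p : ℕ} (hp : p.Prime) {I J : FA K} (hI : ∀ i, I i ≠ 0)
    (h1 : ∀ i, sp (p : K i) * I i ≤ J i) (h2 : ∀ i, J i ≤ I i) :
    ∃ m ≤ dg K, nA J = (p : ℚ) ^ m * nA I := by
  choose m hm hm' using fun i => KF.exists_pow hp (hI i) (h1 i) (h2 i)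
  refine ⟨∑ i, m i, Finset.sum_le_sum fun i _ => hm i, ?_⟩
  unfold nA
  rw [← Finset.prod_pow_eq_pow_sum, ← Finset.prod_mul_distrib]
  exact Finset.prod_congr rfl fun i _ => hm' i

theorem RDAt.congr {p : ℕ} {P Q : Al K × Al K} (h : LT P = LT Q) (hP : RDAt p P) :
    RDAt p Q := by
  intro x hx hx'
  rw [← cn_congr h]
  rw [← h] at hx hx'
  exact hP x hx hx'

theorem RD.congr {P Q : Al K × Al K} (h : LT P = LT Q) (hP : RD P) : RD Q :=
  fun p hp => (hP p hp).congr h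

theorem RDAt.sm {p : ℕ} {P : Al K × Al K} {x : Al K} (hx : ∀ i, x i ≠ 0) (hP : RDAt p P) :
    RDAt p (sm x P) := by
  intro y hy hy'
  obtain ⟨z, hz, rfl⟩ := mem_LT_sm.1 hy
  have h1 := hP z hz fun ⟨w, hw, hw'⟩ => hy' ⟨x * w, mem_LT_sm.2 ⟨w, hw, rfl⟩, by
    rw [hw', mul_smul_comm]⟩
  have h2 : (fun i => sp (p : K i) * cn (KE.sm x P) i + sp ((x * z) i)) =
      fun i => sp (x i) * (sp (p : K i) * cn P i + sp (z i)) := by
    funext i
    rw [cn_sm, Pi.mul_apply, KF.sp_mul, mul_add]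
    ring
  have h3 : 0 < nA (fun i => sp (x i)) := nA_pos fun i => KF.sp_ne (hx i)
  rw [h2, cn_sm, nA_mul (fun i => sp (x i)), nA_mul (fun i => sp (x i)), mul_pow, mul_pow]
  have h4 : 0 < nA (fun i => sp (x i)) ^ 2 := by positivity
  calc nA (fun i => sp (x i)) ^ 2 * nA (fun i => sp (p : K i) * cn P i + sp (z i)) ^ 2 <
      nA (fun i => sp (x i)) ^ 2 * ((p : ℚ) ^ dg K * nA (cn P) ^ 2) := by gcongr
    _ = _ := by ring

theorem RD.sm {P : Al K × Al K} {x : Al K} (hx : ∀ i, x i ≠ 0) (hP : RD P) : RD (sm x P) :=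
  fun p hp => (hP p hp).sm hx

end Pool.Agent.Y714.KE
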