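import Pool.Agent.Y714.KE.BasB

set_option autoImplicit false
set_option linter.unusedSectionVars false
set_option linter.unusedVariables false

/-! Etale algebras: basic lemmas C (reduced bases). -/

namespace Pool.Agent.Y714.KE

open Pool.Agent.Y714.KF (FI sp ct nm pm ext br gl ubas qf bk el sg bf)
open NumberField FractionalIdeal Module Finset ComplexConjugate MeasureTheory Filter Topology
open scoped nonZeroDivisors

variable {s : Type} [Fintype s] [DecidableEq s] {K : s → Type} [∀ i, Field (K i)]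
  [∀ i, NumberField (K i)]

/-! ### C: reduced bases -/

theorem QY_nonneg (y : s → ℝ) (x : Al K) : 0 ≤ QY y x :=
  sum_nonneg fun i _ => mul_nonneg (Real.exp_pos _).le (Pool.Agent.Y714.KF.qf_nonneg (x i))

theorem QY_pos (y : s → ℝ) {x : Al K} (hx : x ≠ 0) : 0 < QY y x := by
  obtain ⟨i, hi⟩ := Function.ne_iff.1 hx
  exact sum_pos' (fun i _ => mul_nonneg (Real.exp_pos _).le (Pool.Agent.Y714.KF.qf_nonneg (x i)))
    ⟨i, mem_univ i, mul_pos (Real.exp_pos _) (Pool.Agent.Y714.KF.qf_pos hi)⟩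

theorem QY_comb (y : s → ℝ) (m n : ℤ) (x x' : Al K) : QY y (m • x + n • x') =
    m ^ 2 * QY y x + 2 * m * n * BY y x x' + n ^ 2 * QY y x' := by
  unfold QY BY
  rw [mul_sum, mul_sum, mul_sum, ← sum_add_distrib, ← sum_add_distrib]
  refine sum_congr rfl fun i _ => ?_
  have e : (m • x + n • x') i = (m : K i) * x i + (n : K i) * x' i := by
    rw [Pi.add_apply, Pi.smul_apply, Pi.smul_apply, zsmul_eq_mul, zsmul_eq_mul]
  rw [e, Pool.Agent.Y714.KF.qf_comb]
  ring

theorem BY_comb (y : s → ℝ) (m n k l : ℤ) (x x' : Al K) : BY y (m • x + n • x') (k • x + l • x') =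
    m * k * QY y x + (m * l + n * k) * BY y x x' + n * l * QY y x' := by
  unfold QY BY
  rw [mul_sum, mul_sum, mul_sum, ← sum_add_distrib, ← sum_add_distrib]
  refine sum_congr rfl fun i _ => ?_
  have e : ∀ m n : ℤ, (m • x + n • x') i = (m : K i) * x i + (n : K i) * x' i := by
    intro m n
    rw [Pi.add_apply, Pi.smul_apply, Pi.smul_apply, zsmul_eq_mul, zsmul_eq_mul]
  rw [e, e, Pool.Agent.Y714.KF.bk_comb]
  ring

/-- a weighted Lagrange identity -/
theorem lagrange_gen {J : Type} [Fintype J] (w : J → ℝ) (a b : J → ℂ) (c : J ≃ J)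
    (hw : ∀ e, w (c e) = w e) (ha : ∀ e, a (c e) = conj (a e)) (hb : ∀ e, b (c e) = conj (b e)) :
    2 * ((∑ e, w e * ‖a e‖ ^ 2) * (∑ e, w e * ‖b e‖ ^ 2) -
      (∑ e, w e * (a e * conj (b e)).re) ^ 2) =
      ∑ e, ∑ f, w e * w f * ‖a e * b f - b e * a f‖ ^ 2 := by
  obtain ⟨H, hH⟩ : ∃ H : ℂ, H = ∑ e, (w e : ℂ) * (a e * conj (b e)) := ⟨_, rfl⟩
  have hconj : conj H = H := by
    rw [hH, map_sum]
    refine Fintype.sum_equiv c _ _ fun e => ?_
    rw [ha, hb, hw, map_mul, map_mul, Complex.conj_ofReal]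
  have hre : H.re = ∑ e, w e * (a e * conj (b e)).re := by
    rw [hH, Complex.re_sum]
    refine sum_congr rfl fun e _ => ?_
    rw [Complex.re_ofReal_mul]
  have hHr : H = ((∑ e, w e * (a e * conj (b e)).re : ℝ) : ℂ) := by
    rw [← hre]
    exact (Complex.conj_eq_iff_re.1 hconj).symm
  have hx : ((∑ e, w e * ‖a e‖ ^ 2 : ℝ) : ℂ) = ∑ e, (w e : ℂ) * (a e * conj (a e)) := by
    push_cast
    refine sum_congr rfl fun e _ => ?_
    rw [Complex.mul_conj, Complex.normSq_eq_norm_sq]; push_cast; rfl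
  have hy : ((∑ e, w e * ‖b e‖ ^ 2 : ℝ) : ℂ) = ∑ e, (w e : ℂ) * (b e * conj (b e)) := by
    push_cast
    refine sum_congr rfl fun e _ => ?_
    rw [Complex.mul_conj, Complex.normSq_eq_norm_sq]; push_cast; rfl
  have hHc : H = ∑ e, (w e : ℂ) * (conj (a e) * b e) := by
    rw [← hconj, hH, map_sum]
    refine sum_congr rfl fun e _ => ?_
    rw [map_mul, map_mul, Complex.conj_conj, Complex.conj_ofReal]
  have key : ((∑ e, ∑ f, w e * w f * ‖a e * b f - b e * a f‖ ^ 2 : ℝ) : ℂ) =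
      2 * (((∑ e, w e * ‖a e‖ ^ 2 : ℝ) : ℂ) * ((∑ e, w e * ‖b e‖ ^ 2 : ℝ) : ℂ) - H * H) := by
    push_cast
    have h1 : ∀ e f, (w e : ℂ) * w f * ((‖a e * b f - b e * a f‖ : ℝ) : ℂ) ^ 2 =
        ((w e : ℂ) * (a e * conj (a e))) * ((w f : ℂ) * (b f * conj (b f))) +
        ((w e : ℂ) * (b e * conj (b e))) * ((w f : ℂ) * (a f * conj (a f))) -
        ((w e : ℂ) * (a e * conj (b e))) * ((w f : ℂ) * (conj (a f) * b f)) -
        ((w e : ℂ) * (conj (a e) * b e)) * ((w f : ℂ) * (a f * conj (b f))) := by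
      intro e f
      have h2 : ((‖a e * b f - b e * a f‖ : ℝ) : ℂ) ^ 2 =
          (a e * b f - b e * a f) * conj (a e * b f - b e * a f) := by
        rw [Complex.mul_conj, Complex.normSq_eq_norm_sq]; push_cast; rfl
      rw [h2]
      simp only [map_sub, map_mul]
      ring
    simp_rw [h1, sum_sub_distrib, sum_add_distrib, ← mul_sum, ← sum_mul]
    push_cast at hx hy
    rw [← hx, ← hy, ← hH, ← hHc]
    ring
  have h3 : ((2 * ((∑ e, w e * ‖a e‖ ^ 2) * (∑ e, w e * ‖b e‖ ^ 2) -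
      (∑ e, w e * (a e * conj (b e)).re) ^ 2) : ℝ) : ℂ) =
      ((∑ e, ∑ f, w e * w f * ‖a e * b f - b e * a f‖ ^ 2 : ℝ) : ℂ) := by
    rw [key, hHr]
    push_cast
    ring
  exact_mod_cast h3

theorem QY_eq (y : s → ℝ) (x : Al K) :
    QY y x = ∑ e : Em K, Real.exp (-(2 * y e.1)) * ‖e.2 (x e.1)‖ ^ 2 := by
  rw [Fintype.sum_sigma]
  unfold QY Pool.Agent.Y714.KF.qf
  refine sum_congr rfl fun i _ => ?_
  rw [mul_sum]

theorem BY_eq (y : s → ℝ) (x x' : Al K) :
    BY y x x' = ∑ e : Em K, Real.exp (-(2 * y e.1)) * (e.2 (x e.1) * conj (e.2 (x' e.1))).re := by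
  rw [Fintype.sum_sigma]
  unfold BY Pool.Agent.Y714.KF.bk
  refine sum_congr rfl fun i _ => ?_
  rw [mul_sum]

/-- complex conjugation on the homomorphisms -/
noncomputable def cj : Em K ≃ Em K :=
  Equiv.sigmaCongrRight fun i => Function.Involutive.toPerm ComplexEmbedding.conjugate
    (fun σ => by ext x; simp [ComplexEmbedding.conjugate])

theorem lagrangeY (y : s → ℝ) (P : Al K × Al K) :
    2 * (QY y P.1 * QY y P.2 - BY y P.1 P.2 ^ 2) = ∑ e : Em K, ∑ f : Em K,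
      Real.exp (-(2 * y e.1)) * Real.exp (-(2 * y f.1)) * ‖br (vc P e) (vc P f)‖ ^ 2 := by
  have h := lagrange_gen (J := Em K) (fun e => Real.exp (-(2 * y e.1)))
    (fun e => e.2 (P.1 e.1)) (fun e => e.2 (P.2 e.1)) cj (fun e => rfl) (fun e => rfl)
    (fun e => rfl)
  rw [QY_eq, QY_eq, BY_eq]
  exact h

theorem exists_rbY (y : s → ℝ) {P : Al K × Al K} (hP : ND P) (hn : 2 ≤ dg K) :
    ∃ Q, LT Q = LT P ∧ RB y Q ∧ ND Q := by
  have hpos : 0 < QY y P.1 * QY y P.2 - BY y P.1 P.2 ^ 2 := by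
    have h := lagrangeY y P
    have h1 : 0 < ∑ e : Em K, ∑ f : Em K,
        Real.exp (-(2 * y e.1)) * Real.exp (-(2 * y f.1)) * ‖br (vc P e) (vc P f)‖ ^ 2 := by
      obtain ⟨e, f, hef⟩ : ∃ e f : Em K, e ≠ f := by
        have : 1 < Fintype.card (Em K) := by rw [card_Em]; omega
        exact Fintype.exists_pair_of_one_lt_card this
      refine sum_pos' (fun _ _ => sum_nonneg fun _ _ => by positivity) ⟨e, mem_univ e, ?_⟩
      refine sum_pos' (fun _ _ => by positivity) ⟨f, mem_univ f, ?_⟩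
      have := hP e f hef
      positivity
    linarith
  have hA := QY_nonneg y P.1
  have hC := QY_nonneg y P.2
  obtain ⟨A, hAe⟩ : ∃ A, A = QY y P.1 := ⟨_, rfl⟩
  obtain ⟨C, hCe⟩ : ∃ C, C = QY y P.2 := ⟨_, rfl⟩
  obtain ⟨S, hSe⟩ : ∃ S, S = BY y P.1 P.2 := ⟨_, rfl⟩
  rw [← hAe, ← hCe, ← hSe] at hpos
  rw [← hAe] at hA
  rw [← hCe] at hC
  have hAC : 0 < A + C := by
    by_contra hcon
    have h1 : A = 0 := by linarith
    rw [h1] at hpos
    nlinarith [sq_nonneg S]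
  obtain ⟨m, n, k, l, hdet, r1, r2, r3⟩ := Pool.Agent.Y714.KF.red_exists A S C
    ((A * C - S ^ 2) / (A + C))
    (by positivity) (by
      intro m n
      rw [div_mul_eq_mul_div, div_le_iff₀ hAC]
      have : (m ^ 2 * A + 2 * m * n * S + n ^ 2 * C) * (A + C) - (A * C - S ^ 2) * (m ^ 2 + n ^ 2) =
          (m * A + n * S) ^ 2 + (m * S + n * C) ^ 2 := by ring
      nlinarith [sq_nonneg (m * A + n * S), sq_nonneg (m * S + n * C)])
  refine ⟨glz m n k l P, LT_glz m n k l hdet P, ⟨?_, ?_, ?_⟩, ?_⟩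
  · simp only [glz]; rw [QY_comb, QY_comb, ← hAe, ← hCe, ← hSe]; exact r1
  · simp only [glz]; rw [BY_comb, ← hAe, ← hCe, ← hSe]; linarith
  · simp only [glz]; rw [BY_comb, QY_comb, ← hAe, ← hCe, ← hSe]; exact r3
  · rw [glz_eq]
    refine hP.glq ?_
    rcases hdet with h | h
    · have : (m : ℚ) * l - n * k = 1 := by exact_mod_cast congrArg (Int.cast : ℤ → ℚ) h
      rw [this]; norm_num
    · have : (m : ℚ) * l - n * k = -1 := by exact_mod_cast congrArg (Int.cast : ℤ → ℚ) h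
      rw [this]; norm_num

theorem RB.minY {y : s → ℝ} {P : Al K × Al K} (h : RB y P) (hP : IN P) {x : Al K}
    (hx : x ∈ LT P) (hx0 : x ≠ 0) : QY y P.1 ≤ QY y x := by
  obtain ⟨i, j, rfl⟩ := mem_LT.1 hx
  rw [QY_comb]
  refine Pool.Agent.Y714.KF.red_ge (QY_nonneg y P.1) h.1 (by linarith [h.2.1]) h.2.2 i j ?_
  by_contra hcon
  push Not at hcon
  apply hx0
  rw [hcon.1, hcon.2, zero_smul, zero_smul, add_zero]

theorem SRB.uniqueY {y : s → ℝ} {P Q : Al K × Al K} (h : SRB y P) (hQ : RB y Q) (hP : IN P)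
    (hQ' : IN Q) (hL : LT P = LT Q) : Q = P ∨ Q = (-P.1, -P.2) := by
  obtain ⟨m, n, k, l, hdet, rfl⟩ := LT_eq hP hQ' hL
  obtain ⟨q1, q2, q3⟩ := hQ
  simp only [glz] at q1 q2 q3
  rw [QY_comb, QY_comb] at q1
  rw [BY_comb] at q2
  rw [BY_comb, QY_comb] at q3
  rcases Pool.Agent.Y714.KF.red_unique h.1 (by linarith [h.2.1]) h.2.2 m n k l hdet q1
    (by linarith) q3 with
    ⟨rfl, rfl, rfl, rfl⟩ | ⟨rfl, rfl, rfl, rfl⟩
  · left; simp [glz]
  · right; simp [glz]

/-- the sizes of the components are bounded in a cell -/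
theorem ui_le (hodd : Odd (dg K)) (hn : 3 ≤ dg K) {P : Al K × Al K} (hP : ND P) {i₀ : s}
    {y : s → ℝ} (h1 : ∀ i, i ≠ i₀ → y i ≤ ui (vc P) i ∧ ui (vc P) i < y i + 1)
    (h2 : pm (vc P) ≤ tt (K := K) y) (i : s) : ui (vc P) i ≤ y i + 1 := by
  by_cases hi : i = i₀
  · subst hi
    have hpm : 0 < pm (vc P) := hP.pm_pos (by omega)
    have h3 := suu (K := K) (by omega) (vc P)
    have h4 : Real.log (pm (vc P)) ≤ 2 * ∑ j, (finrank ℚ (K j) : ℝ) * y j := by
      rw [← Real.log_exp (2 * ∑ j, (finrank ℚ (K j) : ℝ) * y j)]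
      exact Real.log_le_log hpm h2
    have h5 : ∑ j, (finrank ℚ (K j) : ℝ) * ui (vc P) j ≤ ∑ j, (finrank ℚ (K j) : ℝ) * y j := by
      rw [h3]
      linarith
    rw [← add_sum_erase univ (fun j => (finrank ℚ (K j) : ℝ) * ui (vc P) j) (mem_univ i),
      ← add_sum_erase univ (fun j => (finrank ℚ (K j) : ℝ) * y j) (mem_univ i)] at h5
    have h6 : ∑ j ∈ univ.erase i, (finrank ℚ (K j) : ℝ) * y j ≤
        ∑ j ∈ univ.erase i, (finrank ℚ (K j) : ℝ) * ui (vc P) j := by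
      refine sum_le_sum fun j hj => ?_
      exact mul_le_mul_of_nonneg_left (h1 j (ne_of_mem_erase hj)).1 (Nat.cast_nonneg _)
    have h7 : (0 : ℝ) < finrank ℚ (K i) := by exact_mod_cast (finrank_pos : 0 < finrank ℚ (K i))
    have h8 : (finrank ℚ (K i) : ℝ) * ui (vc P) i ≤ finrank ℚ (K i) * y i := by linarith
    have h9 := le_of_mul_le_mul_left h8 h7
    linarith
  · exact (h1 i hi).2.le

/-- weighted brackets of pairs in a cell are bounded -/
theorem exists_br_boundY (hodd : Odd (dg K)) (hn : 3 ≤ dg K) (κ : Ux K → ℝ) :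
    ∃ C : ℝ, 0 < C ∧ ∀ (y : s → ℝ) (P : Al K × Al K), ND P → NZ κ (vc P) →
      (∀ i, ui (vc P) i ≤ y i + 1) → (∀ e f, ‖br (vc P e) (vc P f)‖ ≤
        C * Real.exp (y e.1 + y f.1)) ∧ (RB y P → QY y P.1 * QY y P.2 ≤ C) := by
  obtain ⟨C', hC', hbr⟩ := brb (K := K) hodd (∑ j, |κ j| + 1)
  obtain ⟨D, hD⟩ : ∃ D, D = C' * Real.exp 2 := ⟨_, rfl⟩
  have hD0 : 0 < D := by rw [hD]; exact mul_pos hC' (Real.exp_pos _)
  refine ⟨D + (dg K : ℝ) ^ 2 * D ^ 2, by positivity, fun y P hP hκ hui => ?_⟩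
  have hpm : 0 < pm (vc P) := hP.pm_pos (by omega)
  have h1 : ∀ e f : Em K, ‖br (vc P e) (vc P f)‖ ≤ D * Real.exp (y e.1 + y f.1) := by
    intro e f
    refine (hbr (vc P) (SYM_vc P) hpm (fun j => ?_) e f).trans ?_
    · have h3 : |κ j| ≤ ∑ j, |κ j| := single_le_sum (f := fun j => |κ j|)
        (fun _ _ => abs_nonneg _) (mem_univ j)
      obtain ⟨h4, h5⟩ := hκ j
      rw [abs_le]
      constructor
      · linarith [neg_abs_le (κ j)]
      · linarith [le_abs_self (κ j)]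
    · rw [hD, mul_assoc, ← Real.exp_add]
      refine mul_le_mul_of_nonneg_left (Real.exp_le_exp.2 ?_) hC'.le
      linarith [hui e.1, hui f.1]
  refine ⟨fun e f => (h1 e f).trans ?_, fun hR => ?_⟩
  · refine mul_le_mul_of_nonneg_right ?_ (Real.exp_pos _).le
    have : 0 ≤ (dg K : ℝ) ^ 2 * D ^ 2 := by positivity
    linarith
  · have h4 := lagrangeY y P
    have h5 : ∑ e : Em K, ∑ f : Em K,
        Real.exp (-(2 * y e.1)) * Real.exp (-(2 * y f.1)) * ‖br (vc P e) (vc P f)‖ ^ 2 ≤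
        (dg K : ℝ) ^ 2 * D ^ 2 := by
      calc ∑ e : Em K, ∑ f : Em K,
          Real.exp (-(2 * y e.1)) * Real.exp (-(2 * y f.1)) * ‖br (vc P e) (vc P f)‖ ^ 2 ≤
          ∑ e : Em K, ∑ f : Em K, D ^ 2 := by
            refine sum_le_sum fun e _ => sum_le_sum fun f _ => ?_
            have h6 := pow_le_pow_left₀ (norm_nonneg _) (h1 e f) 2
            have h7 : (D * Real.exp (y e.1 + y f.1)) ^ 2 =
                D ^ 2 * (Real.exp (2 * y e.1) * Real.exp (2 * y f.1)) := by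
              rw [mul_pow, ← Real.exp_nat_mul, ← Real.exp_add]
              congr 2
              push_cast
              ring
            rw [h7] at h6
            have h8 : Real.exp (-(2 * y e.1)) * Real.exp (2 * y e.1) = 1 := by
              rw [← Real.exp_add, neg_add_cancel, Real.exp_zero]
            have h9 : Real.exp (-(2 * y f.1)) * Real.exp (2 * y f.1) = 1 := by
              rw [← Real.exp_add, neg_add_cancel, Real.exp_zero]
            have hw : 0 ≤ Real.exp (-(2 * y e.1)) * Real.exp (-(2 * y f.1)) := by positivity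
            refine (mul_le_mul_of_nonneg_left h6 hw).trans (le_of_eq ?_)
            calc Real.exp (-(2 * y e.1)) * Real.exp (-(2 * y f.1)) *
                (D ^ 2 * (Real.exp (2 * y e.1) * Real.exp (2 * y f.1))) =
                D ^ 2 * (Real.exp (-(2 * y e.1)) * Real.exp (2 * y e.1)) *
                  (Real.exp (-(2 * y f.1)) * Real.exp (2 * y f.1)) := by ring
              _ = D ^ 2 := by rw [h8, h9, mul_one, mul_one]
        _ = _ := by
            rw [sum_const, sum_const, card_univ, card_Em, nsmul_eq_mul, nsmul_eq_mul]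
            ring
    obtain ⟨r1, r2, r3⟩ := hR
    have hA := QY_nonneg y P.1
    have h6 : BY y P.1 P.2 ^ 2 * 4 ≤ QY y P.1 * QY y P.2 := by nlinarith
    nlinarith

end Pool.Agent.Y714.KE
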