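import Pool.Agent.Y714.KF.Base

set_option autoImplicit false
set_option linter.unusedSectionVars false
set_option linter.unusedVariables false

/-! Etale algebras: definitions. -/

namespace Pool.Agent.Y714.KE

open Pool.Agent.Y714.KF
open NumberField FractionalIdeal Module Finset ComplexConjugate
open scoped nonZeroDivisors

section

variable {s : Type} [Fintype s] [DecidableEq s] (K : s → Type) [∀ i, Field (K i)]
  [∀ i, NumberField (K i)]

/-- the algebra -/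
abbrev Al : Type := ∀ i, K i

/-- families of fractional ideals -/
abbrev FA : Type := ∀ i, FI (K i)

/-- families of nonzero fractional ideals -/
abbrev FU : Type := ∀ i, (FI (K i))ˣ

/-- the homomorphisms to the complex numbers -/
abbrev Em : Type := Σ i, (K i →+* ℂ)

/-- the degree of the algebra -/
noncomputable def dg : ℕ := ∑ i, finrank ℚ (K i)

/-- indices of coordinates -/
abbrev Ix : Type := Σ i, Fin (finrank ℚ (K i))

/-- indices of unit coordinates -/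
abbrev Ux : Type := Σ i, Fin (Units.rank (K i))

variable {K}

/-- a family of nonzero ideals as a family of ideals -/
def cf (I : FU K) : FA K := fun i => (I i : FI (K i))

/-- a component of a pair -/
def cp (P : Al K × Al K) (i : s) : K i × K i := (P.1 i, P.2 i)

/-- the vectors of a pair -/
def vc (P : Al K × Al K) : Em K → ℂ × ℂ := fun e => (e.2 (P.1 e.1), e.2 (P.2 e.1))

/-- all brackets are nonzero -/
def ND (P : Al K × Al K) : Prop := ∀ e f : Em K, e ≠ f → br (vc P e) (vc P f) ≠ 0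

/-- the contents -/
noncomputable def cn (P : Al K × Al K) : FA K := fun i => ct (cp P i)

/-- the norm of a family of ideals -/
noncomputable def nA (J : FA K) : ℚ := ∏ i, nm (J i)

/-- the lattice -/
def LT (P : Al K × Al K) : Submodule ℤ (Al K) := Submodule.span ℤ {P.1, P.2}

/-- linear independence over the rational numbers -/
def IN (P : Al K × Al K) : Prop := ∀ a b : ℚ, a • P.1 + b • P.2 = 0 → a = 0 ∧ b = 0

/-- reduced at `p` -/
def RDAt (p : ℕ) (P : Al K × Al K) : Prop :=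
  ∀ x ∈ LT P, (¬ ∃ y ∈ LT P, x = (p : ℤ) • y) →
    nA (fun i => sp (p : K i) * cn P i + sp (x i)) ^ 2 < (p : ℚ) ^ dg K * nA (cn P) ^ 2

/-- reduced -/
def RD (P : Al K × Al K) : Prop := ∀ p : ℕ, p.Prime → RDAt p P

/-- multiplication of a pair by an element -/
def sm (x : Al K) (P : Al K × Al K) : Al K × Al K := (x * P.1, x * P.2)

/-- rational change of basis -/
def glq (a b c d : ℚ) (P : Al K × Al K) : Al K × Al K := (a • P.1 + b • P.2, c • P.1 + d • P.2)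

/-- a family of units as an element -/
def un (u : ∀ i, (𝓞 (K i))ˣ) : Al K := fun i => ((u i : 𝓞 (K i)) : K i)

/-- neighbours -/
def nb (p : ℕ) (o : Option (Fin p)) (P : Al K × Al K) : Al K × Al K :=
  match o with
  | none => (P.2, (p : ℤ) • P.1)
  | some r => (P.1 + ((r : ℕ) : ℤ) • P.2, (p : ℤ) • P.2)

/-! ### archimedean invariants -/

/-- logarithmic size of a vector -/
noncomputable def LG (v : Em K → ℂ × ℂ) (e : Em K) : ℝ :=
  (1 / 2) * (Real.log (pm (ext v e)) - Real.log (pm v))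

/-- the mean over a component -/
noncomputable def mL (v : Em K → ℂ × ℂ) (i : s) : ℝ :=
  (∑ σ : K i →+* ℂ, LG v ⟨i, σ⟩) / finrank ℚ (K i)

/-- the logarithmic size of a component -/
noncomputable def ui (v : Em K → ℂ × ℂ) (i : s) : ℝ :=
  mL v i + ((1 / 2) * Real.log (pm v) - ∑ e, LG v e) / dg K

/-- the unit coordinates -/
noncomputable def cc (v : Em K → ℂ × ℂ) (j : Ux K) : ℝ :=
  (ubas (K j.1)).repr (fun w => (InfinitePlace.mult w.1 : ℝ) *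
    (LG v ⟨j.1, w.1.embedding⟩ - mL v j.1)) j.2

/-- normalised by units -/
def NZ (κ : Ux K → ℝ) (v : Em K → ℂ × ℂ) : Prop := ∀ j, κ j ≤ cc v j ∧ cc v j < κ j + 1

/-- real families -/
def SYM (v : Em K → ℂ × ℂ) : Prop := ∀ (i : s) (σ : K i →+* ℂ),
  v ⟨i, ComplexEmbedding.conjugate σ⟩ = (conj (v ⟨i, σ⟩).1, conj (v ⟨i, σ⟩).2)

/-- the total size of the cell -/
noncomputable def tt (y : s → ℝ) : ℝ := Real.exp (2 * ∑ i, (finrank ℚ (K i) : ℝ) * y i)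

/-- the weighted quadratic form -/
noncomputable def QY (y : s → ℝ) (x : Al K) : ℝ := ∑ i, Real.exp (-(2 * y i)) * qf (x i)

/-- its bilinear form -/
noncomputable def BY (y : s → ℝ) (x x' : Al K) : ℝ :=
  ∑ i, Real.exp (-(2 * y i)) * bk (x i) (x' i)

/-- reduced basis for the weighted form -/
def RB (y : s → ℝ) (P : Al K × Al K) : Prop :=
  QY y P.1 ≤ QY y P.2 ∧ 0 ≤ BY y P.1 P.2 ∧ 2 * BY y P.1 P.2 ≤ QY y P.1

/-- strictly reduced basis -/
def SRB (y : s → ℝ) (P : Al K × Al K) : Prop :=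
  QY y P.1 < QY y P.2 ∧ 0 < BY y P.1 P.2 ∧ 2 * BY y P.1 P.2 < QY y P.1

/-! ### sets of lattices -/

/-- normalised lattices of bounded size -/
def SA (κ : Ux K → ℝ) (I : FA K) (t : ℝ) : Set (Submodule ℤ (Al K)) :=
  {M | ∃ P : Al K × Al K, M = LT P ∧ (∀ i, cn P i ≤ I i) ∧ ND P ∧ NZ κ (vc P) ∧
    pm (vc P) ≤ t}

/-- normalised lattices in a cell -/
def SY (κ : Ux K → ℝ) (i₀ : s) (I : FA K) (y : s → ℝ) : Set (Submodule ℤ (Al K)) :=
  {M | ∃ P : Al K × Al K, M = LT P ∧ (∀ i, cn P i ≤ I i) ∧ ND P ∧ NZ κ (vc P) ∧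
    (∀ i, i ≠ i₀ → y i ≤ ui (vc P) i ∧ ui (vc P) i < y i + 1) ∧ pm (vc P) ≤ tt (K := K) y}

/-- content failure at `p` -/
def Cf (p : ℕ) (I : FA K) (M : Submodule ℤ (Al K)) : Prop :=
  ∃ (i : s) (q : Ideal (𝓞 (K i))), q.IsPrime ∧ (p : 𝓞 (K i)) ∈ q ∧
    ∀ x ∈ M, x i ∈ (q : FI (K i)) * I i

/-- failure of reducedness at `p` -/
def Rf (p m : ℕ) (I : FA K) (M : Submodule ℤ (Al K)) : Prop :=
  ∃ x ∈ M, (¬ ∃ y ∈ M, x = (p : ℤ) • y) ∧
    nA (fun i => sp (p : K i) * I i + sp (x i)) = (p : ℚ) ^ m * nA I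

/-- the local condition -/
def Loc (p : ℕ) (I : FA K) (M : Submodule ℤ (Al K)) : Prop :=
  ¬ Cf p I M ∧ ∀ m ≤ dg K, dg K ≤ 2 * m → ¬ Rf p m I M

/-! ### coordinates -/

/-- a basis of each component -/
abbrev Bs (K : s → Type) [∀ i, Field (K i)] [∀ i, NumberField (K i)] : Type :=
  ∀ i, Basis (Fin (finrank ℚ (K i))) ℚ (K i)

/-- integral bases of the ideals -/
def IsB (I : FU K) (b : Bs K) : Prop := ∀ (i : s) (x : K i), x ∈ (I i : FI (K i)) ↔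
  ∃ z : Fin (finrank ℚ (K i)) → ℤ, x = el (b i) z

/-- coordinates of pairs -/
noncomputable def pr (b : Bs K) (z : Ix K ⊕ Ix K → ℤ) : Al K × Al K :=
  (fun i => el (b i) fun j => z (Sum.inl ⟨i, j⟩), fun i => el (b i) fun j => z (Sum.inr ⟨i, j⟩))

/-- real coordinates -/
noncomputable def rw2 (b : Bs K) (u : Ix K ⊕ Ix K → ℝ) : Em K → ℂ × ℂ := fun e =>
  (sg (b e.1) e.2 fun j => u (Sum.inl ⟨e.1, j⟩), sg (b e.1) e.2 fun j => u (Sum.inr ⟨e.1, j⟩))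

/-- the component of an index -/
def cm (k : Ix K ⊕ Ix K) : s := Sum.elim (fun j => j.1) (fun j => j.1) k

/-- scaled integral coordinates -/
noncomputable def scl (y : s → ℝ) (z : Ix K ⊕ Ix K → ℤ) : Ix K ⊕ Ix K → ℝ :=
  fun k => (z k : ℝ) / Real.exp (y (cm k))

/-- bilinear form in real coordinates -/
noncomputable def bfA (b : Bs K) (x y : Ix K → ℝ) : ℝ :=
  ∑ i, bf (b i) (fun j => x ⟨i, j⟩) (fun j => y ⟨i, j⟩)

/-- left and right half of the coordinates -/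
def lf (u : Ix K ⊕ Ix K → ℝ) : Ix K → ℝ := fun j => u (Sum.inl j)

/-- right half -/
def rt (u : Ix K ⊕ Ix K → ℝ) : Ix K → ℝ := fun j => u (Sum.inr j)

/-- the open region -/
def Dm (b : Bs K) (κ : Ux K → ℝ) (i₀ : s) (δ : ℝ) : Set (Ix K ⊕ Ix K → ℝ) :=
  {u | δ ^ 2 < bfA b (lf u) (lf u) ∧ bfA b (lf u) (lf u) < bfA b (rt u) (rt u) ∧
    0 < bfA b (lf u) (rt u) ∧ 2 * bfA b (lf u) (rt u) < bfA b (lf u) (lf u) ∧
    (∀ e f : Em K, e ≠ f → br (rw2 b u e) (rw2 b u f) ≠ 0) ∧ pm (rw2 b u) < 1 ∧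
    (∀ j, κ j < cc (rw2 b u) j ∧ cc (rw2 b u) j < κ j + 1) ∧
    ∀ i, i ≠ i₀ → 0 < ui (rw2 b u) i ∧ ui (rw2 b u) i < 1}

/-- the closed region -/
def Dc (b : Bs K) (κ : Ux K → ℝ) (i₀ : s) (δ : ℝ) : Set (Ix K ⊕ Ix K → ℝ) :=
  {u | δ ^ 2 ≤ bfA b (lf u) (lf u) ∧ bfA b (lf u) (lf u) ≤ bfA b (rt u) (rt u) ∧
    0 ≤ bfA b (lf u) (rt u) ∧ 2 * bfA b (lf u) (rt u) ≤ bfA b (lf u) (lf u) ∧
    (∀ e f : Em K, e ≠ f → br (rw2 b u e) (rw2 b u f) ≠ 0) ∧ pm (rw2 b u) ≤ 1 ∧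
    (∀ j, κ j ≤ cc (rw2 b u) j ∧ cc (rw2 b u) j ≤ κ j + 1) ∧
    ∀ i, i ≠ i₀ → 0 ≤ ui (rw2 b u) i ∧ ui (rw2 b u) i ≤ 1}

/-! ### points and heights -/

/-- equivalence of pairs: the same point of the moduli space -/
def Eq2 (P P' : Al K × Al K) : Prop := ∃ (x : Al K) (a b c d : ℚ), (∀ i, x i ≠ 0) ∧
  a * d - b * c ≠ 0 ∧ P' = sm x (glq a b c d P)

/-- the height of a pair -/
noncomputable def hp (P : Al K × Al K) : ℝ := pm (vc P) / ((nA (cn P) : ℚ) : ℝ) ^ 2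

/-- the height of a point -/
noncomputable def ht (P : Al K × Al K) : ℝ := sInf {r : ℝ | ∃ a b c d : ℚ, a * d - b * c ≠ 0 ∧
  r = hp (glq a b c d P)}

/-- `p`-adic local factor -/
def PFac (p : ℕ) (φ : Al K × Al K → ℝ) : Prop :=
  (∃ m M : ℝ, 0 < m ∧ ∀ P, ND P → m ≤ φ P ∧ φ P ≤ M) ∧
  (∀ P P', ND P → Eq2 P P' → φ P' = φ P) ∧
  ∀ ε : ℝ, 0 < ε → ∃ k : ℕ, ∀ P P' : Al K × Al K, ND P → ND P' → RDAt p P →
    (∀ i, P'.1 i - P.1 i ∈ sp (p : K i) ^ k * cn P i) →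
    (∀ i, P'.2 i - P.2 i ∈ sp (p : K i) ^ k * cn P i) → |φ P' - φ P| ≤ ε

/-- archimedean local factor -/
def RFac (ψ : (Em K → ℂ × ℂ) → ℝ) : Prop :=
  (∃ m M : ℝ, 0 < m ∧ ∀ v, SYM v → 0 < pm v → m ≤ ψ v ∧ ψ v ≤ M) ∧
  ContinuousOn ψ {v | SYM v ∧ 0 < pm v} ∧
  (∀ v, SYM v → 0 < pm v → ∀ a : Em K → ℂ, (∀ e, a e ≠ 0) →
    (∀ (i : s) (σ : K i →+* ℂ), a ⟨i, ComplexEmbedding.conjugate σ⟩ = conj (a ⟨i, σ⟩)) →
    ψ (fun e => a e • v e) = ψ v) ∧
  (∀ v, SYM v → 0 < pm v → ∀ a b c d : ℝ, a * d - b * c ≠ 0 →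
    ψ (fun e => gl a b c d (v e)) = ψ v)

end

end Pool.Agent.Y714.KE
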