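import Pool.Agent.Y714.KE.Cusp

set_option autoImplicit false
set_option linter.unusedSectionVars false
set_option linter.unusedVariables false

/-! Etale algebras: statements used in the assembly. -/

namespace Pool.Agent.Y714.KE

open Pool.Agent.Y714.KF (FI sp ct nm pm ext br gl ubas qf bk el sg bf)
open NumberField FractionalIdeal Module Finset ComplexConjugate MeasureTheory Filter Topology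
open scoped nonZeroDivisors

section

/-- MIB: points failing a condition modulo a prime of middle size -/
def S_MIB : Prop := ∀ (ι : Type) [Fintype ι] (D : Set (ι → ℝ)) (C : ℝ), Bornology.IsBounded D →
  2 ≤ Fintype.card ι → ∃ C' : ℝ, 0 < C' ∧ ∀ T : ∀ p : ℕ, Set (ι → ZMod p),
    (∀ p : ℕ, p.Prime → ((T p)ᶜ.ncard : ℝ) ≤ C * (p : ℝ) ^ (Fintype.card ι - 2)) →
    ∀ (P₀ X : ℝ) (Y : ι → ℝ), 1 ≤ P₀ → (∀ i, X ≤ Y i) → (∀ i, 0 < Y i) →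
      ({z : ι → ℤ | (fun i => (z i : ℝ) / Y i) ∈ D ∧ ∃ p : ℕ, p.Prime ∧ P₀ < p ∧ (p : ℝ) ≤ X ∧
        (fun i => (z i : ZMod p)) ∉ T p}.ncard : ℝ) ≤ C' * (∏ i, Y i) / P₀

/-- EUN: points of a region satisfying conditions modulo small primes -/
def S_EUN : Prop := ∀ (ι : Type) [Fintype ι] (D : Set (ι → ℝ)) (Ys : Set (ι → ℝ))
    (G : (ι → ℤ) → Prop) (Lc : ℕ → (ι → ℤ) → Prop) (T : ∀ p : ℕ, Set (ι → ZMod p)),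
  Bornology.IsBounded D → IsOpen D → volume (frontier D) = 0 →
  (∀ Y ∈ Ys, ∀ z : ι → ℤ, (∀ i, 0 < Y i) → (fun i => (z i : ℝ) / Y i) ∈ D → G z) →
  (∀ p : ℕ, p.Prime → ∀ z, G z → (Lc p z ↔ (fun i => (z i : ZMod p)) ∈ T p)) →
  ∀ (P₀ : ℕ) (η : ℝ), 0 < η → ∃ L : ℝ, 0 < L ∧ ∀ Y ∈ Ys, (∀ i, L ≤ Y i) →
    |({z : ι → ℤ | (fun i => (z i : ℝ) / Y i) ∈ D ∧
      ∀ p : ℕ, p.Prime → p ≤ P₀ → Lc p z}.ncard : ℝ) / ∏ i, Y i - volume.real D *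
        ∏ p ∈ (Finset.range (P₀ + 1)).filter Nat.Prime,
          ((T p).ncard : ℝ) / (p : ℝ) ^ Fintype.card ι| ≤ η

/-- ETW: the same with a twist -/
def S_ETW : Prop := ∀ (ι : Type) [Fintype ι] (D : Set (ι → ℝ)) (Ψ : (ι → ℝ) → ℝ) (a : ℝ)
    (Ys : Set (ι → ℝ)) (G : (ι → ℤ) → Prop) (Lc : ℕ → (ι → ℤ) → Prop)
    (T : ∀ p : ℕ, Set (ι → ZMod p)) (S₀ : Finset ℕ) (φ : ℕ → (ι → ℤ) → ℝ),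
  Bornology.IsBounded D → IsOpen D → volume (frontier D) = 0 → ContinuousOn Ψ D →
  (∀ u ∈ D, 0 < Ψ u) → (∀ c : ℝ, 0 < c → volume {u ∈ D | Ψ u = c} = 0) → 0 < a →
  (∀ p ∈ S₀, p.Prime) →
  (∀ Y ∈ Ys, ∀ z : ι → ℤ, (∀ i, 0 < Y i) → (fun i => (z i : ℝ) / Y i) ∈ D → G z) →
  (∀ p : ℕ, p.Prime → ∀ z, G z → (Lc p z ↔ (fun i => (z i : ZMod p)) ∈ T p)) →
  (∀ p ∈ S₀, ∃ m M : ℝ, 0 < m ∧ ∀ z, G z → m ≤ φ p z ∧ φ p z ≤ M) →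
  (∀ p ∈ S₀, ∀ ε : ℝ, 0 < ε → ∃ k : ℕ, ∀ z z', G z → G z' → Lc p z → Lc p z' →
    (∀ i, ((p : ℤ) ^ k) ∣ z i - z' i) → |φ p z - φ p z'| ≤ ε) →
  ∀ P₀ : ℕ, (∀ p ∈ S₀, p ≤ P₀) → ∀ η : ℝ, 0 < η → ∃ ℓ L : ℝ, 0 < L ∧ ∀ Y ∈ Ys, (∀ i, L ≤ Y i) →
    |({z : ι → ℤ | (fun i => (z i : ℝ) / Y i) ∈ D ∧ (∀ p : ℕ, p.Prime → p ≤ P₀ → Lc p z) ∧
      Ψ (fun i => (z i : ℝ) / Y i) * ∏ p ∈ S₀, φ p z ≤ a}.ncard : ℝ) / ∏ i, Y i - ℓ| ≤ η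

variable {s : Type} [Fintype s] [DecidableEq s] (K : s → Type) [∀ i, Field (K i)]
  [∀ i, NumberField (K i)]

/-- RBM: lattices and points of the region, cells far from the boundary -/
def S_RBM : Prop := Odd (dg K) → 3 ≤ dg K → ∀ (I : FU K) (b : Bs K), IsB I b →
  ∀ (κ : Ux K → ℝ) (i₀ : s),
  (∀ δ : ℝ, 0 < δ → volume (closure (Dc b κ i₀ δ) \ Dm b κ i₀ δ) = 0) →
  ∀ η : ℝ, 0 < η → ∃ δ₁ : ℝ, 0 < δ₁ ∧ ∀ δ : ℝ, 0 < δ → δ ≤ δ₁ → ∃ L₀ : ℝ, 0 < L₀ ∧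
    ∀ y : s → ℝ, (∀ i, L₀ ≤ Real.exp (y i)) → ∀ Pr : Submodule ℤ (Al K) → Prop,
      |2 * ({M ∈ SY κ i₀ (cf I) y | Pr M}.ncard : ℝ) -
        ({z : Ix K ⊕ Ix K → ℤ | scl y z ∈ Dm b κ i₀ δ ∧ Pr (LT (pr b z))}.ncard : ℝ)| ≤
      η * tt (K := K) y

/-- RJM: the same for cusp cells -/
def S_RJM : Prop := Odd (dg K) → 3 ≤ dg K → ∀ (I : FU K) (b : Bs K), IsB I b →
  ∀ (κ : Ux K → ℝ) (i₀ j : s), finrank ℚ (K j) = 1 →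
  (∀ δ : ℝ, 0 < δ → volume (closure (Dcj b κ i₀ j δ) \ Dmj b κ i₀ j δ) = 0) →
  ∀ η : ℝ, 0 < η → ∃ (δ : ℝ) (P₁ : ℕ) (L₀ : ℝ), 0 < δ ∧ 0 < L₀ ∧
    ∀ y : s → ℝ, L₀ ≤ Real.exp (-(y j)) → (∀ i, i ≠ j → L₀ ≤ Real.exp (y i + y j)) →
      ∀ Pr : Submodule ℤ (Al K) → Prop,
      (∀ M, Pr M → ∀ p : ℕ, p.Prime → p ≤ P₁ → Loc p (cf I) M) →
      |2 * Real.exp (-(2 * y j)) * ({M ∈ SY κ i₀ (cf I) y | Pr M}.ncard : ℝ) -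
        ({z : Jx K j → ℤ | scj j y z ∈ Dmj b κ i₀ j δ ∧
          Pr (LT (pr b (sl j z)))}.ncard : ℝ)| ≤
      η * Real.exp (-(2 * y j)) * tt (K := K) y

variable {K}

/-- the twisted size of a pair -/
noncomputable def tw (S₀ : Finset ℕ) (ψ : (Em K → ℂ × ℂ) → ℝ) (φ : ℕ → Al K × Al K → ℝ)
    (P : Al K × Al K) : ℝ := pm (vc P) * (ψ (vc P) * ∏ p ∈ S₀, φ p P)

/-- lattices of bounded twisted size -/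
def TL (S₀ : Finset ℕ) (ψ : (Em K → ℂ × ℂ) → ℝ) (φ : ℕ → Al K × Al K → ℝ) (t : ℝ)
    (M : Submodule ℤ (Al K)) : Prop := ∃ P : Al K × Al K, M = LT P ∧ tw S₀ ψ φ P ≤ t

variable (K)

/-- GCM: good cells, twisted count -/
def S_GCM : Prop := Odd (dg K) → 5 ≤ dg K → ∀ (I : FU K) (b : Bs K), IsB I b →
  ∀ (κ : Ux K → ℝ) (i₀ : s),
  (∀ δ : ℝ, 0 < δ → volume (closure (Dc b κ i₀ δ) \ Dm b κ i₀ δ) = 0) →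
  ∀ (S₀ : Finset ℕ), (∀ p ∈ S₀, p.Prime) → ∀ ψ : (Em K → ℂ × ℂ) → ℝ, RFac ψ →
  ∀ φ : ℕ → Al K × Al K → ℝ, (∀ p ∈ S₀, PFac p (φ p)) → ∀ a : ℝ, 0 < a →
  ∀ η : ℝ, 0 < η → ∃ ℓ X₀ : ℝ, ∀ (X : ℝ) (y : s → ℝ), X₀ ≤ X → (∀ i, X ≤ Real.exp (y i)) →
    |({M ∈ SY κ i₀ (cf I) y | (∀ p : ℕ, p.Prime → (p : ℝ) ≤ X → Loc p (cf I) M) ∧
      TL S₀ ψ φ (a * tt (K := K) y) M}.ncard : ℝ) / tt (K := K) y - ℓ| ≤ η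

/-- GCJ: good cusp cells, twisted count -/
def S_GCJ : Prop := Odd (dg K) → 5 ≤ dg K → ∀ (I : FU K) (b : Bs K), IsB I b →
  ∀ (κ : Ux K → ℝ) (i₀ j : s), finrank ℚ (K j) = 1 →
  (∀ δ : ℝ, 0 < δ → volume (closure (Dcj b κ i₀ j δ) \ Dmj b κ i₀ j δ) = 0) →
  ∀ (S₀ : Finset ℕ), (∀ p ∈ S₀, p.Prime) → ∀ ψ : (Em K → ℂ × ℂ) → ℝ, RFac ψ →
  ∀ φ : ℕ → Al K × Al K → ℝ, (∀ p ∈ S₀, PFac p (φ p)) → ∀ a : ℝ, 0 < a →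
  ∀ η : ℝ, 0 < η → ∃ ℓ X₀ : ℝ, ∀ (X : ℝ) (y : s → ℝ), X₀ ≤ X → X ≤ Real.exp (-(y j)) →
    (∀ i, i ≠ j → X ≤ Real.exp (y i + y j)) →
    |({M ∈ SY κ i₀ (cf I) y | (∀ p : ℕ, p.Prime → (p : ℝ) ≤ X → Loc p (cf I) M) ∧
      TL S₀ ψ φ (a * tt (K := K) y) M}.ncard : ℝ) / tt (K := K) y - ℓ| ≤ η

/-- GCU: good cells, positivity -/
def S_GCU : Prop := Odd (dg K) → 5 ≤ dg K → ∀ (I : FU K) (b : Bs K), IsB I b →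
  ∀ (κ : Ux K → ℝ) (i₀ : s),
  (∀ δ : ℝ, 0 < δ → volume (closure (Dc b κ i₀ δ) \ Dm b κ i₀ δ) = 0) →
  (∃ P : Al K × Al K, IN P ∧ (∀ i, cn P i ≤ I i) ∧ ∀ p : ℕ, p.Prime → Loc p (cf I) (LT P)) →
  ∃ η ℓ X₀ : ℝ, 0 < η ∧ η < ℓ ∧ ∀ (X : ℝ) (y : s → ℝ), X₀ ≤ X → (∀ i, X ≤ Real.exp (y i)) →
    |({M ∈ SY κ i₀ (cf I) y | ∀ p : ℕ, p.Prime → (p : ℝ) ≤ X → Loc p (cf I) M}.ncard : ℝ) /
      tt (K := K) y - ℓ| ≤ η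

end

end Pool.Agent.Y714.KE
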